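import Pool.Agent.Lib.MP_b5021c_nt.KO.H52.Tn
import Pool.Agent.Lib.MP_b5021c_nt.IfaceE3

/-!
# MP_b5021c_nt, all `θ`, K ODD, (O1-iv) (4.4): the types `(0, 1)` and `(1, 1)`, `m = 1`
(one variable)
-/

namespace Pool.Agent.B5.H52.T11

open Polynomial
open scoped ComplexConjugate
open Pool.Agent.MP_b5021c_nt (nz)

/-- Schur-Cohn for a quadratic polynomial. -/
theorem schur_cohn {c0 c1 c2 : ℂ} (h : ∀ s : ℂ, ‖s‖ < 1 → c0 + c1 * s + c2 * s ^ 2 ≠ 0) :
    ‖conj c0 * c1 - c2 * conj c1‖ ≤ ‖c0‖ ^ 2 - ‖c2‖ ^ 2 := by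
  have h00 : c0 ≠ 0 := by
    have := h 0 (by simp)
    simpa using this
  by_cases h2 : c2 = 0
  · subst h2
    rw [zero_mul, sub_zero, norm_mul, Complex.norm_conj, norm_zero]
    have h1 : ‖c1‖ ≤ ‖c0‖ := by
      by_contra hcon
      push Not at hcon
      have hc1 : c1 ≠ 0 := by
        intro h3
        rw [h3, norm_zero] at hcon
        exact absurd hcon (not_lt.mpr (norm_nonneg _))
      refine h (-c0 / c1) ?_ ?_
      · rw [norm_div, norm_neg, div_lt_one (norm_pos_iff.mpr hc1)]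
        exact hcon
      · field_simp
        ring
    nlinarith [norm_nonneg c0]
  · -- the roots
    obtain ⟨r1, r2, hr⟩ : ∃ r1 r2 : ℂ, ∀ s, c0 + c1 * s + c2 * s ^ 2 =
        c2 * (s - r1) * (s - r2) := by
      obtain ⟨d, hd⟩ := IsAlgClosed.exists_pow_nat_eq (c1 ^ 2 - 4 * c0 * c2) (n := 2) (by norm_num)
      refine ⟨(-c1 + d) / (2 * c2), (-c1 - d) / (2 * c2), fun s => ?_⟩
      field_simp
      linear_combination hd
    have hr1 : 1 ≤ ‖r1‖ := by
      by_contra hcon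
      push Not at hcon
      refine h r1 hcon ?_
      rw [hr r1, sub_self, mul_zero, zero_mul]
    have hr2 : 1 ≤ ‖r2‖ := by
      by_contra hcon
      push Not at hcon
      refine h r2 hcon ?_
      rw [hr r2, sub_self, mul_zero]
    have e0 : c0 = c2 * (r1 * r2) := by
      have := hr 0
      linear_combination this
    have e1 : c1 = -(c2 * (r1 + r2)) := by
      have h1 := hr 1
      linear_combination h1 - e0
    have n1 : r1 * conj r1 = ((‖r1‖ ^ 2 : ℝ) : ℂ) := by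
      rw [Complex.mul_conj, Complex.normSq_eq_norm_sq]
    have n2 : r2 * conj r2 = ((‖r2‖ ^ 2 : ℝ) : ℂ) := by
      rw [Complex.mul_conj, Complex.normSq_eq_norm_sq]
    have n3 : c2 * conj c2 = ((‖c2‖ ^ 2 : ℝ) : ℂ) := by
      rw [Complex.mul_conj, Complex.normSq_eq_norm_sq]
    have hB : conj c0 * c1 - c2 * conj c1 =
        -(((‖c2‖ ^ 2 : ℝ) : ℂ) * (conj r2 * ((‖r1‖ ^ 2 - 1 : ℝ) : ℂ) +
          conj r1 * ((‖r2‖ ^ 2 - 1 : ℝ) : ℂ))) := by
      rw [e0, e1]
      simp only [map_mul, map_neg, map_add]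
      push_cast
      push_cast at n1 n2 n3
      rw [← n1, ← n2, ← n3]
      ring
    set a := ‖r1‖
    set b := ‖r2‖
    have h3 : ‖conj r2 * ((a ^ 2 - 1 : ℝ) : ℂ) + conj r1 * ((b ^ 2 - 1 : ℝ) : ℂ)‖ ≤
        b * (a ^ 2 - 1) + a * (b ^ 2 - 1) := by
      refine (norm_add_le _ _).trans (add_le_add (le_of_eq ?_) (le_of_eq ?_))
      · rw [norm_mul, Complex.norm_conj, Complex.norm_real, Real.norm_of_nonneg (by nlinarith)]
      · rw [norm_mul, Complex.norm_conj, Complex.norm_real, Real.norm_of_nonneg (by nlinarith)]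
    rw [hB, norm_neg, norm_mul, Complex.norm_real, Real.norm_of_nonneg (by positivity), e0,
      norm_mul, norm_mul]
    have h4 : b * (a ^ 2 - 1) + a * (b ^ 2 - 1) ≤ (a * b) ^ 2 - 1 := by
      have h5 : 1 ≤ a * b := by nlinarith
      have h6 : 0 ≤ (a - 1) * (b - 1) := mul_nonneg (by linarith) (by linarith)
      have h7 : (a * b) ^ 2 - 1 - (b * (a ^ 2 - 1) + a * (b ^ 2 - 1)) =
        (a * b - 1) * ((a - 1) * (b - 1)) := by ring
      have h8 : 0 ≤ (a * b - 1) * ((a - 1) * (b - 1)) := mul_nonneg (by linarith) h6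
      linarith
    calc ‖c2‖ ^ 2 * ‖conj r2 * ((a ^ 2 - 1 : ℝ) : ℂ) + conj r1 * ((b ^ 2 - 1 : ℝ) : ℂ)‖
        ≤ ‖c2‖ ^ 2 * ((a * b) ^ 2 - 1) :=
          mul_le_mul_of_nonneg_left (h3.trans h4) (by positivity)
      _ = (‖c2‖ * (a * b)) ^ 2 - ‖c2‖ ^ 2 := by ring

/-- The values of a polynomial on the circle and their conjugates. -/
theorem conj_val (f : ℤ[X]) {z : ℂ} (hz : ‖z‖ = 1) :
    z ^ f.natDegree * conj (aeval z f) = aeval z f.reverse := by
  have hz0 : z ≠ 0 := by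
    rintro rfl
    simp at hz
  have hinv : conj z = z⁻¹ := by
    rw [Complex.inv_def, Complex.normSq_eq_norm_sq, hz]
    simp
  have h1 : conj (aeval z f : ℂ) = aeval z⁻¹ f := by
    rw [← hinv, aeval_def, aeval_def, hom_eval₂]
    congr 1
    exact Subsingleton.elim _ _
  rw [h1]
  letI : Invertible (z⁻¹) := invertibleOfNonzero (inv_ne_zero hz0)
  have h2 := eval₂_reverse_mul_pow (algebraMap ℤ ℂ) (z⁻¹) f
  rw [invOf_eq_inv, inv_inv] at h2
  rw [aeval_def, aeval_def, ← h2, mul_comm, mul_assoc, ← mul_pow, inv_mul_cancel₀ hz0, one_pow,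
    mul_one]

/-- Infinitely many points on the arc `|1 + z| < 1` of the circle. -/
theorem arc_inf : Set.Infinite {z : ℂ | ‖z‖ = 1 ∧ ‖1 + z‖ < 1} := by
  have hc : Continuous fun t : ℝ => -Complex.exp (t * Complex.I) := by fun_prop
  have h0 : ∀ᶠ t : ℝ in nhds 0, ‖1 + -Complex.exp (t * Complex.I)‖ < 1 := by
    have h1 : Filter.Tendsto (fun t : ℝ => ‖1 + -Complex.exp (t * Complex.I)‖) (nhds 0)
        (nhds ‖1 + -Complex.exp (((0 : ℝ) : ℂ) * Complex.I)‖) :=
      ((continuous_const.add hc).norm).continuousAt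
    have h2 : ‖1 + -Complex.exp (((0 : ℝ) : ℂ) * Complex.I)‖ = 0 := by simp
    rw [h2] at h1
    exact h1.eventually (gt_mem_nhds one_pos)
  obtain ⟨d, hd, hd2⟩ := Metric.eventually_nhds_iff.mp h0
  have hinj : Set.InjOn (fun t : ℝ => -Complex.exp (t * Complex.I)) (Set.Ioo 0 (min d 1)) := by
    intro s hs t ht hst
    simp only [neg_inj] at hst
    have h3 := Complex.exp_eq_exp_iff_exists_int.mp hst
    obtain ⟨n, hn⟩ := h3
    have h4 : (s : ℝ) = t + n * (2 * Real.pi) := by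
      have h5 := congrArg Complex.im hn
      simpa using h5
    have hs2 : s < 1 := lt_of_lt_of_le hs.2 (min_le_right _ _)
    have ht2 : t < 1 := lt_of_lt_of_le ht.2 (min_le_right _ _)
    have hpi := Real.pi_gt_three
    have hn0 : n = 0 := by
      rcases lt_trichotomy n 0 with h | h | h
      · have h6 : (n : ℝ) ≤ -1 := by exact_mod_cast (by omega : n ≤ -1)
        have h7 : (n : ℝ) * (2 * Real.pi) ≤ -1 * (2 * Real.pi) :=
          mul_le_mul_of_nonneg_right h6 (by positivity)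
        have h8 := hs.1
        linarith
      · exact h
      · have h6 : (1 : ℝ) ≤ n := by exact_mod_cast (by omega : 1 ≤ n)
        have h7 : 1 * (2 * Real.pi) ≤ (n : ℝ) * (2 * Real.pi) :=
          mul_le_mul_of_nonneg_right h6 (by positivity)
        have h8 := ht.1
        linarith
    rw [hn0] at h4
    simpa using h4
  have hinf : ((fun t : ℝ => -Complex.exp (t * Complex.I)) '' Set.Ioo 0 (min d 1)).Infinite :=
    (Set.Ioo_infinite (lt_min hd one_pos)).image hinj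
  refine hinf.mono ?_
  rintro _ ⟨t, ht, rfl⟩
  refine ⟨?_, ?_⟩
  · rw [norm_neg, Complex.norm_exp_ofReal_mul_I]
  · apply hd2
    rw [Real.dist_eq, sub_zero, abs_of_pos ht.1]
    exact lt_of_lt_of_le ht.2 (min_le_left _ _)

/-- (T11) the face of `S0`, `S1`, `b` at `x = y = -zσ`, `t = σ`. -/
theorem t11_core {f E : ℤ[X]} (hne : ∀ z : ℂ, ‖z‖ = 1 → ∀ s : ℂ, ‖s‖ < 1 →
    (aeval z f - z * aeval z E) + ((aeval z f - z * aeval z E) + 3 * z * aeval z f) * s +
      ((aeval z f - z * aeval z E) + 3 * z * (1 + z) * aeval z f) * s ^ 2 ≠ 0) :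
    ∀ z : ℂ, ‖z‖ = 1 → ‖z * aeval z E - (1 + z) ^ 3 * aeval z f‖ = ‖(aeval z E : ℂ)‖ := by
  -- the identity between polynomials
  set R : ℤ[X] := (1 + X) ^ 3 * X ^ E.natDegree * (f * f.reverse) -
    X ^ (1 + E.natDegree) * (E * f.reverse) - X ^ (2 + f.natDegree) * (E.reverse * f) with hR
  have hval : ∀ z : ℂ, ‖z‖ = 1 → (aeval z R : ℂ) = z ^ (f.natDegree + E.natDegree) *
      ((1 + z) ^ 3 * (aeval z f * conj (aeval z f)) - z * aeval z E * conj (aeval z f) -
        z ^ 2 * conj (aeval z E) * aeval z f) := by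
    intro z hz
    rw [hR]
    simp only [map_mul, map_sub, map_add, map_pow, map_one, aeval_X]
    rw [← conj_val f hz, ← conj_val E hz]
    ring
  have hzero : ∀ z : ℂ, ‖z‖ = 1 → ‖1 + z‖ < 1 → (aeval z R : ℂ) = 0 := by
    intro z hz hz1
    have h1 := schur_cohn (hne z hz)
    have hzc : z * conj z = 1 := by
      rw [Complex.mul_conj, Complex.normSq_eq_norm_sq, hz]
      norm_num
    set F : ℂ := aeval z f with hF
    set q : ℂ := F - z * aeval z E with hq
    set B : ℂ := conj q * (q + 3 * z * F) - (q + 3 * z * (1 + z) * F) * conj (q + 3 * z * F)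
      with hB
    have hq2 : ((‖q‖ ^ 2 : ℝ) : ℂ) = q * conj q := by
      rw [Complex.mul_conj, Complex.normSq_eq_norm_sq]
    have hc2 : ((‖q + 3 * z * (1 + z) * F‖ ^ 2 : ℝ) : ℂ) =
        (q + 3 * z * (1 + z) * F) * conj (q + 3 * z * (1 + z) * F) := by
      rw [Complex.mul_conj, Complex.normSq_eq_norm_sq]
    have hD : ((‖q‖ ^ 2 - ‖q + 3 * z * (1 + z) * F‖ ^ 2 : ℝ) : ℂ) = (1 + conj z) * B := by
      push_cast
      push_cast at hq2 hc2
      rw [hq2, hc2, hB]
      simp only [map_add, map_mul, map_one, map_ofNat]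
      linear_combination (3 * z * F * conj q) * hzc
    have hB0 : B = 0 := by
      by_contra hne0
      have h2 : ‖(((‖q‖ ^ 2 - ‖q + 3 * z * (1 + z) * F‖ ^ 2 : ℝ)) : ℂ)‖ = ‖1 + conj z‖ * ‖B‖ := by
        rw [hD, norm_mul]
      have h3 : 0 ≤ ‖q‖ ^ 2 - ‖q + 3 * z * (1 + z) * F‖ ^ 2 := (norm_nonneg _).trans h1
      rw [Complex.norm_real, Real.norm_of_nonneg h3] at h2
      have h4 : ‖1 + conj z‖ = ‖1 + z‖ := by
        rw [← Complex.norm_conj (1 + z), map_add, map_one]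
      rw [h4] at h2
      have h5 : ‖B‖ ≤ ‖1 + z‖ * ‖B‖ := by
        rw [← h2]
        exact h1
      have h6 : 0 < ‖B‖ := norm_pos_iff.mpr hne0
      nlinarith
    rw [hval z hz]
    have h7 : (1 + z) ^ 3 * (F * conj F) - z * aeval z E * conj F -
        z ^ 2 * conj (aeval z E) * F = 0 := by
      have h8 : B = conj q * (q + 3 * z * F) - (q + 3 * z * (1 + z) * F) *
        conj (q + 3 * z * F) := hB
      rw [hB0, hq] at h8
      simp only [map_add, map_sub, map_mul, map_ofNat] at h8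
      have h9 : (3 : ℂ) * ((1 + z) ^ 3 * (F * conj F) - z * aeval z E * conj F -
        z ^ 2 * conj (aeval z E) * F) = 0 := by
        linear_combination z * h8 + (-3 * F * conj F * (1 + 3 * z + 3 * z ^ 2) +
          3 * z ^ 2 * conj (aeval z E) * F + 3 * z * aeval z E * conj F) * hzc
      have h10 : (3 : ℂ) ≠ 0 := by norm_num
      exact (mul_eq_zero.mp h9).resolve_left h10
    rw [h7, mul_zero]
  have hR0 : R = 0 := by
    have h1 : (R.map (algebraMap ℤ ℂ)) = 0 := by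
      apply eq_zero_of_infinite_isRoot
      refine arc_inf.mono ?_
      rintro z ⟨hz, hz1⟩
      change (R.map (algebraMap ℤ ℂ)).IsRoot z
      rw [IsRoot, eval_map, ← aeval_def]
      exact hzero z hz hz1
    rw [← map_zero (mapRingHom (algebraMap ℤ ℂ))] at h1
    exact map_injective _ (algebraMap ℤ ℂ).injective_int h1
  intro z hz
  have hz0 : z ≠ 0 := by
    rintro rfl
    simp at hz
  have hzc : z * conj z = 1 := by
    rw [Complex.mul_conj, Complex.normSq_eq_norm_sq, hz]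
    norm_num
  have h1 := hval z hz
  rw [hR0, map_zero] at h1
  have h2 := (mul_eq_zero.mp h1.symm).resolve_left (pow_ne_zero _ hz0)
  have h3 : ((‖z * aeval z E - (1 + z) ^ 3 * aeval z f‖ ^ 2 : ℝ) : ℂ) =
      ((‖(aeval z E : ℂ)‖ ^ 2 : ℝ) : ℂ) := by
    rw [← Complex.normSq_eq_norm_sq, ← Complex.normSq_eq_norm_sq, ← Complex.mul_conj,
      ← Complex.mul_conj]
    simp only [map_add, map_sub, map_mul, map_pow, map_one]
    set F : ℂ := aeval z f
    set e : ℂ := aeval z E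
    linear_combination (e * conj e) * hzc + (1 + conj z) ^ 3 * h2 +
      (conj e * F * (-z ^ 2 + 3 * z * conj z + conj z * (z * conj z + 1))) * hzc
  have h4 : ‖z * aeval z E - (1 + z) ^ 3 * aeval z f‖ ^ 2 = ‖(aeval z E : ℂ)‖ ^ 2 := by
    exact_mod_cast h3
  exact (pow_left_inj₀ (norm_nonneg _) (norm_nonneg _) (by norm_num)).mp h4

/-- (T01) the load `t = 1` of the ray `b` of `V_B`. -/
theorem t01_core (hNd : Nd3S) {f E : ℤ[X]} (hf : f ≠ 0)
    (hn : nz ((f - X * E + X * f).map (algebraMap ℤ ℂ)) = 1)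
    (hq : ∀ z : ℂ, ‖z‖ = 1 → (aeval z (f - X * E + X * f) : ℂ) ≠ 0)
    (hle : ∀ z : ℂ, ‖z‖ = 1 → ‖(1 + z) ^ 2 * aeval z f - z * aeval z E +
      z ^ 2 * (1 + z) * aeval z f‖ ≤ ‖(aeval z (f - X * E + X * f) : ℂ)‖) : False := by
  have hev : ∀ (p : ℤ[X]) (z : ℂ), (p.map (algebraMap ℤ ℂ)).eval z = aeval z p := by
    intro p z
    rw [eval_map, aeval_def]
  set v : ℤ[X] := -(X * ((1 + X) ^ 2 * f)) with hv
  have hX1 : (1 + X : ℤ[X]) ≠ 0 := by
    intro h
    have := congrArg (fun P : ℤ[X] => P.coeff 0) h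
    simp at this
  have hv0 : v ≠ 0 := by
    rw [hv]
    exact neg_ne_zero.mpr (mul_ne_zero X_ne_zero (mul_ne_zero (pow_ne_zero 2 hX1) hf))
  refine hNd ((f - X * E + X * f).map (algebraMap ℤ ℂ)) (v.map (algebraMap ℤ ℂ)) (-1) hn ?_ ?_ ?_
    ?_ (by simp) ?_
  · intro z hz
    rw [hev]
    exact hq z hz
  · intro z hz
    rw [hev, hev]
    set Q : ℂ := aeval z (f - X * E + X * f) with hQ
    set cb : ℂ := (1 + z) ^ 2 * aeval z f - z * aeval z E + z ^ 2 * (1 + z) * aeval z f with hcb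
    have h1 : (aeval z v : ℂ) = Q - cb := by
      rw [hv, hQ, hcb]
      simp only [map_neg, map_mul, map_add, map_sub, map_pow, map_one, aeval_X]
      ring
    have h2 : ((Q - cb) * (starRingEnd ℂ) Q).re = ‖Q‖ ^ 2 - (cb * (starRingEnd ℂ) Q).re := by
      rw [sub_mul, Complex.sub_re, Complex.mul_conj, Complex.ofReal_re, Complex.normSq_eq_norm_sq]
    rw [h1, h2]
    have h3 : (cb * (starRingEnd ℂ) Q).re ≤ ‖cb‖ * ‖Q‖ := by
      refine (Complex.re_le_norm _).trans ?_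
      rw [norm_mul, Complex.norm_conj]
    have h4 := hle z hz
    nlinarith [norm_nonneg Q, norm_nonneg cb]
  · intro h
    apply hv0
    rw [← map_zero (mapRingHom (algebraMap ℤ ℂ))] at h
    exact map_injective _ (algebraMap ℤ ℂ).injective_int h
  · refine ⟨0, by simp, ?_⟩
    rw [hev, hv]
    simp
  · refine ⟨(-(X * f)).map (algebraMap ℤ ℂ), ?_⟩
    have h1 : (X - C (-1 : ℂ)) = (1 + X : ℤ[X]).map (algebraMap ℤ ℂ) := by
      simp [add_comm]
    rw [h1, ← Polynomial.map_pow, ← Polynomial.map_mul]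
    congr 1
    rw [hv]
    ring

end Pool.Agent.B5.H52.T11
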