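import Pool.Agent.Lib.MP_b5021c_nt.IfaceSF

/-!
# MP_b5021c_nt, all `θ`, K ODD, (O1-iv) (4.4): the type `(0, 0)` (one variable)
-/

namespace Pool.Agent.B5.H52.T00

open Polynomial
open scoped LaurentPolynomial ComplexConjugate

/-- A zero of `γ` with `|γ|² ≤ 2 Re (α conj γ)`. -/
theorem no_min {α γ : ℝ → ℂ} {α' γ' : ℂ} (hα : HasDerivAt α α' 0) (hγ : HasDerivAt γ γ' 0)
    (h0 : γ 0 = 0) (hle : ∀ t, ‖γ t‖ ^ 2 ≤ 2 * (α t * conj (γ t)).re) :
    (α 0 * conj γ').re = 0 := by
  have hc : HasDerivAt (fun t => conj (γ t)) (conj γ') 0 := hγ.star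
  have h1 : HasDerivAt (fun t => (2 * α t - γ t) * conj (γ t))
      ((2 * α' - γ') * conj (γ 0) + (2 * α 0 - γ 0) * conj γ') 0 :=
    ((hα.const_mul 2).sub hγ).mul hc
  have h2 : HasDerivAt (fun t => ((2 * α t - γ t) * conj (γ t)).re)
      ((2 * α' - γ') * conj (γ 0) + (2 * α 0 - γ 0) * conj γ').re 0 := by
    exact (Complex.reCLM.hasFDerivAt).comp_hasDerivAt (0 : ℝ) h1
  have hval : ∀ t, ((2 * α t - γ t) * conj (γ t)).re = 2 * (α t * conj (γ t)).re - ‖γ t‖ ^ 2 := by
    intro t
    have e1 : (γ t * conj (γ t)).re = ‖γ t‖ ^ 2 := by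
      rw [Complex.mul_conj, Complex.ofReal_re, Complex.normSq_eq_norm_sq]
    rw [sub_mul, Complex.sub_re, e1]
    have e2 : (2 * α t * conj (γ t)).re = 2 * (α t * conj (γ t)).re := by
      rw [mul_assoc]
      have e3 : (2 : ℂ) = ((2 : ℝ) : ℂ) := by norm_num
      rw [e3, Complex.re_ofReal_mul]
    rw [e2]
  have hmin : IsLocalMin (fun t => ((2 * α t - γ t) * conj (γ t)).re) 0 := by
    refine Filter.Eventually.of_forall fun t => ?_
    change ((2 * α 0 - γ 0) * conj (γ 0)).re ≤ ((2 * α t - γ t) * conj (γ t)).re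
    rw [h0, map_zero, mul_zero, Complex.zero_re, hval t]
    linarith [hle t]
  have h3 := hmin.hasDerivAt_eq_zero h2
  rw [h0, map_zero, mul_zero, zero_add, sub_zero] at h3
  have h4 : (2 * α 0 * conj γ').re = 2 * (α 0 * conj γ').re := by
    rw [mul_assoc]
    have e3 : (2 : ℂ) = ((2 : ℝ) : ℂ) := by norm_num
    rw [e3, Complex.re_ofReal_mul]
  rw [h4] at h3
  linarith

/-- The circle through `-1`. -/
theorem hasDeriv_circ (A : ℂ[X]) :
    HasDerivAt (fun t : ℝ => A.eval (-Complex.exp (t * Complex.I)))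
      (A.derivative.eval (-1) * (-Complex.I)) 0 := by
  have h1 : HasDerivAt (fun t : ℝ => -Complex.exp (t * Complex.I)) (-Complex.I) 0 := by
    have h2 : HasDerivAt (fun t : ℝ => (t : ℂ) * Complex.I) Complex.I 0 := by
      have h3 : HasDerivAt (fun t : ℝ => (t : ℂ)) 1 0 := Complex.ofRealCLM.hasDerivAt
      simpa using h3.mul_const Complex.I
    have h4 := h2.cexp.neg
    have h5 : -(Complex.exp (((0 : ℝ) : ℂ) * Complex.I) * Complex.I) = -Complex.I := by simp
    rw [h5] at h4
    exact h4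
  have h5 : HasDerivAt (fun z : ℂ => A.eval z) (A.derivative.eval (-1))
      (-Complex.exp (((0 : ℝ) : ℂ) * Complex.I)) := by
    have := A.hasDerivAt (-1)
    simpa using this
  exact h5.comp (0 : ℝ) h1

/-- Polynomials. -/
theorem no_min_pol {A G : ℂ[X]} (h0 : G.eval (-1) = 0)
    (hle : ∀ z : ℂ, ‖z‖ = 1 → ‖G.eval z‖ ^ 2 ≤ 2 * (A.eval z * conj (G.eval z)).re) :
    (A.eval (-1) * conj (G.derivative.eval (-1) * (-Complex.I))).re = 0 := by
  have h1 := no_min (hasDeriv_circ A) (hasDeriv_circ G) (by simpa using h0) (fun t => hle _ (by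
    rw [norm_neg, Complex.norm_exp_ofReal_mul_I]))
  simpa using h1

/-- The polynomial `1 + X + .. + X^(m-1)`. -/
noncomputable def br (m : ℕ) : ℤ[X] := ∑ k ∈ Finset.range m, X ^ k

theorem br_mul (m : ℕ) : br m * (1 - X) = 1 - X ^ m := geom_sum_mul_neg (X : ℤ[X]) m

theorem T_mul_fej (m : ℕ) :
    LaurentPolynomial.T ((m : ℤ) - 1) * fej 1 m = toLaurent (br m ^ 2) := by
  have h1 : (∑ k ∈ Finset.range m, LaurentPolynomial.C ((1 : ℤ) ^ k) *
      LaurentPolynomial.T (k : ℤ) : RO ℤ) = toLaurent (br m) := by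
    unfold br
    rw [map_sum]
    refine Finset.sum_congr rfl fun k _ => ?_
    rw [one_pow, map_one, one_mul, toLaurent_X_pow]
  have h2 : LaurentPolynomial.T ((m : ℤ) - 1) * (∑ k ∈ Finset.range m,
      LaurentPolynomial.C ((1 : ℤ) ^ k) * LaurentPolynomial.T (-(k : ℤ)) : RO ℤ) =
      toLaurent (br m) := by
    unfold br
    rw [Finset.mul_sum, map_sum, ← Finset.sum_range_reflect]
    refine Finset.sum_congr rfl fun k hk => ?_
    have hk2 := Finset.mem_range.mp hk
    rw [one_pow, map_one, one_mul, toLaurent_X_pow, ← LaurentPolynomial.T_add]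
    congr 1
    omega
  have h3 : fej 1 m = toLaurent (br m) * (∑ k ∈ Finset.range m,
      LaurentPolynomial.C ((1 : ℤ) ^ k) * LaurentPolynomial.T (-(k : ℤ)) : RO ℤ) := by
    rw [← h1]
    rfl
  rw [h3, mul_left_comm, h2, map_pow, pow_two]

theorem evR_pl (z : Circle) (p : ℤ[X]) : evR z (toLaurent p : RO ℤ) = aeval (z : ℂ) p := by
  unfold evR
  rw [LaurentPolynomial.eval₂_toLaurent]
  rfl

/-- Circle of `z = -1`. -/
theorem T00_core {f E : ℤ[X]} {g : RO ℤ} {m : ℕ} (hm : 1 ≤ m) (hE : aeval (-1 : ℤ) E ≠ 0)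
    (hrel : fej 1 m * toLaurent ((1 + X) ^ 2 * f - X * E) =
      -(LaurentPolynomial.T 1 * (1 + LaurentPolynomial.T 1)) * g)
    (hle : ∀ z : Circle, ‖evR z g * (Complex.I - (1 + (z : ℂ)) ^ 2) -
      (Complex.I * aeval (z : ℂ) f - z * aeval (z : ℂ) E)‖ ≤
      ‖Complex.I * aeval (z : ℂ) f - z * aeval (z : ℂ) E‖) : False := by
  obtain ⟨n, G, hG⟩ := LaurentPolynomial.exists_T_pow g
  set V : ℤ[X] := (1 + X) ^ 2 * f - X * E with hV
  -- the relation between polynomials
  have hpol : br m ^ 2 * V * X ^ n = -(X * (1 + X)) * X ^ (m - 1) * G := by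
    apply toLaurent_injective
    have h1 := congrArg (fun P => LaurentPolynomial.T ((m : ℤ) - 1) * P *
      LaurentPolynomial.T (n : ℤ)) hrel
    have h2 : LaurentPolynomial.T ((m : ℤ) - 1) * (fej 1 m * toLaurent V) *
        LaurentPolynomial.T (n : ℤ) = toLaurent (br m ^ 2 * V * X ^ n) := by
      rw [← mul_assoc, T_mul_fej, map_mul, map_mul, toLaurent_X_pow]
    have h3 : LaurentPolynomial.T ((m : ℤ) - 1) *
        (-(LaurentPolynomial.T 1 * (1 + LaurentPolynomial.T 1)) * g) *
        LaurentPolynomial.T (n : ℤ) = toLaurent (-(X * (1 + X)) * X ^ (m - 1) * G) := by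
      rw [map_mul, map_mul, map_neg, map_mul, map_add, map_one, toLaurent_X, toLaurent_X_pow, hG,
        show ((m : ℤ) - 1) = ((m - 1 : ℕ) : ℤ) by omega]
      ring
    rw [← h2, ← h3]
    exact h1
  have hV1 : V.eval (-1) = E.eval (-1) := by
    rw [hV]
    simp
  have hE1 : E.eval (-1) ≠ 0 := by
    intro h
    apply hE
    rw [← coe_aeval_eq_eval] at h
    exact h
  -- `m` is even
  have hbr := br_mul m
  have hev : Even m := by
    by_contra hodd
    have hodd' := Nat.not_even_iff_odd.mp hodd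
    have h1 := congrArg (fun P => eval (-1) P) hbr
    simp only [eval_mul, eval_sub, eval_one, eval_X, eval_pow, hodd'.neg_one_pow] at h1
    have h2 : (br m).eval (-1) = 1 := by linarith
    have h3 := congrArg (fun P => eval (-1) P) hpol
    simp only [eval_mul, eval_pow, eval_neg, eval_X, eval_add, eval_one, h2, hV1] at h3
    have h4 : E.eval (-1) * (-1) ^ n = 0 := by linear_combination h3
    exact mul_ne_zero hE1 (pow_ne_zero n (by norm_num)) h4
  have hb0 : (br m).eval (-1) = 0 := by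
    have h1 := congrArg (fun P => eval (-1) P) hbr
    simp only [eval_mul, eval_sub, eval_one, eval_X, eval_pow, hev.neg_one_pow] at h1
    linarith
  obtain ⟨B, hB⟩ := dvd_iff_isRoot.mpr hb0
  have hXX : (X - C (-1) : ℤ[X]) = 1 + X := by
    rw [map_neg, map_one, sub_neg_eq_add, add_comm]
  rw [hXX] at hB
  have hB1 : B.eval (-1) ≠ 0 := by
    have h1 := congrArg (fun P => eval (-1) (derivative P)) hbr
    rw [hB] at h1
    simp only [derivative_mul, derivative_sub, derivative_add, derivative_one, derivative_X,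
      derivative_X_pow, eval_mul, eval_sub, eval_add, eval_one, eval_X, eval_pow, eval_zero,
      eval_C] at h1
    have h2 : ((-1 : ℤ)) ^ (m - 1) = -1 := by
      apply Odd.neg_one_pow
      obtain ⟨k, hk⟩ := hev
      exact ⟨k - 1, by omega⟩
    rw [h2] at h1
    intro h
    rw [h] at h1
    norm_num at h1
    omega
  have hpol2 : (1 + X) * B ^ 2 * V * X ^ n = -(X * X ^ (m - 1) * G) := by
    have h1 : (1 + X : ℤ[X]) ≠ 0 := by
      rw [← hXX]
      exact X_sub_C_ne_zero _
    apply mul_left_cancel₀ h1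
    have h2 := hpol
    rw [hB] at h2
    linear_combination h2
  have hXm : (X * X ^ (m - 1) : ℤ[X]) = X ^ m := by
    rw [← pow_succ', Nat.sub_add_cancel hm]
  rw [hXm] at hpol2
  have hG0 : G.eval (-1) = 0 := by
    have h1 := congrArg (fun P => eval (-1) P) hpol2
    simp only [eval_mul, eval_pow, eval_neg, eval_X, eval_add, eval_one, hev.neg_one_pow] at h1
    norm_num at h1
    linarith
  have hG1 : (derivative G).eval (-1) ≠ 0 := by
    intro h
    have h1 := congrArg (fun P => eval (-1) (derivative P)) hpol2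
    simp only [derivative_mul, derivative_add, derivative_one, derivative_X, derivative_neg,
      eval_mul, eval_pow, eval_neg, eval_X, eval_add, eval_one, eval_zero, hG0, h, hV1] at h1
    have h4 : B.eval (-1) ^ 2 * E.eval (-1) * (-1) ^ n = 0 := by linear_combination h1
    exact mul_ne_zero (mul_ne_zero (pow_ne_zero 2 hB1) hE1) (pow_ne_zero n (by norm_num)) h4
  -- the local minimum
  set AC : ℂ[X] := X ^ n * (C Complex.I * cpz f - X * cpz E) with hAC
  set GC : ℂ[X] := cpz G * (C Complex.I - (1 + X) ^ 2) with hGC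
  have hcz : ∀ (p : ℤ[X]) (z : ℂ), (cpz p).eval z = aeval z p := by
    intro p z
    unfold cpz
    rw [eval_map, aeval_def]
    rfl
  have hc1 : ∀ p : ℤ[X], (cpz p).eval (-1) = ((p.eval (-1) : ℤ) : ℂ) := by
    intro p
    unfold cpz
    have h1 : (-1 : ℂ) = (Coef.emb : ℤ →+* ℂ) (-1) := by simp
    rw [h1, eval_map, eval₂_at_apply]
    exact eq_intCast _ _
  have hcd : ∀ p : ℤ[X], derivative (cpz p) = cpz (derivative p) := by
    intro p
    unfold cpz
    rw [derivative_map]
  have hGC0 : GC.eval (-1) = 0 := by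
    rw [hGC, eval_mul, hc1, hG0]
    simp
  have hfin := no_min_pol (A := AC) hGC0 (by
    intro z hz
    set zc : Circle := ⟨z, mem_sphere_zero_iff_norm.mpr hz⟩ with hzc
    have hzz : ((zc : Circle) : ℂ) = z := rfl
    have h1 := hle zc
    rw [hzz] at h1
    set α : ℂ := Complex.I * aeval z f - z * aeval z E with hα
    set γ : ℂ := evR zc g * (Complex.I - (1 + z) ^ 2) with hγ
    have h2 : ‖γ‖ ^ 2 ≤ 2 * (α * conj γ).re := by
      have h3 : ‖γ - α‖ ^ 2 ≤ ‖α‖ ^ 2 := pow_le_pow_left₀ (norm_nonneg _) h1 2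
      rw [← Complex.normSq_eq_norm_sq, ← Complex.normSq_eq_norm_sq, Complex.normSq_sub] at h3
      rw [← Complex.normSq_eq_norm_sq]
      have h4 : (γ * conj α).re = (α * conj γ).re := by
        rw [← Complex.conj_re, map_mul, Complex.conj_conj, mul_comm]
      linarith
    have hA : AC.eval z = z ^ n * α := by
      rw [hAC, hα]
      simp only [eval_mul, eval_sub, eval_pow, eval_X, eval_C, hcz]
    have hGz : evR zc g * z ^ n = aeval z G := by
      have h3 := congrArg (fun P => evR zc P) hG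
      rw [map_mul, evR_pl, ← toLaurent_X_pow, evR_pl, map_pow, aeval_X, hzz] at h3
      exact h3.symm
    have hGe : GC.eval z = z ^ n * γ := by
      rw [hGC, hγ]
      simp only [eval_mul, eval_sub, eval_pow, eval_X, eval_C, eval_add, eval_one, hcz]
      rw [← hGz]
      ring
    rw [hA, hGe, norm_mul, norm_pow, hz, one_pow, one_mul]
    have h5 : z ^ n * α * conj (z ^ n * γ) = α * conj γ := by
      rw [map_mul, map_pow]
      have h6 : z * conj z = 1 := by
        rw [Complex.mul_conj, Complex.normSq_eq_norm_sq, hz]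
        norm_num
      calc z ^ n * α * (conj z ^ n * conj γ) = (z * conj z) ^ n * (α * conj γ) := by
            rw [mul_pow]; ring
        _ = _ := by rw [h6, one_pow, one_mul]
    rw [h5]
    exact h2)
  have hA1 : AC.eval (-1) = (-1) ^ n * (Complex.I * ((f.eval (-1) : ℤ) : ℂ) +
      ((E.eval (-1) : ℤ) : ℂ)) := by
    rw [hAC]
    simp only [eval_mul, eval_sub, eval_pow, eval_X, eval_C, hc1]
    ring
  have hG2 : (derivative GC).eval (-1) = (((derivative G).eval (-1) : ℤ) : ℂ) * Complex.I := by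
    rw [hGC, derivative_mul, eval_add, eval_mul, eval_mul, hcd, hc1, hc1, hG0]
    simp only [eval_sub, eval_pow, eval_X, eval_C, eval_add, eval_one]
    ring
  rw [hA1, hG2] at hfin
  have h7 : ((((derivative G).eval (-1) : ℤ) : ℂ) * Complex.I) * (-Complex.I) =
      (((derivative G).eval (-1) : ℤ) : ℂ) := by
    rw [mul_assoc, mul_neg, Complex.I_mul_I, neg_neg, mul_one]
  rw [h7, map_intCast] at hfin
  have h8 : ((-1 : ℂ) ^ n * (Complex.I * ((f.eval (-1) : ℤ) : ℂ) + ((E.eval (-1) : ℤ) : ℂ)) *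
      (((derivative G).eval (-1) : ℤ) : ℂ)) =
      (((-1) ^ n * f.eval (-1) * (derivative G).eval (-1) : ℤ) : ℂ) * Complex.I +
      (((-1) ^ n * E.eval (-1) * (derivative G).eval (-1) : ℤ) : ℂ) := by
    push_cast
    ring
  rw [h8] at hfin
  simp only [Complex.add_re, Complex.mul_re, Complex.I_re, Complex.I_im, Complex.intCast_re,
    Complex.intCast_im, mul_zero, zero_mul, sub_zero, zero_add] at hfin
  have h9 : (-1) ^ n * E.eval (-1) * (derivative G).eval (-1) = 0 := by exact_mod_cast hfin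
  exact mul_ne_zero (mul_ne_zero (pow_ne_zero n (by norm_num)) hE1) hG1 h9

end Pool.Agent.B5.H52.T00
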