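import Pool.Agent.Lib.MP_b5021c_nt.IfaceOF
import Pool.Agent.Lib.MP_b5021c_nt.IfaceE4
import Pool.Agent.Lib.MP_b5021c_nt.B.H16.H2c

/-!
# MP_b5021c_nt: the face of a mutual pair and one exponent outside, in the normal form
-/

namespace Pool.Agent.B5.H52.Face

open scoped LaurentPolynomial

variable {O : Type} [CommRing O] [IsDomain O] [IsPrincipalIdealRing O] [Coef O]
  {P L : Type} [Fintype P] [DecidableEq P] [AddCommGroup L] [Module.Free ℤ L]
  [Module.Finite ℤ L] {phi : L →+ (P → ℤ)} {D : AO O L}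

/-- `D` on the classes of `0` and `b` modulo `S0`, `S1` does not vanish in the tridisc. -/
theorem face (hF : FcmS) (hD : DD phi D) (h2 : 2 ≤ Module.finrank ℤ L) {S0 S1 b : L}
    {e0 e1 : (RO O)ˣ} (hS0 : Bin phi S0) (hS1 : Bin phi S1) (hb : Bin phi b)
    (n0 : S0 ≠ 0) (n1 : S1 ≠ 0) (nb : b ≠ 0) (hdis : ∀ i, phi S0 i = 0 ∨ phi S1 i = 0)
    (hout : Out phi S0 S1 b) {A : RO O} (h0 : (e0 : RO O) * D.coeff S0 = A)
    (h1 : (e1 : RO O) * D.coeff S1 = A)
    (h01 : (e0 : RO O) * (e1 : RO O) * D.coeff (S0 + S1) = -A)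
    {i j : ℕ} {p r : RO O} (hN : Nf D S0 S1 e0 e1 b i j p r) (z : Circle) {x y t : ℂ}
    (hx : ‖x‖ < 1) (hy : ‖y‖ < 1) (ht : ‖t‖ < 1) :
    evR z (D.coeff 0 + A) - evR z A * ((1 - x) * (1 - y)) +
      t * (evR z p * (x ^ i * y ^ j) + evR z r * ((1 - x) * (1 - y))) ≠ 0 := by
  have hn : ∀ u : (RO O)ˣ, ‖evR z (u : RO O)‖ = 1 := fun u => H36.norm_evR_unit z _ u.isUnit
  have h3 := hF O P L phi D 3 ![S0, S1, b] hD h2 (by
    intro k
    fin_cases k
    · exact hS0
    · exact hS1
    · exact hb) (by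
    intro k
    fin_cases k
    · exact n0
    · exact n1
    · exact nb) (by
    intro k l hkl q
    have e1 := hdis q
    have e2 := hout q
    fin_cases k <;> fin_cases l <;> simp at hkl <;> simp <;> tauto) z
    ![evR z (e0 : RO O) * x, evR z (e1 : RO O) * y, t] (by
    intro k
    fin_cases k
    · simp [norm_mul, hn, hx]
    · simp [norm_mul, hn, hy]
    · simp [ht])
  rw [H16.sum_fin3] at h3
  intro hcon
  apply h3
  have n01 : (0 : Fin 3) ≠ 1 := by decide
  have n02 : (0 : Fin 3) ≠ 2 := by decide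
  have n12 : (1 : Fin 3) ≠ 2 := by decide
  have n012 : (0 : Fin 3) ∉ ({1, 2} : Finset (Fin 3)) := by decide
  have c00 := congrArg (evR z) hN.c00
  have c10 := congrArg (evR z) hN.c10
  have c01 := congrArg (evR z) hN.c01
  have c11 := congrArg (evR z) hN.c11
  have d0 := congrArg (evR z) h0
  have d1 := congrArg (evR z) h1
  have d01 := congrArg (evR z) h01
  have hi := hN.i1
  have hj := hN.j1
  simp only [Finset.sum_empty, Finset.prod_empty, Finset.sum_singleton, Finset.prod_singleton,
    Finset.prod_pair n01, Finset.sum_pair n01, Finset.prod_pair n02, Finset.sum_pair n02,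
    Finset.prod_pair n12, Finset.sum_pair n12, Finset.prod_insert n012, Finset.sum_insert n012,
    Matrix.cons_val_zero, Matrix.cons_val_one, Matrix.cons_val]
  have hb0 : S0 + b = b + S0 := add_comm _ _
  have hb1 : S1 + b = b + S1 := add_comm _ _
  have hb2 : S0 + (b + S1) = b + S0 + S1 := by abel
  rw [hb0, hb1, hb2]
  simp only [map_mul, map_add, map_sub, map_neg] at c00 c10 c01 c11 d0 d1 d01 hcon
  rcases (by omega : i = 0 ∨ i = 1) with hi0 | hi0 <;>
    rcases (by omega : j = 0 ∨ j = 1) with hj0 | hj0 <;>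
    subst hi0 <;> subst hj0 <;> simp only [pow_zero, pow_one] at hcon <;>
    simp at c00 c10 c01 c11
  · linear_combination hcon + x * d0 + y * d1 + x * y * d01 + t * c00 + t * x * c10 + t * y * c01 +
      t * x * y * c11
  · linear_combination hcon + x * d0 + y * d1 + x * y * d01 + t * c00 + t * x * c10 + t * y * c01 +
      t * x * y * c11
  · linear_combination hcon + x * d0 + y * d1 + x * y * d01 + t * c00 + t * x * c10 + t * y * c01 +
      t * x * y * c11
  · linear_combination hcon + x * d0 + y * d1 + x * y * d01 + t * c00 + t * x * c10 + t * y * c01 +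
      t * x * y * c11

end Pool.Agent.B5.H52.Face
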