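import Mathlib

/-!
# Board b5, K odd, l = 3: positive kernels (helper52)

A polynomial with non-negative real part on the unit circle: linear inequalities for the values
`G 0`, `G_1`, `G_2`, `G x`, `G y` (`x`, `y` in `(-1, 1)`).
-/

namespace Pool.Agent.B5.Krn

open Polynomial Complex MeasureTheory Metric Real

/-- The Poisson kernel at the real point `w`. -/
noncomputable def Pk (w c : ℝ) : ℝ := (1 - w ^ 2) / (1 + w ^ 2 - 2 * w * c)

theorem den_pos {w c : ℝ} (hw : |w| < 1) (h1 : -1 ≤ c) (h2 : c ≤ 1) :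
    0 < 1 + w ^ 2 - 2 * w * c := by
  obtain ⟨h3, h4⟩ := abs_lt.mp hw
  rcases le_or_gt 0 w with h | h
  · nlinarith
  · nlinarith

theorem re_bd {z : ℂ} (hz : ‖z‖ = 1) : -1 ≤ z.re ∧ z.re ≤ 1 := by
  have h := abs_le.mp ((Complex.abs_re_le_norm z).trans_eq hz)
  exact h

theorem cont_pk {w : ℝ} (hw : |w| < 1) :
    ContinuousOn (fun z : ℂ => Pk w z.re) (sphere (0 : ℂ) 1) := by
  unfold Pk
  refine ContinuousOn.div (by fun_prop) (by fun_prop) ?_
  intro z hz
  have hz1 : ‖z‖ = 1 := by simpa using hz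
  exact (den_pos hw (re_bd hz1).1 (re_bd hz1).2).ne'

theorem cont_ae (P : ℤ[X]) : Continuous fun z : ℂ => (aeval z P : ℂ) := by
  have h : (fun z : ℂ => (aeval z P : ℂ)) = fun z => (P.map (algebraMap ℤ ℂ)).eval z := by
    funext z
    rw [eval_map, aeval_def]
  rw [h]
  exact (P.map (algebraMap ℤ ℂ)).continuous

theorem diff_ae (P : ℤ[X]) : Differentiable ℂ fun z : ℂ => (aeval z P : ℂ) := by
  have h : (fun z : ℂ => (aeval z P : ℂ)) = fun z => (P.map (algebraMap ℤ ℂ)).eval z := by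
    funext z
    rw [eval_map, aeval_def]
  rw [h]
  exact (P.map (algebraMap ℤ ℂ)).differentiable

theorem ci_of {f : ℂ → ℝ} (hf : ContinuousOn f (sphere (0 : ℂ) 1)) :
    CircleIntegrable f 0 1 := by
  apply ContinuousOn.circleIntegrable (by norm_num)
  exact hf

theorem ci_ofC {f : ℂ → ℂ} (hf : ContinuousOn f (sphere (0 : ℂ) 1)) :
    CircleIntegrable f 0 1 := by
  apply ContinuousOn.circleIntegrable (by norm_num)
  exact hf

/-- The real part of a polynomial: the Poisson formula at a real point. -/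
theorem avg (P : ℤ[X]) {w : ℝ} (hw : |w| < 1) :
    Real.circleAverage (fun z : ℂ => Pk w z.re * (aeval z P : ℂ).re) 0 1 = aeval w P := by
  have hwb : (w : ℂ) ∈ ball (0 : ℂ) 1 := by simpa using hw
  have h1 := DiffContOnCl.circleAverage_poissonKernel_smul' (f := fun z : ℂ => (aeval z P : ℂ))
    (c := 0) (R := 1) (w := (w : ℂ)) (diff_ae P).diffContOnCl hwb
  have hcont : ContinuousOn (fun z : ℂ => (Pk w z.re : ℝ) • (aeval z P : ℂ)) (sphere (0 : ℂ) 1) :=
    (cont_pk hw).smul (cont_ae P).continuousOn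
  have h2 : Real.circleAverage (fun z : ℂ => (Pk w z.re : ℝ) • (aeval z P : ℂ)) 0 1 =
      aeval (w : ℂ) P := by
    rw [← h1]
    refine Real.circleAverage_congr_sphere ?_
    intro z hz
    have hz1 : ‖z‖ = 1 := by simpa using hz
    have h3 : ‖z - 0 - ((w : ℂ) - 0)‖ ^ 2 = 1 + w ^ 2 - 2 * w * z.re := by
      rw [sub_zero, sub_zero, ← Complex.normSq_eq_norm_sq, Complex.normSq_sub,
        Complex.normSq_eq_norm_sq, hz1, Complex.normSq_ofReal, Complex.conj_ofReal,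
        Complex.re_mul_ofReal]
      ring
    have h4 : ‖(z : ℂ) - 0‖ ^ 2 - ‖(w : ℂ) - 0‖ ^ 2 = 1 - w ^ 2 := by
      rw [sub_zero, sub_zero, hz1, Complex.norm_real, Real.norm_eq_abs, sq_abs]
      norm_num
    beta_reduce
    rw [h3, h4]
    rfl
  have h5 := Complex.reCLM.circleAverage_comp_comm (ci_ofC hcont)
  rw [h2] at h5
  have h6 : (aeval (w : ℂ) P : ℂ) = ((aeval w P : ℝ) : ℂ) := by
    have := Polynomial.aeval_algebraMap_apply ℂ w P
    simpa using this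
  have h7 : (aeval w P : ℝ) = Complex.reCLM (aeval (w : ℂ) P : ℂ) := by
    rw [h6]; simp
  rw [h7, ← h5]
  congr 1
  funext z
  simp [Function.comp]

theorem avg0 (P : ℤ[X]) :
    Real.circleAverage (fun z : ℂ => (aeval z P : ℂ).re) 0 1 = (P.coeff 0 : ℝ) := by
  have h := avg P (w := 0) (by simp)
  have h2 : (fun z : ℂ => Pk 0 z.re * (aeval z P : ℂ).re) = fun z : ℂ => (aeval z P : ℂ).re := by
    funext z
    simp [Pk]
  rw [h2] at h
  rw [h, ← coeff_zero_eq_aeval_zero']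
  simp

theorem conj_of_norm {z : ℂ} (hz : ‖z‖ = 1) : z * (starRingEnd ℂ) z = 1 := by
  rw [Complex.mul_conj, Complex.normSq_eq_norm_sq, hz]; norm_num

theorem ae_split (P : ℤ[X]) (z : ℂ) :
    (aeval z P : ℂ) = z * aeval z P.divX + (P.coeff 0 : ℂ) := by
  conv_lhs => rw [← divX_mul_X_add P]
  simp
  ring

theorem avg1 (P : ℤ[X]) :
    Real.circleAverage (fun z : ℂ => 2 * z.re * (aeval z P : ℂ).re) 0 1 = (P.coeff 1 : ℝ) := by
  have h := avg0 (X * P + C (P.coeff 0) * X + P.divX)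
  have h2 : (X * P + C (P.coeff 0) * X + P.divX).coeff 0 = P.coeff 1 := by
    simp [coeff_divX]
  rw [h2] at h
  rw [← h]
  refine Real.circleAverage_congr_sphere ?_
  intro z hz
  have hz1 : ‖z‖ = 1 := by simpa using hz
  have hc := conj_of_norm hz1
  have h3 : ((2 * z.re : ℝ) : ℂ) = z + (starRingEnd ℂ) z := by
    rw [Complex.add_conj]
  have h4 : ((2 * z.re : ℝ) : ℂ) * (aeval z P : ℂ) =
      z * aeval z P + (P.coeff 0 : ℂ) * (starRingEnd ℂ) z + aeval z P.divX := by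
    rw [h3, add_mul]
    nth_rewrite 2 [ae_split P z]
    linear_combination (aeval z P.divX : ℂ) * hc
  change 2 * z.re * (aeval z P : ℂ).re = (aeval z (X * P + C (P.coeff 0) * X + P.divX) : ℂ).re
  have h5 := congrArg Complex.re h4
  rw [Complex.re_ofReal_mul] at h5
  rw [h5]
  simp

theorem avg2 (P : ℤ[X]) :
    Real.circleAverage (fun z : ℂ => 2 * (2 * z.re ^ 2 - 1) * (aeval z P : ℂ).re) 0 1 =
      (P.coeff 2 : ℝ) := by
  have h := avg0 (X ^ 2 * P + C (P.coeff 0) * X ^ 2 + C (P.coeff 1) * X + P.divX.divX)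
  have h2 : (X ^ 2 * P + C (P.coeff 0) * X ^ 2 + C (P.coeff 1) * X + P.divX.divX).coeff 0 =
      P.coeff 2 := by
    simp [coeff_divX]
  rw [h2] at h
  rw [← h]
  refine Real.circleAverage_congr_sphere ?_
  intro z hz
  have hz1 : ‖z‖ = 1 := by simpa using hz
  have hc := conj_of_norm hz1
  have hz2 : z.re ^ 2 + z.im ^ 2 = 1 := by
    have := Complex.normSq_apply z
    rw [Complex.normSq_eq_norm_sq, hz1] at this
    nlinarith
  have h3 : ((2 * (2 * z.re ^ 2 - 1) : ℝ) : ℂ) = z ^ 2 + (starRingEnd ℂ) z ^ 2 := by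
    apply Complex.ext
    · simp [pow_two]
      nlinarith
    · simp [pow_two]
      ring
  have hd1 := ae_split P z
  have hd2 := ae_split P.divX z
  have hcd : P.divX.coeff 0 = P.coeff 1 := by simp [coeff_divX]
  rw [hcd] at hd2
  have h4 : ((2 * (2 * z.re ^ 2 - 1) : ℝ) : ℂ) * (aeval z P : ℂ) =
      z ^ 2 * aeval z P + (P.coeff 0 : ℂ) * (starRingEnd ℂ) z ^ 2 +
        (P.coeff 1 : ℂ) * (starRingEnd ℂ) z + aeval z P.divX.divX := by
    rw [h3, add_mul]
    nth_rewrite 2 [hd1]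
    rw [hd2]
    linear_combination ((aeval z P.divX.divX : ℂ) * (1 + z * (starRingEnd ℂ) z) +
      (P.coeff 1 : ℂ) * (starRingEnd ℂ) z) * hc
  change 2 * (2 * z.re ^ 2 - 1) * (aeval z P : ℂ).re = (aeval z
    (X ^ 2 * P + C (P.coeff 0) * X ^ 2 + C (P.coeff 1) * X + P.divX.divX) : ℂ).re
  have h5 := congrArg Complex.re h4
  rw [Complex.re_ofReal_mul] at h5
  rw [h5]
  simp [pow_two]

/-- POSITIVE KERNELS. -/
theorem kern {G : ℤ[X]} (hG : ∀ z : ℂ, ‖z‖ = 1 → 0 ≤ (aeval z G : ℂ).re) {x y : ℝ} (hx : |x| < 1)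
    (hy : |y| < 1) {γ δ ε al be : ℝ}
    (hK : ∀ c : ℝ, -1 ≤ c → c ≤ 1 →
      0 ≤ γ + δ * (2 * c) + ε * (2 * (2 * c ^ 2 - 1)) + al * Pk x c + be * Pk y c) :
    0 ≤ γ * (G.coeff 0 : ℝ) + δ * (G.coeff 1 : ℝ) + ε * (G.coeff 2 : ℝ) + al * aeval x G +
      be * aeval y G := by
  have hre : Continuous fun z : ℂ => (aeval z G : ℂ).re := Complex.continuous_re.comp (cont_ae G)
  have i0 : CircleIntegrable (fun z : ℂ => γ * (aeval z G : ℂ).re) 0 1 :=
    ci_of (by fun_prop)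
  have i1 : CircleIntegrable (fun z : ℂ => δ * (2 * z.re * (aeval z G : ℂ).re)) 0 1 :=
    ci_of (by fun_prop)
  have i2 : CircleIntegrable (fun z : ℂ => ε * (2 * (2 * z.re ^ 2 - 1) * (aeval z G : ℂ).re)) 0 1 :=
    ci_of (by fun_prop)
  have i3 : CircleIntegrable (fun z : ℂ => al * (Pk x z.re * (aeval z G : ℂ).re)) 0 1 :=
    ci_of (continuousOn_const.mul ((cont_pk hx).mul hre.continuousOn))
  have i4 : CircleIntegrable (fun z : ℂ => be * (Pk y z.re * (aeval z G : ℂ).re)) 0 1 :=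
    ci_of (continuousOn_const.mul ((cont_pk hy).mul hre.continuousOn))
  obtain ⟨F0, hF0⟩ : ∃ F0 : ℂ → ℝ, F0 = fun z : ℂ => γ * (aeval z G : ℂ).re := ⟨_, rfl⟩
  obtain ⟨F1, hF1⟩ : ∃ F1 : ℂ → ℝ, F1 = fun z : ℂ => δ * (2 * z.re * (aeval z G : ℂ).re) :=
    ⟨_, rfl⟩
  obtain ⟨F2, hF2⟩ : ∃ F2 : ℂ → ℝ, F2 = fun z : ℂ =>
    ε * (2 * (2 * z.re ^ 2 - 1) * (aeval z G : ℂ).re) := ⟨_, rfl⟩
  obtain ⟨F3, hF3⟩ : ∃ F3 : ℂ → ℝ, F3 = fun z : ℂ => al * (Pk x z.re * (aeval z G : ℂ).re) :=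
    ⟨_, rfl⟩
  obtain ⟨F4, hF4⟩ : ∃ F4 : ℂ → ℝ, F4 = fun z : ℂ => be * (Pk y z.re * (aeval z G : ℂ).re) :=
    ⟨_, rfl⟩
  rw [← hF0] at i0
  rw [← hF1] at i1
  rw [← hF2] at i2
  rw [← hF3] at i3
  rw [← hF4] at i4
  have h0 : 0 ≤ Real.circleAverage ((((F0 + F1) + F2) + F3) + F4) 0 1 := by
    apply Real.circleAverage_nonneg_of_nonneg
    intro z hz
    have hz1 : ‖z‖ = 1 := by simpa using hz
    have h1 := hK z.re (re_bd hz1).1 (re_bd hz1).2
    have h2 := mul_nonneg h1 (hG z hz1)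
    simp only [Pi.add_apply, hF0, hF1, hF2, hF3, hF4]
    linarith [h2]
  rw [Real.circleAverage_add (((i0.add i1).add i2).add i3) i4,
    Real.circleAverage_add ((i0.add i1).add i2) i3,
    Real.circleAverage_add (i0.add i1) i2, Real.circleAverage_add i0 i1] at h0
  have e0 : Real.circleAverage F0 0 1 = γ * (G.coeff 0 : ℝ) := by
    rw [hF0, ← avg0 G, ← smul_eq_mul γ, ← Real.circleAverage_fun_smul]
    rfl
  have e1 : Real.circleAverage F1 0 1 = δ * (G.coeff 1 : ℝ) := by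
    rw [hF1, ← avg1 G, ← smul_eq_mul δ, ← Real.circleAverage_fun_smul]
    rfl
  have e2 : Real.circleAverage F2 0 1 = ε * (G.coeff 2 : ℝ) := by
    rw [hF2, ← avg2 G, ← smul_eq_mul ε, ← Real.circleAverage_fun_smul]
    rfl
  have e3 : Real.circleAverage F3 0 1 = al * aeval x G := by
    rw [hF3, ← avg G hx, ← smul_eq_mul al, ← Real.circleAverage_fun_smul]
    rfl
  have e4 : Real.circleAverage F4 0 1 = be * aeval y G := by
    rw [hF4, ← avg G hy, ← smul_eq_mul be, ← Real.circleAverage_fun_smul]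
    rfl
  rw [e0, e1, e2, e3, e4] at h0
  exact h0

end Pool.Agent.B5.Krn
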