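import Pool.Agent.Lib.MP_b5021c_nt.KO.H52.Kfl
import Pool.Agent.Lib.MP_b5021c_nt.E.H36.Ndz

/-!
# MP_b5021c_nt, all `θ`, K ODD, leaf O4, `l = 3`, row TK_DT: the closing of a killer (helper52)

`W` = the closing of `T` (disjoint from the triple, killed by all `mu i`) at any load `u`: the free
part and the part `g0` of `W` are the closings of those of `D`;
`psi W = (1 - u/tau) * (cl de) * PROD (1 - single T_j (tau_j)⁻¹)`.
-/

set_option linter.unusedSectionVars false

namespace Pool.Agent.B5.KO52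

open scoped LaurentPolynomial
open AddMonoidAlgebra
open Pool.Agent.B5.KO.H71 (Tri Fr z3a z3b z3c z3d z3e z3f z3g z3v z3h)
open Pool.Agent.B5.KO.H40 (flt flt_in flt_out mon_mul_coeff)

section

variable {O : Type} [CommRing O] [IsDomain O] [IsPrincipalIdealRing O] [Coef O] {P : Type}
  [Fintype P] [DecidableEq P] {L : Type} [AddCommGroup L] [Module.Free ℤ L] [Module.Finite ℤ L]
  {phi : L →+ (P → ℤ)} {D : AO O L} {r : ZMod 3 → L} {e : ZMod 3 → (RO O)ˣ}
  {mu : ZMod 3 → L →+ ℤ} {p : P} {T : L} {tau u : (RO O)ˣ} {iT : P}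

theorem phO_eq (x : Ker (co phi iT)) {q : P} (hq : phi T q = 0) :
    phO phi T iT x q = phi (x : L) q := by
  change (if phi T q = 0 then phi (x : L) q else 0) = _
  rw [if_pos hq]

theorem phO_zero (x : Ker (co phi iT)) {q : P} (hq : phi T q ≠ 0) : phO phi T iT x q = 0 := by
  change (if phi T q = 0 then phi (x : L) q else 0) = _
  rw [if_neg hq]

/-- The projection of an exponent of degree zero. -/
theorem prj0 (h : co phi iT T = 1) {a : L} (ha : co phi iT a = 0) :
    ((prj (co phi iT) T h a : Ker (co phi iT)) : L) = a := by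
  rw [prj_coe, ha, zero_smul, sub_zero]

/-- The triple after the closing of a disjoint neutral exponent: the same exponents and loads. -/
theorem tri_cl (h : Tri phi D r e mu) (hT : co phi iT T = 1) (hd : ∀ i, Dj phi (r i) T)
    (hm : ∀ i, mu i T = 0) :
    Tri (phO phi T iT) (cl (co phi iT) T hT u D) (fun i => prj (co phi iT) T hT (r i)) e
      (fun i => (mu i).comp (incl (Ker (co phi iT)))) := by
  have h1 := h.close hT hm u
  have h2 : (fun i => e i * u ^ (-(co phi iT (r i)))) = e := by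
    funext i
    have h3 : co phi iT (r i) = 0 := (hd i iT).resolve_left (by
      rw [show phi T iT = 1 from hT]
      exact one_ne_zero)
    rw [h3, neg_zero, zpow_zero, mul_one]
  rw [h2] at h1
  exact h1

theorem kr (hT : co phi iT T = 1) (hd : ∀ i, Dj phi (r i) T) (i : ZMod 3) :
    co phi iT (r i) = 0 := (hd i iT).resolve_left (by
      rw [show phi T iT = 1 from hT]
      exact one_ne_zero)

/-- Free exponents of the closing. -/
theorem fr_cl (hT : co phi iT T = 1) (hd : ∀ i, Dj phi (r i) T) (hm : ∀ i, mu i T = 0)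
    (x : Ker (co phi iT)) :
    Fr (phO phi T iT) (fun i => prj (co phi iT) T hT (r i))
      (fun i => (mu i).comp (incl (Ker (co phi iT)))) x ↔ Fr phi r mu (x : L) := by
  constructor
  · intro h1
    refine ⟨fun i q => ?_, fun i => h1.2 i⟩
    by_cases hq : phi T q = 0
    · have h2 := h1.1 i q
      rw [phO_eq _ hq, phO_eq _ hq, prj0 hT (kr hT hd i)] at h2
      exact h2
    · exact Or.inr ((hd i q).resolve_left hq)
  · intro h1
    refine ⟨fun i q => ?_, fun i => h1.2 i⟩
    by_cases hq : phi T q = 0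
    · rw [phO_eq _ hq, phO_eq _ hq, prj0 hT (kr hT hd i)]
      exact h1.1 i q
    · exact Or.inl (phO_zero _ hq)

theorem fr_T (hd : ∀ i, Dj phi (r i) T) (hm : ∀ i, mu i T = 0) (x : L) :
    Fr phi r mu (x + T) ↔ Fr phi r mu x := by
  constructor
  · intro h1
    refine ⟨fun i q => ?_, fun i => ?_⟩
    · exact (Dj.add_iff (hd i)).mp (fun q => h1.1 i q) q
    · have h2 := h1.2 i
      rw [map_add, hm, add_zero] at h2
      exact h2
  · intro h1
    refine ⟨fun i q => ?_, fun i => ?_⟩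
    · exact (Dj.add_iff (hd i)).mpr (fun q => h1.1 i q) q
    · rw [map_add, hm, h1.2, add_zero]

theorem psi_deg (hT : co phi iT T = 1) (hd : ∀ i, Dj phi (r i) T)
    (hb : ∀ a ∈ supp D, Bin phi a) : ∀ a ∈ supp (psi phi D r e mu), co phi iT a = 0 ∨
      co phi iT a = 1 := by
  intro a ha
  have h1 := hb _ (psi_supp ha).2 iT
  have h2 : phi (a + r 0) iT = phi a iT := by
    rw [map_add, Pi.add_apply, show phi (r 0) iT = 0 from kr hT hd 0, add_zero]
  rw [h2] at h1
  exact h1

theorem g0_deg (hT : co phi iT T = 1) (hd : ∀ i, Dj phi (r i) T)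
    (hb : ∀ a ∈ supp D, Bin phi a) : ∀ a ∈ supp (g0 phi D r e mu p), co phi iT a = 0 ∨
      co phi iT a = 1 := by
  intro a ha
  rcases (g0_supp ha).2 with h1 | h1
  · exact hb _ h1 iT
  · exact psi_deg hT hd hb a h1

/-- The free part of the closing. -/
theorem psi_cl (hT : co phi iT T = 1) (hd : ∀ i, Dj phi (r i) T) (hm : ∀ i, mu i T = 0)
    (hb : ∀ a ∈ supp D, Bin phi a) :
    psi (phO phi T iT) (cl (co phi iT) T hT u D) (fun i => prj (co phi iT) T hT (r i)) e
      (fun i => (mu i).comp (incl (Ker (co phi iT)))) =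
      cl (co phi iT) T hT u (psi phi D r e mu) := by
  apply AddMonoidAlgebra.ext
  apply Finsupp.ext
  intro x
  rw [H36.ndz_clc (co phi iT) T hT u _ (psi_deg hT hd hb) x]
  by_cases hx : Fr phi r mu (x : L)
  · rw [psi_in ((fr_cl hT hd hm x).mpr hx), psi_in hx, psi_in ((fr_T hd hm _).mpr hx),
      H36.ndz_clc (co phi iT) T hT u _ (fun a ha => hb a ha iT)]
    have h1 : ((x + prj (co phi iT) T hT (r 0) : Ker (co phi iT)) : L) = (x : L) + r 0 := by
      rw [Submodule.coe_add, prj0 hT (kr hT hd 0)]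
    rw [h1, show (x : L) + r 0 + T = (x : L) + T + r 0 by abel]
    ring
  · rw [psi_out (fun h1 => hx ((fr_cl hT hd hm x).mp h1)), psi_out hx,
      psi_out (fun h1 => hx ((fr_T hd hm _).mp h1)), mul_zero, add_zero]

/-- The part `g0` of the closing. -/
theorem g0_cl (hT : co phi iT T = 1) (hd : ∀ i, Dj phi (r i) T) (hm : ∀ i, mu i T = 0)
    (hb : ∀ a ∈ supp D, Bin phi a) (hp : phi (r 0) p = 1) :
    g0 (phO phi T iT) (cl (co phi iT) T hT u D) (fun i => prj (co phi iT) T hT (r i)) e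
      (fun i => (mu i).comp (incl (Ker (co phi iT)))) p =
      cl (co phi iT) T hT u (g0 phi D r e mu p) := by
  have hTp : phi T p = 0 := (hd 0 p).resolve_right (by rw [hp]; exact one_ne_zero)
  have him : ∀ x : Ker (co phi iT), Im0 (phO phi T iT) p
      (fun i => (mu i).comp (incl (Ker (co phi iT)))) x ↔ Im0 phi p mu (x : L) := by
    intro x
    unfold Im0
    rw [phO_eq x hTp]
    rfl
  have himT : ∀ x : L, Im0 phi p mu (x + T) ↔ Im0 phi p mu x := by
    intro x
    unfold Im0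
    rw [map_add, Pi.add_apply, hTp, add_zero]
    simp only [map_add, hm, add_zero]
  apply AddMonoidAlgebra.ext
  apply Finsupp.ext
  intro x
  rw [H36.ndz_clc (co phi iT) T hT u _ (g0_deg hT hd hb) x]
  by_cases hx : Im0 phi p mu (x : L)
  · rw [g0_in ((him x).mpr hx), g0_in hx, g0_in ((himT _).mpr hx), psi_cl hT hd hm hb,
      H36.ndz_clc (co phi iT) T hT u _ (fun a ha => hb a ha iT),
      H36.ndz_clc (co phi iT) T hT u _ (psi_deg hT hd hb) x]
    ring
  · rw [g0_out (fun h1 => hx ((him x).mp h1)), g0_out hx,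
      g0_out (fun h1 => hx ((himT _).mp h1)), mul_zero, add_zero]

/-- The closing of `1 - single T tau⁻¹`. -/
theorem cl_fac (hT : co phi iT T = 1) :
    cl (co phi iT) T hT u (1 - single T ((tau⁻¹ : (RO O)ˣ) : RO O)) =
      cst (1 - (u : RO O) * ((tau⁻¹ : (RO O)ˣ) : RO O)) := by
  have h1 : prj (co phi iT) T hT T = 0 := by
    apply Subtype.ext
    rw [prj_coe, hT, one_smul, sub_self]
    rfl
  rw [map_sub, map_one, cl_single, h1, hT, zpow_one, mul_comm]
  unfold cst
  rw [single_sub]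
  rfl

/-- The closing of `1 - single R t⁻¹`, `R` of degree zero. -/
theorem cl_fac' (hT : co phi iT T = 1) {R : L} (hR : co phi iT R = 0) (t : (RO O)ˣ) :
    cl (co phi iT) T hT u (1 - single R ((t⁻¹ : (RO O)ˣ) : RO O)) =
      1 - single (prj (co phi iT) T hT R) ((t⁻¹ : (RO O)ˣ) : RO O) := by
  rw [map_sub, map_one, cl_single, hR, zpow_zero, Units.val_one, mul_one]

/-- (K) THE FREE PART OF THE CLOSING OF A KILLER. -/
theorem psi_fac {J : Type} [DecidableEq J] (hT : co phi iT T = 1) (hd : ∀ i, Dj phi (r i) T)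
    (hm : ∀ i, mu i T = 0) (hb : ∀ a ∈ supp D, Bin phi a) (R : J → L) (ta : J → (RO O)ˣ)
    (K : Finset J) (hkT : Kfl phi (psi phi D r e mu) T tau)
    (hk : ∀ j ∈ K, Kfl phi (psi phi D r e mu) (R j) (ta j))
    (hdT : ∀ j ∈ K, Dj phi T (R j))
    (hdd : ∀ j ∈ K, ∀ j' ∈ K, j ≠ j' → Dj phi (R j) (R j')) :
    psi (phO phi T iT) (cl (co phi iT) T hT u D) (fun i => prj (co phi iT) T hT (r i)) e
      (fun i => (mu i).comp (incl (Ker (co phi iT)))) =
      cst (1 - (u : RO O) * ((tau⁻¹ : (RO O)ˣ) : RO O)) *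
        (cl (co phi iT) T hT u
          (flt {v | (∀ j ∈ K, Dj phi (R j) v) ∧ Dj phi T v} (psi phi D r e mu)) *
        ∏ j ∈ K, (1 - single (prj (co phi iT) T hT (R j)) (((ta j)⁻¹ : (RO O)ˣ) : RO O))) := by
  rw [psi_cl hT hd hm hb]
  have h1 := hkT.eq
  have h2 := kfl_prod R ta K (flt {v | Dj phi T v} (psi phi D r e mu))
    (fun j hj => (hk j hj).flt (hdT j hj)) hdd
  rw [flt_flt] at h2
  rw [h2] at h1
  conv_lhs => rw [h1]
  rw [map_mul, map_mul, map_prod, cl_fac]
  have h3 : ∏ j ∈ K, cl (co phi iT) T hT u (1 - single (R j) (((ta j)⁻¹ : (RO O)ˣ) : RO O)) =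
      ∏ j ∈ K, (1 - single (prj (co phi iT) T hT (R j)) (((ta j)⁻¹ : (RO O)ˣ) : RO O)) := by
    refine Finset.prod_congr rfl fun j hj => ?_
    exact cl_fac' hT ((hdT j hj iT).resolve_right (by
      rw [show phi T iT = 1 from hT]
      exact one_ne_zero)) _
  rw [h3]
  have h4 : {v : L | v ∈ {u : L | ∀ j ∈ K, Dj phi (R j) u} ∧ v ∈ {v : L | Dj phi T v}} =
      {v | (∀ j ∈ K, Dj phi (R j) v) ∧ Dj phi T v} := rfl
  rw [h4]
  ring

end

end Pool.Agent.B5.KO52
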