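import Pool.Agent.Lib.MP_b5021c_nt.KO.H52.Rk2
import Pool.Agent.Lib.MP_b5021c_nt.KO.H52.Kcl
import Pool.Agent.Lib.MP_b5021c_nt.KO.H96.Min
import Pool.Agent.Lib.MP_b5021c_nt.KO.H71.Ncl

/-!
# MP_b5021c_nt, all `θ`, K ODD, leaf O4, `l = 3`, row TK_DT, (R): the rank of the part `g0` of
`W = D(T = load B)` and of the part of `psi D` without the killers (helper52)
-/

set_option linter.unusedSectionVars false

namespace Pool.Agent.B5.KO52

open scoped LaurentPolynomial
open AddMonoidAlgebra
open Pool.Agent.B5 Pool.Agent.B5.KE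
open Pool.Agent.B5.H07 Pool.Agent.B5.H63
open Pool.Agent.B5.Nr.Sch
open Pool.Agent.B5.O4X
open Pool.Agent.B5.KO.H96 (WKil wkil_of MinK Mvo tk3_sup kil_dis)
open Pool.Agent.B5.KO.H71 (Tri Fr z3a z3b z3c z3d z3e z3f z3g z3v z3h)
open Pool.Agent.B5.KO.H40 (flt flt_in flt_out mon_mul_coeff)

section

variable {O : Type} [CommRing O] [IsDomain O] [IsPrincipalIdealRing O] [Coef O] {P : Type}
  [Fintype P] [DecidableEq P] {L : Type} [AddCommGroup L] [Module.Free ℤ L] [Module.Finite ℤ L]
  {phi : L →+ (P → ℤ)} {F : AO O L} {T R : L} {ta u : (RO O)ˣ} {iT : P}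

/-- Disjointness after the closing of a disjoint exponent. -/
theorem dj_phO (hd : Dj phi T R) {RK : Ker (co phi iT)} (hR : (RK : L) = R)
    (x : Ker (co phi iT)) : Dj (phO phi T iT) RK x ↔ Dj phi R (x : L) := by
  constructor
  · intro h1 q
    by_cases hq : phi R q = 0
    · exact Or.inr hq
    · have hT : phi T q = 0 := (hd q).resolve_left hq
      have h2 := h1 q
      rw [phO_eq _ hT, phO_eq _ hT, hR] at h2
      exact h2
  · intro h1 q
    by_cases hT : phi T q = 0
    · rw [phO_eq _ hT, phO_eq _ hT, hR]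
      exact h1 q
    · exact Or.inl (phO_zero _ hT)

/-- The flip at a killer after the closing of `T`. -/
theorem kfl_cl (hT : co phi iT T = 1) (hdeg : ∀ a ∈ supp F, co phi iT a = 0 ∨ co phi iT a = 1)
    (h : Kfl phi F R ta) (hd : Dj phi T R) {RK : Ker (co phi iT)} (hR : (RK : L) = R) :
    Kfl (phO phi T iT) (cl (co phi iT) T hT u F) RK ta := by
  have pT : ∀ q, phi R q = 1 → phi T q = 0 := fun q hq =>
    (hd q).resolve_left (by rw [hq]; exact one_ne_zero)
  have c := H36.ndz_clc (co phi iT) T hT u F hdeg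
  have e1 : ∀ x : Ker (co phi iT), ((x + RK : Ker (co phi iT)) : L) = (x : L) + R := by
    intro x
    rw [Submodule.coe_add, hR]
  refine ⟨?_, ?_, ?_, ?_⟩
  · intro q
    by_cases hq : phi T q = 0
    · rw [phO_eq _ hq, hR]
      exact h.bin q
    · exact Or.inl (phO_zero _ hq)
  · obtain ⟨q, hq⟩ := h.prt
    exact ⟨q, by rw [phO_eq _ (pT q hq), hR, hq]⟩
  · intro x hx
    have h1 := (dj_phO hd hR x).mp hx
    have h2 : Dj phi R ((x : L) + T) := (Dj.add_iff (fun q => (hd q).symm)).mpr h1
    have h3 := h.dj _ h1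
    have h4 := h.dj _ h2
    rw [c, c, e1, show (x : L) + R + T = (x : L) + T + R by abel]
    linear_combination h3 + (u : RO O) * h4
  · intro x hx
    have hx' : F.coeff (x : L) ≠ 0 ∨ F.coeff ((x : L) + T) ≠ 0 := by
      by_contra hcon
      push Not at hcon
      apply hx
      rw [c, hcon.1, hcon.2, mul_zero, add_zero]
    rcases hx' with h1 | h1
    · rcases h.no _ h1 with h2 | h2
      · exact Or.inl ((dj_phO hd hR x).mpr h2)
      · right
        intro q hq
        by_cases hT : phi T q = 0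
        · rw [phO_eq _ hT, hR] at hq
          rw [phO_eq _ hT]
          exact h2 q hq
        · rw [phO_zero _ hT] at hq
          exact absurd hq zero_ne_one
    · rcases h.no _ h1 with h2 | h2
      · left
        apply (dj_phO hd hR x).mpr
        exact (Dj.add_iff (fun q => (hd q).symm)).mp h2
      · right
        intro q hq
        by_cases hT : phi T q = 0
        · rw [phO_eq _ hT, hR] at hq
          rw [phO_eq _ hT]
          have h3 := h2 q hq
          rw [map_add, Pi.add_apply, hT, add_zero] at h3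
          exact h3
        · rw [phO_zero _ hT] at hq
          exact absurd hq zero_ne_one

end

section

variable {P L : Type} [Fintype P] [DecidableEq P] [AddCommGroup L] [Module.Free ℤ L]
  [Module.Finite ℤ L] {phi : L →+ (P → ℤ)} {D : AO ℤ L} {eta : L → (RO ℤ)ˣ}
  {q f f' : Polynomial ℤ} {a : ℝ} {j k' : ℕ} {Z : ZMod 3 → L} {mu : ZMod 3 → L →+ ℤ}
  {Z' : ZMod (k' + 3) → L} {mu' : ZMod (k' + 3) → L →+ ℤ} {T : L} {e : (RO ℤ)ˣ} {nuC : L →+ ℤ}
  {J : Type} [Fintype J] {R : J → L} {nu : L →+ ℤ} {iT p : P}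

/-- (R) THE RANK. -/
theorem rk_dt (hTop : TopS) (hRk : RkS) (hV : VcoS) (hF1 : F1S) (hF2 : F2S) (hF3 : F3S)
    (hI : Inj1S) (hE2 : E2S) (hRkU : RkUSS) (hL : LMNS) (hMco : McoS) (hOfb : OfbS) (hO4 : Oo4S)
    (hB2 : Ob2S) (h : Tk3 phi D q f f' a j eta k' Z mu Z' mu' T e nuC)
    (M : MinK phi D eta Z mu T e 0 R nu) (j0 : J) (hT : co phi iT T = 1)
    {z : ZMod 3 → Ker (co phi iT)} (hz : ∀ i, (z i : L) = Z i) (hp : phi (Z 0) p = 1)
    (hW : DD (phO phi T iT) (cl (co phi iT) T hT (ld e 1) D))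
    (h2W : 2 ≤ Module.finrank ℤ (Ker (co phi iT)))
    (htri : Tri (phO phi T iT) (cl (co phi iT) T hT (ld e 1) D) z (fun i => eta (Z i))
      (fun i => (mu i).comp (incl (Ker (co phi iT)))))
    (hz0 : (cl (co phi iT) T hT (ld e 1) D).coeff (z 0) ≠ 0)
    (hn1 : ∀ x ∈ supp (g0 (phO phi T iT) (cl (co phi iT) T hT (ld e 1) D) z
      (fun i => eta (Z i)) (fun i => (mu i).comp (incl (Ker (co phi iT)))) p), nu (x : L) = 0)
    (hn2 : ∀ x ∈ supp (cl (co phi iT) T hT (ld e 1)
      (flt {v | (∀ i ∈ Finset.univ, Dj phi (R i) v) ∧ Dj phi T v}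
        (psi phi D Z (fun i => eta (Z i)) mu))), nu (x : L) = 0) :
    rk (supp (g0 (phO phi T iT) (cl (co phi iT) T hT (ld e 1) D) z (fun i => eta (Z i))
        (fun i => (mu i).comp (incl (Ker (co phi iT)))) p) ∪
      supp (cl (co phi iT) T hT (ld e 1)
        (flt {v | (∀ i ∈ Finset.univ, Dj phi (R i) v) ∧ Dj phi T v}
          (psi phi D Z (fun i => eta (Z i)) mu)))) + 4 =
      Module.finrank ℤ (Ker (co phi iT)) := by
  classical
  have fp := h.alp.w.ko.min.fp
  have hD := fp.dd
  have h2 : 2 ≤ Module.finrank ℤ L := by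
    have h3 := h.alp.w.ko.rk
    have h4 := h.alp.w.ko.j2
    omega
  have hc := h.alp.c
  obtain ⟨-, -, -, -, hrk, -⟩ := hE2 ℤ P L phi D hD h2
  have hDt : Tri phi D Z (fun i => eta (Z i)) mu := KO.H71.Cyc.tri hD hrk hc
  have rZ : ∀ m, Ray D (Z m) := fun m => (hc.mtl m).r0
  have hiT : phi T iT = 1 := hT
  -- `T`
  have muT : ∀ i, mu i T = 0 := fun i => hc.oth i T h.rT (h.TZ _) (h.TZ _)
  have dTZ : ∀ i, Dj phi (Z i) T := fun i p' =>
    (hF2 ℤ P L phi D (Z i) T (eta T) hD.inj hD.bin (rZ i) h.rT (h.kil i) p').symm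
  have port : ∀ {S : L}, Ray D S → ∃ p', phi S p' = 1 := by
    intro S rS
    by_contra hcon
    push Not at hcon
    apply rS.2.1
    apply hD.inj
    rw [map_zero]
    funext p'
    exact (hD.bin _ rS.1 p').resolve_right (hcon p')
  have kT : Kfl phi (psi phi D Z (fun i => eta (Z i)) mu) T (eta T) :=
    psi_kfl hDt hF1 hD.inj hD.bin (hD.bin _ h.rT.1) (port h.rT) dTZ (fun b hb i =>
      (KO.H40.cyc_killer hF3 hD hc h.rT h.TZ (h.kil i) b hb).1)
  -- the killers
  have muR : ∀ (n : J) (i : ZMod 3), mu i (R n) = 0 := fun n i =>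
    hc.oth i (R n) (M.ray n) (M.RZ n _) (M.RZ n _)
  have kR : ∀ n, Kfl phi (psi phi D Z (fun i => eta (Z i)) mu) (R n) (eta (R n)) := fun n =>
    psi_kfl hDt hF1 hD.inj hD.bin (hD.bin _ (M.ray n).1) (port (M.ray n)) (fun i => M.disZ n i)
      (fun b hb i => (KO.H40.cyc_killer hF3 hD hc (M.ray n) (M.RZ n) (M.kil n i) b hb).1)
  have dTR : ∀ n, Dj phi T (R n) := fun n => M.disT n
  have cR : ∀ n, co phi iT (R n) = 0 := fun n => (M.disT n iT).resolve_right (by
    rw [hiT]
    exact one_ne_zero)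
  -- degrees
  have hdeg : ∀ b ∈ supp (psi phi D Z (fun i => eta (Z i)) mu), co phi iT b = 0 ∨
      co phi iT b = 1 := psi_deg hT dTZ hD.bin
  set S0 : Set L := {v | (∀ i ∈ Finset.univ, Dj phi (R i) v) ∧ Dj phi T v} with hS0
  have hdegF : ∀ b ∈ supp (flt S0 (psi phi D Z (fun i => eta (Z i)) mu)), co phi iT b = 0 ∨
      co phi iT b = 1 := by
    intro b hb
    apply hdeg
    by_cases hbS : b ∈ S0
    · have h3 : (flt S0 (psi phi D Z (fun i => eta (Z i)) mu)).coeff b ≠ 0 := hb
      rw [flt_in _ hbS] at h3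
      exact h3
    · exact absurd (flt_out _ hbS) hb
  -- the triple
  have ez : z = fun i => prj (co phi iT) T hT (Z i) := by
    funext i
    apply Subtype.ext
    rw [hz, prj0 hT (kr hT dTZ i)]
  have epsi : psi (phO phi T iT) (cl (co phi iT) T hT (ld e 1) D) z (fun i => eta (Z i))
      (fun i => (mu i).comp (incl (Ker (co phi iT)))) =
      cl (co phi iT) T hT (ld e 1) (psi phi D Z (fun i => eta (Z i)) mu) := by
    rw [ez]
    exact psi_cl hT dTZ muT hD.bin
  have hfr : ∀ x : Ker (co phi iT), Fr (phO phi T iT) z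
      (fun i => (mu i).comp (incl (Ker (co phi iT)))) x ↔ Fr phi Z mu (x : L) := by
    intro x
    rw [ez]
    exact fr_cl hT dTZ muT x
  set E : AO ℤ (Ker (co phi iT)) := cl (co phi iT) T hT (ld e 1)
    (flt S0 (psi phi D Z (fun i => eta (Z i)) mu)) with hE
  have cE : ∀ x : Ker (co phi iT), (x : L) ∈ S0 →
      E.coeff x = (psi phi D Z (fun i => eta (Z i)) mu).coeff (x : L) := by
    intro x hx
    rw [hE, H36.ndz_clc (co phi iT) T hT _ _ hdegF x, flt_in _ hx, flt_out, mul_zero, add_zero]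
    intro hc'
    have h3 := hc'.2 iT
    rw [map_add, Pi.add_apply, hiT, show phi (x : L) iT = 0 from x.2] at h3
    norm_num at h3
  have cE' : ∀ x : Ker (co phi iT), x ∈ supp E → (x : L) ∈ S0 ∧
      (psi phi D Z (fun i => eta (Z i)) mu).coeff (x : L) ≠ 0 := by
    intro x hx
    by_cases hxS : (x : L) ∈ S0
    · refine ⟨hxS, ?_⟩
      rw [← cE x hxS]
      exact hx
    · exfalso
      apply hx
      rw [hE, H36.ndz_clc (co phi iT) T hT _ _ hdegF x, flt_out _ hxS, flt_out, mul_zero,
        add_zero]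
      intro hc'
      have h3 := hc'.2 iT
      rw [map_add, Pi.add_apply, hiT, show phi (x : L) iT = 0 from x.2] at h3
      norm_num at h3
  -- unitarity
  obtain ⟨t, ep, hrev, htop, -⟩ := hTop ℤ P _ _ _ hW h2W
  have htop' : ∀ (x : Ker (co phi iT)) (p' : P), phO phi T iT x p' = 1 →
      phO phi T iT t p' = 1 := by
    intro x p' hx
    apply htop
    intro h3
    have h4 := congrArg (fun g : Ker (co phi iT) →+ ℤ => g x) h3
    have h5 : phO phi T iT x p' = 0 := h4
    rw [hx] at h5
    exact one_ne_zero h5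
  have hpT : phi T p = 0 := (dTZ 0 p).resolve_right (by
    rw [hp]
    exact one_ne_zero)
  have H : Rkd (phO phi T iT) (cl (co phi iT) T hT (ld e 1) D) z (fun i => eta (Z i))
      (fun i => (mu i).comp (incl (Ker (co phi iT)))) p t ep
      (fun n => prj (co phi iT) T hT (R n)) (fun n => eta (R n)) :=
    { tri := htri
      inj := hW.inj
      bin := hW.bin
      prt := by rw [phO_eq _ hpT, hz, hp]
      rev := hrev
      top := fun i p' h3 => htop' _ _ h3
      topR := fun n p' h3 => htop' _ _ h3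
      d0 := hW.st.1
      dr := hz0
      kfl := fun n => by
        rw [epsi]
        exact kfl_cl hT hdeg (kR n) (dTR n) (prj0 hT (cR n))
      dis := fun n n' hnn => by
        rw [dj_phO (dTR n) (prj0 hT (cR n)), prj0 hT (cR n')]
        exact fun p' => (M.dis n n' hnn p').symm
      fr := fun n => by
        rw [hfr, prj0 hT (cR n)]
        exact ⟨fun i p' => M.disZ n i p', muR n⟩ }
  refine H.rank hRk hV hF1 ?_ ?_ j0 ?_ (nu := nu.comp (incl (Ker (co phi iT)))) hn1 hn2 ?_
  · -- the part of `psi` without killers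
    intro x hx hxR
    have h3 : (cl (co phi iT) T hT (ld e 1) (psi phi D Z (fun i => eta (Z i)) mu)).coeff x ≠ 0 := by
      rw [← epsi]
      exact hx
    rw [H36.ndz_clc (co phi iT) T hT _ _ hdeg x] at h3
    have h4 : Dj phi T (x : L) ∧ (psi phi D Z (fun i => eta (Z i)) mu).coeff (x : L) ≠ 0 := by
      by_cases hx0 : (psi phi D Z (fun i => eta (Z i)) mu).coeff (x : L) = 0
      · have hx1 : (psi phi D Z (fun i => eta (Z i)) mu).coeff ((x : L) + T) ≠ 0 := by
          intro h5
          apply h3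
          rw [hx0, h5, mul_zero, add_zero]
        have hdj : Dj phi T (x : L) := by
          rcases kT.no _ hx1 with h5 | h5
          · exfalso
            have h6 := h5 iT
            rw [map_add, Pi.add_apply, hiT, show phi (x : L) iT = 0 from x.2] at h6
            norm_num at h6
          · intro p'
            rcases kT.bin p' with h6 | h6
            · exact Or.inr h6
            · left
              have h7 := h5 p' h6
              rw [map_add, Pi.add_apply, h6] at h7
              omega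
        have h6 := kT.dj _ hdj
        rw [hx0, zero_add] at h6
        exact absurd ((mul_eq_zero.mp h6).resolve_left (eta T).ne_zero) hx1
      · refine ⟨?_, hx0⟩
        rcases kT.no _ hx0 with h5 | h5
        · exact h5
        · exfalso
          have h6 := h5 iT hiT
          rw [show phi (x : L) iT = 0 from x.2] at h6
          exact zero_ne_one h6
    have h5 : (x : L) ∈ S0 := ⟨fun n _ => (dj_phO (dTR n) (prj0 hT (cR n)) x).mp (hxR n), h4.1⟩
    change E.coeff x ≠ 0
    rw [cE x h5]
    exact h4.2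
  · intro x hx
    rw [hfr]
    exact (psi_supp (cE' x hx).2).1
  · -- minimality
    intro rho hr1 hr2 hr3 hr4
    have hprj : ∀ x : Ker (co phi iT), prj (co phi iT) T hT (x : L) = x := fun x =>
      Subtype.ext (prj0 hT x.2)
    set nu' : L →+ ℤ := rho.comp (prj (co phi iT) T hT) with hnu'
    have vK : ∀ x : Ker (co phi iT), nu' (x : L) = rho x := by
      intro x
      change rho (prj (co phi iT) T hT (x : L)) = rho x
      rw [hprj]
    have vT : nu' T = 0 := by
      have h3 : prj (co phi iT) T hT T = 0 := by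
        apply Subtype.ext
        rw [prj_coe, hT, one_smul, sub_self]
        rfl
      change rho (prj (co phi iT) T hT T) = 0
      rw [h3, map_zero]
    have hw : WKil phi D (Z 0) T (eta (Z 0)) (ld e 1) nu' :=
      wkil_of hF1 hD hT hW.inj hW.bin (rZ 0) h.rT (fun p' => dTZ 0 p') (h.kil 0) (hz 0) vT
        (fun b hb => by
          rw [vK]
          exact hr1 b hb)
    have v1 : nu' (Z (0 + 1)) = 0 := by
      have e1 : (0 + 1 : ZMod 3) = 1 := by decide
      rw [e1, ← hz 1, vK]
      exact hr2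
    have hmo : Mvo D Z R nu' := by
      intro S rS hSZ hSR
      by_contra hne
      have hkS := fun m => tk3_sup hF1 hF2 hF3 hI hE2 hRkU hL hMco hOfb hO4 hB2 h hw rS hSZ hne m
      have hST : S ≠ T := by
        rintro rfl
        exact hne vT
      have dS : Dj phi T S := kil_dis hF1 hF2 hF3 hI fp hc rS hSZ hkS h.rT h.TZ h.kil hST
      have dR : ∀ n, Dj phi (R n) S := fun n =>
        kil_dis hF1 hF2 hF3 hI fp hc rS hSZ hkS (M.ray n) (M.RZ n) (M.kil n) (hSR n)
      have dZ : ∀ m, Dj phi (Z m) S := fun m p' =>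
        (hF2 ℤ P L phi D (Z m) S (eta S) hD.inj hD.bin (rZ m) rS (hkS m) p').symm
      have cS : co phi iT S = 0 := (dS iT).resolve_right (by
        rw [hiT]
        exact one_ne_zero)
      have frS : Fr phi Z mu S := ⟨fun m => dZ m, fun m => hc.oth m S rS (hSZ _) (hSZ _)⟩
      let SK : Ker (co phi iT) := ⟨S, cS⟩
      have hES : SK ∈ supp E := by
        change E.coeff SK ≠ 0
        rw [cE SK ⟨fun n _ => dR n, dS⟩, psi_in frS]
        refine mul_ne_zero (Units.ne_zero _) fun h0 => ?_
        have h3 := KO.f1d hF1 hD rS (hkS 0) (fun p' => (dZ 0 p').symm)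
        rw [add_comm (Z 0) S, h0, mul_zero, add_zero] at h3
        exact (rZ 0).1 h3
      apply hne
      have h3 := vK SK
      rw [hr3 SK hES] at h3
      exact h3
    obtain ⟨m, c, hm, hmc⟩ := M.min nu' hw v1 hmo
    have vR : nu' (R j0) = 0 := by
      change rho (prj (co phi iT) T hT (R j0)) = 0
      exact hr4
    have hc0 : c = 0 := by
      have h3 := congrArg (fun g : L →+ ℤ => g (R j0)) hmc
      simp only [AddMonoidHom.smul_apply, smul_eq_mul, vR, mul_zero] at h3
      exact (mul_eq_zero.mp h3.symm).resolve_right (M.mv j0)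
    ext x
    have h3 := congrArg (fun g : L →+ ℤ => g (x : L)) hmc
    simp only [AddMonoidHom.smul_apply, smul_eq_mul, hc0, zero_mul, vK] at h3
    exact (mul_eq_zero.mp h3).resolve_left hm
  · change nu (prj (co phi iT) T hT (R j0) : L) ≠ 0
    rw [prj0 hT (cR j0)]
    exact M.mv j0

end

end Pool.Agent.B5.KO52
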