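import Pool.Agent.Lib.MP_b5021c_nt.KO.H96.TkWs

/-!
# MP_b5021c_nt, all `θ`, K ODD, leaf O4, `l = 3`, row TK_DT: the minimal moved set (helper52)
-/

set_option linter.unusedSectionVars false

namespace Pool.Agent.B5.KO52

open scoped LaurentPolynomial
open Pool.Agent.B5 Pool.Agent.B5.KE Pool.Agent.B5.KO.H96
open Pool.Agent.B5.Nr.Sch Pool.Agent.B5.O4X

section

variable {P L : Type} [Fintype P] [DecidableEq P] [AddCommGroup L] [Module.Free ℤ L]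
  [Module.Finite ℤ L]

/-- A functional `nu` which kills the closing `Z 0 = 1` of `W`, moves exactly the rays `R j` outside
the triple, and has minimal moved set: another one which moves only rays `R j` is a rational
multiple of `nu`, modulo `mu 0`. -/
structure Mins (phi : L →+ (P → ℤ)) (D : AO ℤ L) (eta : L → (RO ℤ)ˣ) (Z : ZMod 3 → L)
    (mu : ZMod 3 → L →+ ℤ) (T : L) (e : (RO ℤ)ˣ) {J : Type} (R : J → L) (nu : L →+ ℤ) :
    Prop where
  inj : Function.Injective R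
  ray : ∀ j, Ray D (R j)
  out : ∀ j m, R j ≠ Z m
  nT : ∀ j, R j ≠ T
  kil : ∀ j m, Z m ∉ US (eta (R j)) (R j) D
  dT : ∀ j q, phi (R j) q = 0 ∨ phi T q = 0
  dis : ∀ j j', j ≠ j' → ∀ q, phi (R j) q = 0 ∨ phi (R j') q = 0
  dZ : ∀ j m q, phi (R j) q = 0 ∨ phi (Z m) q = 0
  wk : WKil phi D (Z 0) T (eta (Z 0)) (ld e 1) nu
  n1 : nu (Z 1) = 0
  mv : ∀ j, nu (R j) ≠ 0
  fix : ∀ S, Ray D S → (∀ m, S ≠ Z m) → nu S ≠ 0 → ∃ j, S = R j
  min : ∀ nu' : L →+ ℤ, WKil phi D (Z 0) T (eta (Z 0)) (ld e 1) nu' →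
    (∀ S, Ray D S → (∀ m, S ≠ Z m) → nu' S ≠ 0 → ∃ j, S = R j) →
      ∃ m c c' : ℤ, m ≠ 0 ∧ m • nu' = c • nu + c' • mu 0

end

end Pool.Agent.B5.KO52
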