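import Mathlib

/-!
# Board b5, K odd, l = 3, row UFO_1 (helper52)

`UF` with slack two: `(1 + z) f = 1 + F`, all truncations `F_m` satisfy
`F_m(±1/N) ≤ 1/(N - 1)`: then `|F_k| ≤ 1` and `q(1/(N+1)) ≤ 0` for `q = (1 - z - z^2) f - N z`.
-/

namespace Pool.Agent.B5.Ufo

open Polynomial

theorem tail_bd {G : ℤ[X]} {c : ℕ} {y : ℝ} (hy : 0 < y) (hy1 : y < 1)
    (hG : ∀ k, c ≤ k → |G.coeff k| ≤ 1) (h0 : ∀ k, k < c → G.coeff k = 0) (s : ℝ)
    (hs : |s| = y) : |(aeval s G : ℝ)| < y ^ c / (1 - y) := by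
  have h1 : (aeval s G : ℝ) = ∑ k ∈ Finset.range (G.natDegree + 1), (G.coeff k : ℝ) * s ^ k := by
    rw [aeval_eq_sum_range]
    refine Finset.sum_congr rfl fun k _ => ?_
    simp
  have h2 : |(aeval s G : ℝ)| ≤ ∑ k ∈ Finset.range (G.natDegree + 1 + c),
      (if c ≤ k then y ^ k else 0) := by
    rw [h1]
    refine (Finset.abs_sum_le_sum_abs _ _).trans ?_
    refine (Finset.sum_le_sum (g := fun k => if c ≤ k then y ^ k else (0 : ℝ)) ?_).trans ?_
    · intro k _
      by_cases hk : c ≤ k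
      · rw [if_pos hk, abs_mul, abs_pow, hs]
        have h3 : |(G.coeff k : ℝ)| ≤ 1 := by exact_mod_cast hG k hk
        have h4 : 0 ≤ y ^ k := by positivity
        nlinarith
      · rw [if_neg hk, h0 k (not_le.mp hk)]
        simp
    · apply Finset.sum_le_sum_of_subset_of_nonneg
      · exact Finset.range_mono (by omega)
      · intro k _ _
        split_ifs
        · positivity
        · exact le_rfl
  have h3 : ∑ k ∈ Finset.range (G.natDegree + 1 + c), (if c ≤ k then y ^ k else (0 : ℝ)) =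
      y ^ c * ∑ k ∈ Finset.range (G.natDegree + 1), y ^ k := by
    rw [add_comm (G.natDegree + 1) c, Finset.sum_range_add]
    have h4 : ∑ k ∈ Finset.range c, (if c ≤ k then y ^ k else (0 : ℝ)) = 0 := by
      apply Finset.sum_eq_zero
      intro k hk
      rw [if_neg (by have := Finset.mem_range.mp hk; omega)]
    rw [h4, zero_add, Finset.mul_sum]
    refine Finset.sum_congr rfl fun k _ => ?_
    rw [if_pos (by omega), pow_add]
  have h4 : (∑ k ∈ Finset.range (G.natDegree + 1), y ^ k) < 1 / (1 - y) := by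
    rw [geom_sum_eq hy1.ne]
    have h5 : (y ^ (G.natDegree + 1) - 1) / (y - 1) = (1 - y ^ (G.natDegree + 1)) / (1 - y) := by
      rw [← neg_div_neg_eq]
      ring
    rw [h5]
    apply div_lt_div_of_pos_right _ (by linarith)
    have : 0 < y ^ (G.natDegree + 1) := by positivity
    linarith
  rw [h3] at h2
  refine h2.trans_lt ?_
  rw [div_eq_mul_one_div]
  exact mul_lt_mul_of_pos_left h4 (by positivity)

/-- All coefficients have absolute value at most one. -/
theorem coef_le {N : ℕ} (hN : 3 ≤ N) {F : ℤ[X]}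
    (hF : ∀ (m : ℕ) (G : ℤ[X]), 1 ≤ m → (∀ j, G.coeff j = F.coeff (m * j)) →
      (aeval (1 / (N : ℝ)) G : ℝ) ≤ 1 / ((N : ℝ) - 1) ∧
      (aeval (-(1 / (N : ℝ))) G : ℝ) ≤ 1 / ((N : ℝ) - 1)) (h0 : F.coeff 0 = 0) :
    ∀ k, |F.coeff k| ≤ 1 := by
  have hN3 : (3 : ℝ) ≤ N := by exact_mod_cast hN
  obtain ⟨y, hy⟩ : ∃ y : ℝ, y = 1 / (N : ℝ) := ⟨_, rfl⟩
  have hy0 : 0 < y := by rw [hy]; positivity
  have hy3 : y ≤ 1 / 3 := by
    rw [hy]
    exact one_div_le_one_div_of_le (by norm_num) hN3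
  have hyN : 1 / ((N : ℝ) - 1) = y / (1 - y) := by
    rw [hy]
    have h1 : (N : ℝ) ≠ 0 := by linarith
    have h2 : (N : ℝ) - 1 ≠ 0 := by linarith
    field_simp
  -- downward induction
  have key : ∀ d k, F.natDegree < k + d → |F.coeff k| ≤ 1 := by
    intro d
    induction d with
    | zero =>
      intro k hk
      rw [coeff_eq_zero_of_natDegree_lt (by omega)]
      simp
    | succ d ih =>
      intro k hk
      rcases Nat.eq_zero_or_pos k with rfl | hk0
      · rw [h0]; simp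
      -- the truncation
      obtain ⟨G, hG⟩ : ∃ G : ℤ[X], ∀ j, G.coeff j = F.coeff (k * j) := by
        refine ⟨∑ j ∈ Finset.range (F.natDegree + 1), C (F.coeff (k * j)) * X ^ j, ?_⟩
        intro j
        rw [finsetSum_coeff]
        simp only [coeff_C_mul, coeff_X_pow, mul_ite, mul_one, mul_zero]
        rw [Finset.sum_ite_eq (Finset.range (F.natDegree + 1)) j]
        split_ifs with hj
        · rfl
        · rw [coeff_eq_zero_of_natDegree_lt]
          rw [Finset.mem_range, not_lt] at hj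
          calc F.natDegree < j := by omega
            _ ≤ k * j := Nat.le_mul_of_pos_left j hk0
      obtain ⟨H, hH⟩ : ∃ H : ℤ[X], G = C (F.coeff k) * X + H ∧ H.coeff 0 = 0 ∧
          H.coeff 1 = 0 ∧ ∀ j, 2 ≤ j → H.coeff j = G.coeff j := by
        refine ⟨G - C (F.coeff k) * X, by ring, ?_, ?_, ?_⟩
        · rw [coeff_sub, hG]; simp [h0]
        · rw [coeff_sub, hG]; simp
        · intro j hj
          rw [coeff_sub, coeff_C_mul, coeff_X, if_neg (by omega), mul_zero, sub_zero]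
      obtain ⟨hH1, hH2, hH3, hH4⟩ := hH
      have hHb : ∀ j, 2 ≤ j → |H.coeff j| ≤ 1 := by
        intro j hj
        rw [hH4 j hj, hG]
        apply ih
        nlinarith
      have hHz : ∀ j, j < 2 → H.coeff j = 0 := by
        intro j hj
        interval_cases j
        · exact hH2
        · exact hH3
      have b1 := tail_bd hy0 (by linarith) hHb hHz y (abs_of_pos hy0)
      have b2 := tail_bd hy0 (by linarith) hHb hHz (-y) (by rw [abs_neg, abs_of_pos hy0])
      obtain ⟨c1, c2⟩ := hF k G hk0 hG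
      rw [← hy, hyN, hH1] at c1 c2
      have e1 : (aeval y (C (F.coeff k) * X + H) : ℝ) = (F.coeff k : ℝ) * y + aeval y H := by
        simp
      have e2 : (aeval (-y) (C (F.coeff k) * X + H) : ℝ) =
          -(F.coeff k : ℝ) * y + aeval (-y) H := by
        simp
      rw [e1] at c1
      rw [e2] at c2
      have d1 := (abs_lt.mp b1).1
      have d2 := (abs_lt.mp b2).1
      have h1y : 0 < 1 - y := by linarith
      have h5 : y / (1 - y) + y ^ 2 / (1 - y) ≤ 2 * y := by
        rw [← add_div, div_le_iff₀ h1y]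
        nlinarith
      have h6 : (F.coeff k : ℝ) * y < 2 * y := by linarith
      have h7 : -(F.coeff k : ℝ) * y < 2 * y := by linarith
      have h8 : (F.coeff k : ℝ) < 2 := lt_of_mul_lt_mul_right h6 hy0.le
      have h9 : -(F.coeff k : ℝ) < 2 := lt_of_mul_lt_mul_right h7 hy0.le
      have h10 : F.coeff k < 2 := by exact_mod_cast h8
      have h11 : -F.coeff k < 2 := by exact_mod_cast h9
      rw [abs_le]
      omega
  intro k
  exact key (F.natDegree + 1) k (by omega)

/-- (UFO_1) -/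
def Ufo1S : Prop := ∀ (N : ℕ) (F f q : ℤ[X]), 3 ≤ N → F.coeff 0 = 0 →
  (∀ (m : ℕ) (G : ℤ[X]), 1 ≤ m → (∀ j, G.coeff j = F.coeff (m * j)) →
    (aeval (1 / (N : ℝ)) G : ℝ) ≤ 1 / ((N : ℝ) - 1) ∧
    (aeval (-(1 / (N : ℝ))) G : ℝ) ≤ 1 / ((N : ℝ) - 1)) →
  (1 + X) * f = 1 + F → q = (1 - X - X ^ 2) * f - C (N : ℤ) * X →
  (∀ k, |F.coeff k| ≤ 1) ∧ (aeval (1 / ((N : ℝ) + 1)) q : ℝ) ≤ 0

theorem ufo1 : Ufo1S := by
  intro N F f q hN h0 hF hf hq
  have hc := coef_le hN hF h0
  refine ⟨hc, ?_⟩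
  have hN3 : (3 : ℝ) ≤ N := by exact_mod_cast hN
  obtain ⟨x, hx⟩ : ∃ x : ℝ, x = 1 / ((N : ℝ) + 1) := ⟨_, rfl⟩
  have hx0 : 0 < x := by rw [hx]; positivity
  have hx4 : x ≤ 1 / 4 := by
    rw [hx]
    exact one_div_le_one_div_of_le (by norm_num) (by linarith)
  have hxN : (N : ℝ) * x = 1 - x := by
    rw [hx]
    have h1 : (N : ℝ) + 1 ≠ 0 := by linarith
    field_simp
    ring
  rw [← hx]
  have h1 := tail_bd (c := 1) hx0 (by linarith) (fun k _ => hc k)
    (fun k hk => by
      have : k = 0 := by omega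
      rw [this, h0]) x (abs_of_pos hx0)
  have h2 := (abs_lt.mp h1).2
  have h3 : (1 + x) * aeval x f = 1 + aeval x F := by
    have := congrArg (fun p : ℤ[X] => (aeval x p : ℝ)) hf
    simpa using this
  have h4 : (aeval x q : ℝ) = (1 - x - x ^ 2) * aeval x f - (N : ℝ) * x := by
    rw [hq]; simp
  rw [h4, hxN]
  have h5 : (aeval x F : ℝ) * (1 - x) < x := by
    rw [pow_one, lt_div_iff₀ (by linarith)] at h2
    exact h2
  have h6 : 0 < 1 - x - x ^ 2 := by nlinarith
  have h7 : (1 + x) * ((1 - x - x ^ 2) * aeval x f - (1 - x)) ≤ 0 := by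
    have h8 : (1 + x) * ((1 - x - x ^ 2) * aeval x f - (1 - x)) =
        (1 - x - x ^ 2) * aeval x F - x := by
      linear_combination (1 - x - x ^ 2) * h3
    rw [h8]
    have h9 : (1 - x) * ((1 - x - x ^ 2) * aeval x F - x) ≤ 0 := by
      have h10 := mul_lt_mul_of_pos_left h5 h6
      nlinarith
    by_contra hcon
    push Not at hcon
    have := mul_pos (show 0 < 1 - x by linarith) hcon
    linarith
  by_contra hcon
  push Not at hcon
  have := mul_pos (show 0 < 1 + x by linarith) hcon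
  linarith

end Pool.Agent.B5.Ufo
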