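import Pool.Agent.Lib.MP_b5021c_nt.KO.H52.Uf
import Pool.Agent.Lib.MP_b5021c_nt.KO.H67.Alg
import Pool.Agent.Lib.MP_b5021c_nt.IfaceBP

/-!
# MP_b5021c_nt, all `θ`, K ODD, (O1-iv): the uses of THEOREM B' in (4.3) and (4.4)
-/

namespace Pool.Agent.B5.OOne

open Polynomial
open Pool.Agent.B5.H52.Uf

variable {q f E F g : ℤ[X]} {a p : ℝ} {j : ℕ}

/-- A binomial `1 + r X^k` is not divisible by `(1 + X)^2`. -/
theorem no_double {f : ℤ[X]} {k : ℕ} {r : ℤ} (hk : 1 ≤ k)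
    (h : (1 + X) ^ 2 * f = 1 + C r * X ^ k) : False := by
  have h0 := congrArg (fun P => eval (-1) P) h
  simp only [eval_mul, eval_pow, eval_add, eval_one, eval_X, eval_C] at h0
  have h1 := congrArg (fun P => eval (-1) (derivative P)) h
  simp only [derivative_mul, derivative_pow, derivative_add, derivative_one, derivative_X,
    derivative_C, eval_mul, eval_pow, eval_add, eval_one, eval_X, eval_C, eval_natCast] at h1
  norm_num at h0 h1
  rcases h1 with h1 | h1 | h1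
  all_goals first
    | omega
    | (rw [h1] at h0; norm_num at h0)

/-- (4.3) with THEOREM B'. -/
theorem IvD.bp43 (h : IvD q f E a p j) (hB : Bpf j E ((1 + X) ^ 2 * f)) : False := by
  rcases hB with ⟨k, t, r, hk, -, hg⟩ | ⟨s, F, x, hs, hp, hg, h0, hF, -, -, -⟩
  · exact no_double hk hg
  · exact h.u43 h0 hF (s := s + 1) (by omega) (by omega) (by push_cast; exact hp) hg

/-- (4.4) with THEOREM B'. -/
theorem IvD.bp44 (h : IvD q f E a p j) (hB : Bpf j E g)
    (hne : ∃ z : ℂ, ‖z‖ = 1 ∧ ‖(aeval z g : ℂ)‖ ≠ ‖(aeval z E : ℂ)‖) {m : ℕ} (hm : 1 ≤ m)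
    (hR : X ^ (m + 1) * E - g = -((1 + X) * (∑ i ∈ Finset.range m, X ^ i) ^ 2 *
      ((1 + X) ^ 2 * f - X * E))) : False := by
  rcases hB with ⟨k, t, r, hk, hp, hg⟩ | ⟨s, F, x, hs, hp, hg, h0, hF, -, -, -⟩
  · subst hg
    rw [hp] at hR hne
    refine alg hk hm hR ?_
    obtain ⟨z, hz, hz2⟩ := hne
    refine ⟨z, hz, ?_⟩
    simpa using hz2
  · subst hg
    exact h.u44 (by omega) h0 hF (s := s + 1) (by omega) (by omega) (by push_cast; exact hp) hm hR

/-- (4.4) with a constant unit ray: `E_0 = j + F`, `|F_k| ≤ 1`, `j ≥ 3`. -/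
theorem IvD.u44c (h : IvD q f E a p j) (hj3 : 3 ≤ j) (h0 : F.coeff 0 = 0)
    (hF : ∀ k, |F.coeff k| ≤ 1) (hE : E = C (j : ℤ) + F) {m : ℕ} (hm : 1 ≤ m)
    (hR : X ^ (m + 1) * E - 1 = -((1 + X) * (∑ i ∈ Finset.range m, X ^ i) ^ 2 *
      ((1 + X) ^ 2 * f - X * E))) : False := by
  obtain ⟨h1, h2, h3⟩ := h.pb
  have hp0 := h.o.p0
  have hEp := h.Epos hp0.le h2.le
  have hmain := h.u44_aux (F := 0) (by rw [add_zero]; exact hR)
  rw [map_zero, add_zero, one_mul] at hmain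
  have hj : (3 : ℝ) ≤ j := by exact_mod_cast hj3
  have hAb := abs_le.mp (abs_le1 (m := 1) (fun k hk => by
    rw [Nat.lt_one_iff.mp hk]; exact h0) hF hp0.le h2)
  rw [pow_one] at hAb
  have eE : (aeval p E : ℝ) ≤ j + p / (1 - p) := by
    rw [hE, map_add, aeval_C]
    have : (algebraMap ℤ ℝ (j : ℤ)) = j := by simp
    rw [this]
    linarith [hAb.2]
  set e : ℝ := (aeval p E : ℝ) with he
  set t : ℝ := p ^ m with ht
  have ht0 : 0 < t := pow_pos hp0 m
  have htp : t ≤ p := by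
    obtain ⟨n, rfl⟩ := Nat.exists_eq_add_of_le' hm
    rw [ht, pow_succ]
    exact mul_le_of_le_one_left hp0.le (pow_le_one₀ hp0.le h2.le)
  have hp13 : 0 < 1 - p := by linarith
  have eE2 : e * (1 - p) ≤ j * (1 - p) + p := by
    have := mul_le_mul_of_nonneg_right eE hp13.le
    rwa [add_mul, div_mul_cancel₀ _ hp13.ne'] at this
  rcases lt_or_ge 3 j with hj4 | hj4
  · have hj5 : (4 : ℝ) ≤ j := by exact_mod_cast hj4
    have hp4 : p ≤ 1 / 4 := by nlinarith
    have hc : p * t * (1 - p) ^ 2 + (1 + p) * p ^ 2 * (1 - t) ^ 2 ≤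
        p ^ 2 * (2 + p) * (1 - p) ^ 2 := by
      have e1 : 0 ≤ 1 - 4 * p + p ^ 3 := by nlinarith [pow_pos hp0 3]
      have e2 : p ^ 2 * (2 + p) * (1 - p) ^ 2 -
          (p * t * (1 - p) ^ 2 + (1 + p) * p ^ 2 * (1 - t) ^ 2) =
          p * (p - t) * (1 - 4 * p + p ^ 3) + p ^ 2 * (1 + p) * (t * (p - t)) := by
        ring
      have e3 : 0 ≤ p * (p - t) * (1 - 4 * p + p ^ 3) :=
        mul_nonneg (mul_nonneg hp0.le (by linarith)) e1
      have e4 : 0 ≤ p ^ 2 * (1 + p) * (t * (p - t)) :=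
        mul_nonneg (by positivity) (mul_nonneg ht0.le (by linarith))
      linarith
    have h5 : (1 - p) ^ 2 ≤ p ^ 2 * (2 + p) * (1 - p) ^ 2 * e :=
      hmain.trans (mul_le_mul_of_nonneg_right hc hEp.le)
    have h6 : 1 ≤ p ^ 2 * (2 + p) * e := by
      have h8 : 1 * (1 - p) ^ 2 ≤ (p ^ 2 * (2 + p) * e) * (1 - p) ^ 2 := by
        linarith
      exact le_of_mul_le_mul_right h8 (by positivity)
    have h7 : 1 * (1 - p) ≤ p ^ 2 * (2 + p) * (j * (1 - p) + p) := by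
      calc 1 * (1 - p) ≤ (p ^ 2 * (2 + p) * e) * (1 - p) := mul_le_mul_of_nonneg_right h6 hp13.le
        _ = p ^ 2 * (2 + p) * (e * (1 - p)) := by ring
        _ ≤ _ := mul_le_mul_of_nonneg_left eE2 (by positivity)
    have h10 : (j : ℝ) * p = 1 - p ^ 2 := by linarith
    have h11 : p ^ 2 * (2 + p) * (j * (1 - p) + p) =
        p * (2 + p) * ((j * p) * (1 - p) + p ^ 2) := by ring
    rw [h11, h10] at h7
    have h12 : p * (2 + p) ≤ 9 / 16 := by nlinarith
    have h13 : 0 ≤ (1 - p ^ 2) * (1 - p) + p ^ 2 := by nlinarith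
    have h14 := mul_le_mul_of_nonneg_right h12 h13
    nlinarith [pow_pos hp0 3]
  · have hj3' : j = 3 := le_antisymm hj4 hj3
    subst hj3'
    push_cast at *
    have hp1 : p < 3028 / 10000 := by nlinarith
    have hp2 : 3027 / 10000 < p := by nlinarith
    have hc : p * t * (1 - p) ^ 2 + (1 + p) * p ^ 2 * (1 - t) ^ 2 ≤ (1 + p) * p ^ 2 := by
      have e1 : (1 - p) ^ 2 ≤ (1 + p) * p * (2 - t) := by nlinarith
      have e2 : p * t * (1 - p) ^ 2 ≤ p * t * ((1 + p) * p * (2 - t)) :=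
        mul_le_mul_of_nonneg_left e1 (by positivity)
      have e3 : p * t * ((1 + p) * p * (2 - t)) + (1 + p) * p ^ 2 * (1 - t) ^ 2 =
          (1 + p) * p ^ 2 := by ring
      linarith
    have h5 : (1 - p) ^ 2 ≤ (1 + p) * p ^ 2 * e :=
      hmain.trans (mul_le_mul_of_nonneg_right hc hEp.le)
    have h6 : (1 + p) * p ^ 2 ≤ 1195 / 10000 := by
      have e1 : p ^ 2 ≤ (3028 / 10000) ^ 2 := pow_le_pow_left₀ hp0.le hp1.le 2
      calc (1 + p) * p ^ 2 ≤ (1 + 3028 / 10000) * (3028 / 10000) ^ 2 :=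
            mul_le_mul (by linarith) e1 (by positivity) (by norm_num)
        _ ≤ _ := by norm_num
    have h7 : (6972 / 10000 : ℝ) ^ 2 ≤ (1 - p) ^ 2 :=
      pow_le_pow_left₀ (by norm_num) (by linarith) 2
    have h8 : e ≤ 3435 / 1000 := by
      have e1 : p / (1 - p) ≤ 435 / 1000 := by
        rw [div_le_iff₀ hp13]
        linarith
      linarith
    have h9 : (1 + p) * p ^ 2 * e ≤ 1195 / 10000 * (3435 / 1000) :=
      mul_le_mul h6 h8 hEp.le (by norm_num)
    norm_num at h7 h9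
    linarith

end Pool.Agent.B5.OOne
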