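import Pool.Agent.Lib.MP_b5021c_nt.KO.H52.Nf3

/-!
# MP_b5021c_nt, all `θ`, K ODD, leaf O4, `l = 3`, row TK_DT: the killers of the triple (helper52)

`T` kills `r 0` at the load `tau`: the free part `psi` flips at `T`:
`psi = (part without ports of T) (1 - single T tau⁻¹)`; the same for a finite set of disjoint killers.
-/

set_option linter.unusedSectionVars false

namespace Pool.Agent.B5.KO52

open scoped LaurentPolynomial
open AddMonoidAlgebra
open Pool.Agent.B5.KO.H71 (Tri Fr z3a z3b z3c z3d z3e z3f z3g z3v z3h)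
open Pool.Agent.B5.KO.H40 (flt flt_in flt_out mon_mul_coeff)

section

variable {O : Type} [CommRing O] [IsDomain O] [IsPrincipalIdealRing O] [Coef O] {P : Type}
  [Fintype P] [DecidableEq P] {L : Type} [AddCommGroup L] [Module.Free ℤ L] [Module.Finite ℤ L]

/-- `u` and `T` have no common port. -/
def Dj (phi : L →+ (P → ℤ)) (T u : L) : Prop := ∀ q, phi u q = 0 ∨ phi T q = 0

/-- All exponents of `F` flip at `T`, load `tau`. -/
structure Kfl (phi : L →+ (P → ℤ)) (F : AO O L) (T : L) (tau : (RO O)ˣ) : Prop where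
  bin : Bin phi T
  prt : ∃ q, phi T q = 1
  dj : ∀ u, Dj phi T u → F.coeff u + (tau : RO O) * F.coeff (u + T) = 0
  no : ∀ u ∈ supp F, Dj phi T u ∨ ∀ q, phi T q = 1 → phi u q = 1

variable {phi : L →+ (P → ℤ)} {D F : AO O L} {r : ZMod 3 → L} {e : ZMod 3 → (RO O)ˣ}
  {mu : ZMod 3 → L →+ ℤ} {p : P} {T T' : L} {tau tau' : (RO O)ˣ}

theorem Dj.add_iff (h : Dj phi T T') {u : L} : Dj phi T (u + T') ↔ Dj phi T u := by
  constructor
  · intro h1 q
    rcases h1 q with h2 | h2
    · rcases h q with h3 | h3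
      · left
        rw [map_add, Pi.add_apply, h3, add_zero] at h2
        exact h2
      · exact Or.inr h3
    · exact Or.inr h2
  · intro h1 q
    rcases h1 q with h2 | h2
    · rcases h q with h3 | h3
      · left
        rw [map_add, Pi.add_apply, h2, h3, add_zero]
      · exact Or.inr h3
    · exact Or.inr h2

theorem Dj.symm (h : Dj phi T T') : Dj phi T' T := fun q => (h q).symm

theorem dj_zero : Dj phi T 0 := fun q => Or.inl (by rw [map_zero]; rfl)

theorem Kfl.sub_not (h : Kfl phi F T tau) {a : L} (ha : Dj phi T a) : ¬ Dj phi T (a - T) := by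
  intro h1
  obtain ⟨q, hq⟩ := h.prt
  have h2 := (ha q).resolve_right (by rw [hq]; exact one_ne_zero)
  have h3 := (h1 q).resolve_right (by rw [hq]; exact one_ne_zero)
  rw [map_sub, Pi.sub_apply, h2, hq] at h3
  norm_num at h3

/-- (K1) one killer. -/
theorem Kfl.eq (h : Kfl phi F T tau) :
    F = flt {u | Dj phi T u} F * (1 - single T ((tau⁻¹ : (RO O)ˣ) : RO O)) := by
  have hexp : flt {u | Dj phi T u} F * (1 - single T ((tau⁻¹ : (RO O)ˣ) : RO O)) =
      flt {u | Dj phi T u} F - single T ((tau⁻¹ : (RO O)ˣ) : RO O) * flt {u | Dj phi T u} F := by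
    ring
  rw [hexp]
  apply AddMonoidAlgebra.ext
  apply Finsupp.ext
  intro a
  rw [coeff_sub, Finsupp.sub_apply, mon_mul_coeff]
  have hu : ((tau⁻¹ : (RO O)ˣ) : RO O) * (tau : RO O) = 1 := Units.inv_mul _
  by_cases c0 : Dj phi T a
  · rw [flt_in (Q := {u | Dj phi T u}) _ c0, flt_out (Q := {u | Dj phi T u}) _ (h.sub_not c0),
      mul_zero, sub_zero]
  rw [flt_out (Q := {u | Dj phi T u}) _ c0]
  by_cases c1 : Dj phi T (a - T)
  · rw [flt_in (Q := {u | Dj phi T u}) _ c1]
    have h1 := h.dj _ c1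
    rw [sub_add_cancel] at h1
    linear_combination ((tau⁻¹ : (RO O)ˣ) : RO O) * h1 - F.coeff a * hu
  · rw [flt_out (Q := {u | Dj phi T u}) _ c1, mul_zero, sub_zero]
    by_contra hne
    rcases h.no a hne with h1 | h1
    · exact c0 h1
    · apply c1
      intro q
      rcases h.bin q with h2 | h2
      · exact Or.inr h2
      · left
        rw [map_sub, Pi.sub_apply, h1 q h2, h2, sub_self]

/-- The part without the ports of a disjoint killer flips. -/
theorem Kfl.flt (h : Kfl phi F T tau) (hd : Dj phi T' T) : Kfl phi (flt {u | Dj phi T' u} F) T tau := by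
  refine ⟨h.bin, h.prt, fun u hu => ?_, fun u hu => ?_⟩
  · by_cases c : Dj phi T' u
    · rw [flt_in (Q := {u | Dj phi T' u}) _ c,
        flt_in (Q := {u | Dj phi T' u}) _ (hd.add_iff.mpr c)]
      exact h.dj u hu
    · rw [flt_out (Q := {u | Dj phi T' u}) _ c,
        flt_out (Q := {u | Dj phi T' u}) _ (fun h1 => c (hd.add_iff.mp h1)), mul_zero, add_zero]
  · apply h.no
    intro h0
    apply hu
    by_cases c : Dj phi T' u
    · rw [flt_in (Q := {u | Dj phi T' u}) _ c]
      exact h0
    · exact flt_out (Q := {u | Dj phi T' u}) _ c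

/-- Two filters. -/
theorem flt_flt (A B : Set L) (F : AO O L) : KO.H40.flt A (KO.H40.flt B F) =
    KO.H40.flt {u | u ∈ A ∧ u ∈ B} F := by
  apply AddMonoidAlgebra.ext
  apply Finsupp.ext
  intro a
  by_cases hA : a ∈ A
  · rw [flt_in _ hA]
    by_cases hB : a ∈ B
    · rw [flt_in _ hB, flt_in (Q := {u | u ∈ A ∧ u ∈ B}) _ ⟨hA, hB⟩]
    · rw [flt_out _ hB, flt_out (Q := {u | u ∈ A ∧ u ∈ B}) _ (fun h => hB h.2)]
  · rw [flt_out _ hA, flt_out (Q := {u | u ∈ A ∧ u ∈ B}) _ (fun h => hA h.1)]

theorem flt_univ (F : AO O L) {A : Set L} (h : ∀ a, a ∈ A) : KO.H40.flt A F = F := by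
  apply AddMonoidAlgebra.ext
  apply Finsupp.ext
  intro a
  rw [flt_in _ (h a)]

/-- (K) a finite set of killers with disjoint ports. -/
theorem kfl_prod {J : Type} [DecidableEq J] (R : J → L) (ta : J → (RO O)ˣ) (K : Finset J)
    (F : AO O L) (h : ∀ j ∈ K, Kfl phi F (R j) (ta j))
    (hd : ∀ j ∈ K, ∀ j' ∈ K, j ≠ j' → Dj phi (R j) (R j')) :
    F = KO.H40.flt {u | ∀ j ∈ K, Dj phi (R j) u} F *
      ∏ j ∈ K, (1 - single (R j) (((ta j)⁻¹ : (RO O)ˣ) : RO O)) := by
  classical
  induction K using Finset.induction_on generalizing F with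
  | empty =>
    rw [Finset.prod_empty, mul_one]
    exact (flt_univ F (fun a j hj => absurd hj (Finset.notMem_empty _))).symm
  | insert i K hi ih =>
    have h1 := (h i (Finset.mem_insert_self _ _)).eq
    have h2 := ih (KO.H40.flt {u | Dj phi (R i) u} F) (fun j hj =>
      (h j (Finset.mem_insert_of_mem hj)).flt (hd i (Finset.mem_insert_self _ _) j
        (Finset.mem_insert_of_mem hj) (fun hij => hi (hij ▸ hj))))
      (fun j hj j' hj' => hd j (Finset.mem_insert_of_mem hj) j' (Finset.mem_insert_of_mem hj'))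
    rw [Finset.prod_insert hi]
    have h3 : KO.H40.flt {u | ∀ j ∈ K, Dj phi (R j) u} (KO.H40.flt {u | Dj phi (R i) u} F) =
        KO.H40.flt {u | ∀ j ∈ insert i K, Dj phi (R j) u} F := by
      rw [flt_flt]
      congr 1
      ext u
      constructor
      · rintro ⟨h4, h5⟩ j hj
        rcases Finset.mem_insert.mp hj with rfl | h6
        · exact h5
        · exact h4 j h6
      · intro h4
        exact ⟨fun j hj => h4 j (Finset.mem_insert_of_mem hj), h4 i (Finset.mem_insert_self _ _)⟩
    rw [h3] at h2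
    rw [h2] at h1
    conv_lhs => rw [h1]
    ring

/-- THE FREE PART FLIPS AT A KILLER OF THE TRIPLE. -/
theorem psi_kfl (h : Tri phi D r e mu) (hF1 : F1S) (hI : Function.Injective phi)
    (hb : ∀ a ∈ supp D, Bin phi a) (hT : Bin phi T) (hp : ∃ q, phi T q = 1)
    (hd : ∀ i, Dj phi (r i) T) (hus : ∀ a ∈ US tau T D, ∀ i, mu i a = 0) :
    Kfl phi (psi phi D r e mu) T tau := by
  have hT0 : T ≠ 0 := by
    rintro rfl
    obtain ⟨q, hq⟩ := hp
    rw [map_zero] at hq
    exact zero_ne_one hq
  have hmT : ∀ i, mu i T = 0 := hus T (H47.S_mem _ _ _)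
  have hfl := fun b hb' => hF1 O P L phi D T tau hI hb hT hT0 b hb'
  have hnot : ∀ u, Fr phi r mu u → u + r 0 ∉ US tau T D := by
    intro u hu hc
    have h1 := hus _ hc 1
    rw [map_add, hu.2, show mu 1 (r 0) = -1 from h.prv 1] at h1
    norm_num at h1
  have hfr : ∀ u, Fr phi r mu (u + T) ↔ Fr phi r mu u := by
    intro u
    constructor
    · intro h1
      refine ⟨fun i q => ?_, fun i => ?_⟩
      · rcases h1.1 i q with h2 | h2
        · rcases hd i q with h3 | h3
          · left
            rw [map_add, Pi.add_apply, h3, add_zero] at h2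
            exact h2
          · exact Or.inr h3
        · exact Or.inr h2
      · have h2 := h1.2 i
        rw [map_add, hmT, add_zero] at h2
        exact h2
    · intro h1
      refine ⟨fun i q => ?_, fun i => ?_⟩
      · rcases h1.1 i q with h2 | h2
        · rcases hd i q with h3 | h3
          · left
            rw [map_add, Pi.add_apply, h2, h3, add_zero]
          · exact Or.inr h3
        · exact Or.inr h2
      · rw [map_add, hmT, h1.2, add_zero]
  have hdu : ∀ u, Fr phi r mu u → (∀ q, phi T q ≠ 0 → phi (u + r 0) q = phi u q) := by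
    intro u hu q hq
    rw [map_add, Pi.add_apply, (hd 0 q).resolve_left hq, add_zero]
  refine ⟨hT, hp, fun u hu => ?_, fun u hu => ?_⟩
  · by_cases hf : Fr phi r mu u
    · have h1 := (hfl _ (hnot u hf)).2 (fun q => by
        rcases hu q with h2 | h2
        · rcases hd 0 q with h3 | h3
          · exact Or.inr h3
          · left
            rw [map_add, Pi.add_apply, h2, h3, add_zero]
        · exact Or.inr h2)
      rw [psi_in hf, psi_in ((hfr u).mpr hf), show u + T + r 0 = u + r 0 + T by abel]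
      linear_combination (e 0 : RO O) * h1
    · rw [psi_out hf, psi_out (fun h1 => hf ((hfr u).mp h1)), mul_zero, add_zero]
  · obtain ⟨hf, hs⟩ := psi_supp hu
    by_contra hcon
    push Not at hcon
    obtain ⟨h1, q', hq1, hq2⟩ := hcon
    have h2 : ∃ q, phi u q ≠ 0 ∧ phi T q ≠ 0 := by
      by_contra h3
      push Not at h3
      apply h1
      intro q
      by_cases h4 : phi u q = 0
      · exact Or.inl h4
      · exact Or.inr (h3 q h4)
    obtain ⟨q, hq3, hq4⟩ := h2
    have h5 := hb _ hs q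
    have h6 := hb _ hs q'
    have h7 := hdu u hf q hq4
    have h8 := hdu u hf q' (by rw [hq1]; exact one_ne_zero)
    refine hs ((hfl _ (hnot u hf)).1 ⟨q, ?_, (hT q).resolve_left hq4⟩ ⟨q', ?_, hq1⟩)
    · rw [h7] at h5 ⊢
      exact h5.resolve_left hq3
    · rw [h8] at h6 ⊢
      exact h6.resolve_right hq2

end

end Pool.Agent.B5.KO52
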