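import Pool.Agent.Lib.MP_b5021c_nt.KO.H71.Ncl
import Pool.Agent.Lib.MP_b5021c_nt.KO.H40.Kil
import Pool.Agent.Lib.MP_b5021c_nt.H96.Emb

/-!
# MP_b5021c_nt, all `θ`, K ODD, leaf O4, `l = 3`, row TK_DT: the face of a closed triple (helper52)

`Tri phi D r e mu`, a port `p` of `r 0`: the face of `D` without `p` is
`g0 - psi (1 - y 1) (1 - y 2)`, `y i = single (r i) (e i)⁻¹`, `psi` the free part
(`psi_u = e 0 * D_(u + r 0)`, `u` free), `g0` = the exponents killed by all `mu i`, coefficients
`D_a + psi_a`.  (`D = G - psi (1 - y 0) (1 - y 1) (1 - y 2)`, `G` = the lift of the closing of `r 0`.)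
-/

set_option linter.unusedSectionVars false

namespace Pool.Agent.B5.KO52

open scoped LaurentPolynomial
open AddMonoidAlgebra
open Pool.Agent.B5.KO.H71 (Tri Fr z3a z3b z3c z3d z3e z3f z3g z3v z3h)
open Pool.Agent.B5.KO.H40 (flt flt_in flt_out mon_mul_coeff)

section

variable {O : Type} [CommRing O] [IsDomain O] [IsPrincipalIdealRing O] [Coef O] {P : Type}
  [Fintype P] [DecidableEq P] {L : Type} [AddCommGroup L] [Module.Free ℤ L] [Module.Finite ℤ L]

/-- The free part of a closed triple. -/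
noncomputable def psi (phi : L →+ (P → ℤ)) (D : AO O L) (r : ZMod 3 → L) (e : ZMod 3 → (RO O)ˣ)
    (mu : ZMod 3 → L →+ ℤ) : AO O L :=
  flt {u | Fr phi r mu u} (single (-(r 0)) (e 0 : RO O) * D)

/-- `a` does not contain the port `p` and is killed by all `mu i`. -/
def Im0 (phi : L →+ (P → ℤ)) (p : P) (mu : ZMod 3 → L →+ ℤ) (a : L) : Prop :=
  phi a p = 0 ∧ ∀ i, mu i a = 0

/-- The part killed by all `mu i`. -/
noncomputable def g0 (phi : L →+ (P → ℤ)) (D : AO O L) (r : ZMod 3 → L) (e : ZMod 3 → (RO O)ˣ)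
    (mu : ZMod 3 → L →+ ℤ) (p : P) : AO O L :=
  flt {a | Im0 phi p mu a} (D + psi phi D r e mu)

variable {phi : L →+ (P → ℤ)} {D : AO O L} {r : ZMod 3 → L} {e : ZMod 3 → (RO O)ˣ}
  {mu : ZMod 3 → L →+ ℤ} {p : P}

theorem psi_in {u : L} (hu : Fr phi r mu u) :
    (psi phi D r e mu).coeff u = (e 0 : RO O) * D.coeff (u + r 0) := by
  unfold psi
  rw [flt_in (Q := {u | Fr phi r mu u}) _ hu, mon_mul_coeff, sub_neg_eq_add]

theorem psi_out {u : L} (hu : ¬ Fr phi r mu u) : (psi phi D r e mu).coeff u = 0 := by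
  unfold psi
  rw [flt_out (Q := {u | Fr phi r mu u}) _ hu]

theorem psi_supp {u : L} (hu : u ∈ supp (psi phi D r e mu)) :
    Fr phi r mu u ∧ u + r 0 ∈ supp D := by
  by_cases hf : Fr phi r mu u
  · refine ⟨hf, fun h0 => hu ?_⟩
    change D.coeff (u + r 0) = 0 at h0
    rw [psi_in hf, h0, mul_zero]
  · exact absurd (psi_out hf) hu

theorem g0_in {a : L} (ha : Im0 phi p mu a) :
    (g0 phi D r e mu p).coeff a = D.coeff a + (psi phi D r e mu).coeff a := by
  unfold g0
  rw [flt_in (Q := {a | Im0 phi p mu a}) _ ha, coeff_add, Finsupp.add_apply]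

theorem g0_out {a : L} (ha : ¬ Im0 phi p mu a) : (g0 phi D r e mu p).coeff a = 0 := by
  unfold g0
  rw [flt_out (Q := {a | Im0 phi p mu a}) _ ha]

theorem g0_supp {a : L} (ha : a ∈ supp (g0 phi D r e mu p)) :
    Im0 phi p mu a ∧ (a ∈ supp D ∨ a ∈ supp (psi phi D r e mu)) := by
  by_cases hf : Im0 phi p mu a
  · refine ⟨hf, ?_⟩
    by_contra hne
    push Not at hne
    obtain ⟨h1, h2⟩ := hne
    have h3 : D.coeff a = 0 := by
      by_contra h
      exact h1 h
    have h4 : (psi phi D r e mu).coeff a = 0 := by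
      by_contra h
      exact h2 h
    apply ha
    rw [g0_in hf, h3, h4, add_zero]
  · exact absurd (g0_out hf) ha

theorem fr_zero : Fr phi r mu 0 :=
  ⟨fun _ _ => Or.inl (by rw [map_zero]; rfl), fun _ => map_zero _⟩

theorem psi_zero : (psi phi D r e mu).coeff 0 = (e 0 : RO O) * D.coeff (r 0) := by
  rw [psi_in fr_zero, zero_add]

theorem g0_zero : (g0 phi D r e mu p).coeff 0 = D.coeff 0 + (e 0 : RO O) * D.coeff (r 0) := by
  rw [g0_in ⟨by rw [map_zero]; rfl, fun _ => map_zero _⟩, psi_zero]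

/-- The coefficients of singles. -/
theorem psi_r (h : Tri phi D r e mu) (hF1 : F1S) (hI : Function.Injective phi)
    (hb : ∀ a ∈ supp D, Bin phi a) {u : L} (hu : Fr phi r mu u) (i : ZMod 3) :
    (psi phi D r e mu).coeff u = (e i : RO O) * D.coeff (u + r i) := by
  rw [psi_in hu, h.all_eq hF1 hI hb hu 0 i]

theorem psi_rr (h : Tri phi D r e mu) (hF1 : F1S) (hI : Function.Injective phi)
    (hb : ∀ a ∈ supp D, Bin phi a) {u : L} (hu : Fr phi r mu u) {i j : ZMod 3} (hij : i ≠ j) :
    (psi phi D r e mu).coeff u = -((e i : RO O) * (e j : RO O) * D.coeff (u + r i + r j)) := by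
  rw [psi_in hu, h.pair hF1 hI hb hu hij 0, neg_neg]

/-- A free exponent minus a ray is not free. -/
theorem fr_sub (h : Tri phi D r e mu) {u : L} (hu : Fr phi r mu u) (i : ZMod 3) :
    ¬ Fr phi r mu (u - r i) := by
  intro h1
  have h2 := h1.2 (i + 1)
  rw [map_sub, hu.2, h.prv'] at h2
  norm_num at h2

theorem fr_sub2 (h : Tri phi D r e mu) {u : L} (hu : Fr phi r mu u) {i j : ZMod 3} (hij : i ≠ j) :
    ¬ Fr phi r mu (u - r i - r j) := by
  intro h1
  have h2 := h1.2 i
  rw [map_sub, map_sub, hu.2, h.slf] at h2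
  rcases z3h i j with rfl | rfl | rfl
  · exact hij rfl
  · rw [h.nxt] at h2; norm_num at h2
  · rw [h.prv] at h2; norm_num at h2

theorem fr_add (h : Tri phi D r e mu) {u : L} (hu : Fr phi r mu u) (i : ZMod 3) :
    ¬ Fr phi r mu (u + r i) := by
  intro h1
  have h2 := h1.2 (i + 1)
  rw [map_add, hu.2, h.prv'] at h2
  norm_num at h2

/-- The port `p` of `r 0`. -/
theorem p12 (h : Tri phi D r e mu) (hp : phi (r 0) p = 1) : phi (r 1) p = 0 ∧ phi (r 2) p = 0 :=
  ⟨(h.dis 0 1 (by decide) p).resolve_left (by rw [hp]; exact one_ne_zero),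
    (h.dis 0 2 (by decide) p).resolve_left (by rw [hp]; exact one_ne_zero)⟩

theorem fr_p (hp : phi (r 0) p = 1) {u : L} (hu : Fr phi r mu u) : phi u p = 0 :=
  (hu.1 0 p).resolve_right (by rw [hp]; exact one_ne_zero)

theorem fr_im (hp : phi (r 0) p = 1) {u : L} (hu : Fr phi r mu u) : Im0 phi p mu u :=
  ⟨fr_p hp hu, hu.2⟩

/-- (FACE) THE FACE WITHOUT THE PORT `p`. -/
theorem face (h : Tri phi D r e mu) (hF1 : F1S) (hI : Function.Injective phi)
    (hb : ∀ a ∈ supp D, Bin phi a) (hp : phi (r 0) p = 1) :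
    gpart (co phi p) 0 D = g0 phi D r e mu p - psi phi D r e mu *
      ((1 - single (r 1) (((e 1)⁻¹ : (RO O)ˣ) : RO O)) *
        (1 - single (r 2) (((e 2)⁻¹ : (RO O)ˣ) : RO O))) := by
  classical
  obtain ⟨p1, p2⟩ := p12 h hp
  have hexp : psi phi D r e mu * ((1 - single (r 1) (((e 1)⁻¹ : (RO O)ˣ) : RO O)) *
      (1 - single (r 2) (((e 2)⁻¹ : (RO O)ˣ) : RO O))) =
      psi phi D r e mu - single (r 1) (((e 1)⁻¹ : (RO O)ˣ) : RO O) * psi phi D r e mu -
        single (r 2) (((e 2)⁻¹ : (RO O)ˣ) : RO O) * psi phi D r e mu +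
        single (r 1) (((e 1)⁻¹ : (RO O)ˣ) : RO O) *
          (single (r 2) (((e 2)⁻¹ : (RO O)ˣ) : RO O) * psi phi D r e mu) := by ring
  rw [hexp]
  apply AddMonoidAlgebra.ext
  apply Finsupp.ext
  intro a
  have u1 : (((e 1)⁻¹ : (RO O)ˣ) : RO O) * (e 1 : RO O) = 1 := Units.inv_mul _
  have u2 : (((e 2)⁻¹ : (RO O)ˣ) : RO O) * (e 2 : RO O) = 1 := Units.inv_mul _
  rw [H96.gpart_coeff, coeff_sub, Finsupp.sub_apply, coeff_add, Finsupp.add_apply, coeff_sub,
    Finsupp.sub_apply, coeff_sub, Finsupp.sub_apply, mon_mul_coeff, mon_mul_coeff, mon_mul_coeff,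
    mon_mul_coeff]
  by_cases c0 : Fr phi r mu a
  · -- free
    rw [if_pos (show co phi p a = 0 from fr_p hp c0), g0_in (fr_im hp c0),
      psi_out (fr_sub h c0 1), psi_out (fr_sub h c0 2),
      psi_out (u := a - r 1 - r 2) (fr_sub2 h c0 (by decide))]
    ring
  by_cases c1 : Fr phi r mu (a - r 1)
  · have h1 : ¬ Im0 phi p mu a := by
      intro hi
      have h2 := hi.2 0
      have h3 := c1.2 0
      rw [map_sub, h2, show mu 0 (r 1) = 1 from h.nxt 0] at h3
      norm_num at h3
    have hpa : co phi p a = 0 := by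
      have h2 := fr_p hp c1
      rw [map_sub, Pi.sub_apply, p1, sub_zero] at h2
      exact h2
    have h2 : ¬ Fr phi r mu (a - r 2) := by
      intro h3
      have h4 := h3.2 0
      have h5 := c1.2 0
      rw [map_sub, show mu 0 (r 2) = -1 from h.prv 0] at h4
      rw [map_sub, show mu 0 (r 1) = 1 from h.nxt 0] at h5
      omega
    have h3 : ¬ Fr phi r mu (a - r 1 - r 2) := fr_sub h c1 2
    rw [if_pos hpa, g0_out h1, psi_out c0, psi_out h2, psi_out h3, psi_r h hF1 hI hb c1 1,
      sub_add_cancel]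
    linear_combination (-(D.coeff a) : RO O) * u1
  by_cases c2 : Fr phi r mu (a - r 2)
  · have h1 : ¬ Im0 phi p mu a := by
      intro hi
      have h2 := hi.2 0
      have h3 := c2.2 0
      rw [map_sub, h2, show mu 0 (r 2) = -1 from h.prv 0] at h3
      norm_num at h3
    have hpa : co phi p a = 0 := by
      have h2 := fr_p hp c2
      rw [map_sub, Pi.sub_apply, p2, sub_zero] at h2
      exact h2
    have h3 : ¬ Fr phi r mu (a - r 1 - r 2) := by
      have h4 : a - r 1 - r 2 = a - r 2 - r 1 := by abel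
      rw [h4]
      exact fr_sub h c2 1
    rw [if_pos hpa, g0_out h1, psi_out c0, psi_out c1, psi_out h3, psi_r h hF1 hI hb c2 2,
      sub_add_cancel]
    linear_combination (-(D.coeff a) : RO O) * u2
  by_cases c3 : Fr phi r mu (a - r 1 - r 2)
  · have h1 : ¬ Im0 phi p mu a := by
      intro hi
      have h2 := hi.2 1
      have h3 := c3.2 1
      rw [map_sub, map_sub, h2, show mu 1 (r 1) = 0 from h.slf 1,
        show mu 1 (r 2) = 1 from h.nxt 1] at h3
      norm_num at h3
    have hpa : co phi p a = 0 := by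
      have h2 := fr_p hp c3
      rw [map_sub, map_sub, Pi.sub_apply, Pi.sub_apply, p1, p2, sub_zero, sub_zero] at h2
      exact h2
    have h2 := psi_rr h hF1 hI hb c3 (i := 1) (j := 2) (by decide)
    rw [show a - r 1 - r 2 + r 1 + r 2 = a by abel] at h2
    rw [if_pos hpa, g0_out h1, psi_out c0, psi_out c1, psi_out c2, h2]
    linear_combination (-(D.coeff a) : RO O) * (((e 2)⁻¹ : (RO O)ˣ) : RO O) * (e 2 : RO O) * u1 -
      (D.coeff a : RO O) * u2
  rw [psi_out c0, psi_out c1, psi_out c2, psi_out c3]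
  by_cases him : Im0 phi p mu a
  · rw [if_pos (show co phi p a = 0 from him.1), g0_in him, psi_out c0]
    ring
  · rw [g0_out him]
    by_cases hpa : co phi p a = 0
    · rw [if_pos hpa]
      have h0 : D.coeff a = 0 := by
        by_contra hne
        rcases h.nf hF1 hI hb hne with h1 | ⟨i, u, hu, hau⟩ | ⟨i, u, hu, hau⟩
        · exact him ⟨hpa, h1⟩
        · rcases z3v i with rfl | rfl | rfl
          · have h2 : phi a p = 0 := hpa
            rw [hau, map_add, Pi.add_apply, fr_p hp hu, hp] at h2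
            norm_num at h2
          · exact c1 (by rw [hau, add_sub_cancel_right]; exact hu)
          · exact c2 (by rw [hau, add_sub_cancel_right]; exact hu)
        · rcases z3v i with rfl | rfl | rfl
          · apply c3
            have h2 : a - r 1 - r 2 = u := by
              rw [hau, show (0 + 1 : ZMod 3) = 1 from rfl, show (0 - 1 : ZMod 3) = 2 from rfl]
              abel
            rw [h2]
            exact hu
          · have h2 : phi a p = 0 := hpa
            rw [hau, show (1 - 1 : ZMod 3) = 0 from rfl, show (1 + 1 : ZMod 3) = 2 from rfl,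
              map_add, map_add, Pi.add_apply, Pi.add_apply, fr_p hp hu, p2, hp] at h2
            norm_num at h2
          · have h2 : phi a p = 0 := hpa
            rw [hau, show (2 + 1 : ZMod 3) = 0 from rfl, show (2 - 1 : ZMod 3) = 1 from rfl,
              map_add, map_add, Pi.add_apply, Pi.add_apply, fr_p hp hu, p1, hp] at h2
            norm_num at h2
      rw [h0]
      ring
    · rw [if_neg hpa]
      ring

end

end Pool.Agent.B5.KO52
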