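import Pool.Agent.Lib.MP_b5021c_nt.KO.H52.Kfl
import Pool.Agent.Lib.MP_b5021c_nt.E.H07.Top

/-!
# MP_b5021c_nt, all `θ`, K ODD, leaf O4, `l = 3`, row TK_DT, (R1): a functional which kills the part
`g0` and the part of `psi` without the killers kills the closing of `r 0` (helper52)
-/

set_option linter.unusedSectionVars false

namespace Pool.Agent.B5.KO52

open scoped LaurentPolynomial
open AddMonoidAlgebra
open Pool.Agent.B5.KO.H71 (Tri Fr z3a z3b z3c z3d z3e z3f z3g z3v z3h)
open Pool.Agent.B5.KO.H40 (flt flt_in flt_out mon_mul_coeff)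

section

variable {O : Type} [CommRing O] [IsDomain O] [IsPrincipalIdealRing O] [Coef O] {P : Type}
  [Fintype P] [DecidableEq P] {L : Type} [AddCommGroup L] [Module.Free ℤ L] [Module.Finite ℤ L]

/-- A closed triple with unitarity and a finite set of disjoint killers. -/
structure Rkd (phi : L →+ (P → ℤ)) (D : AO O L) (r : ZMod 3 → L) (e : ZMod 3 → (RO O)ˣ)
    (mu : ZMod 3 → L →+ ℤ) (p : P) (t : L) (ep : (RO O)ˣ) {J : Type} [Fintype J] (R : J → L)
    (ta : J → (RO O)ˣ) : Prop where
  tri : Tri phi D r e mu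
  inj : Function.Injective phi
  bin : ∀ a ∈ supp D, Bin phi a
  prt : phi (r 0) p = 1
  rev : ∀ a, D.coeff (t - a) = (ep : RO O) * rsh (D.coeff a)
  top : ∀ i q, phi (r i) q = 1 → phi t q = 1
  topR : ∀ j q, phi (R j) q = 1 → phi t q = 1
  d0 : D.coeff 0 ≠ 0
  dr : D.coeff (r 0) ≠ 0
  kfl : ∀ j, Kfl phi (psi phi D r e mu) (R j) (ta j)
  dis : ∀ j j', j ≠ j' → Dj phi (R j) (R j')
  fr : ∀ j, Fr phi r mu (R j)

variable {phi : L →+ (P → ℤ)} {D : AO O L} {r : ZMod 3 → L} {e : ZMod 3 → (RO O)ˣ}
  {mu : ZMod 3 → L →+ ℤ} {p : P} {t : L} {ep : (RO O)ˣ} {J : Type} [Fintype J] {R : J → L}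
  {ta : J → (RO O)ˣ}

/-- The coefficients of `g0` at the exponents disjoint from `r 0`. -/
theorem g0_dj (h : Tri phi D r e mu) (hF1 : F1S) (hI : Function.Injective phi)
    (hb : ∀ a ∈ supp D, Bin phi a) (hp : phi (r 0) p = 1) {a : L} (hm : ∀ i, mu i a = 0)
    (hd : Dj phi (r 0) a) :
    (g0 phi D r e mu p).coeff a = D.coeff a + (e 0 : RO O) * D.coeff (a + r 0) := by
  have hpa : phi a p = 0 := (hd p).resolve_right (by rw [hp]; exact one_ne_zero)
  rw [g0_in ⟨hpa, hm⟩]
  by_cases hf : Fr phi r mu a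
  · rw [psi_in hf]
  · rw [psi_out hf]
    have h0 : D.coeff (a + r 0) = 0 := by
      by_contra hne
      rcases h.nf hF1 hI hb hne with h1 | ⟨i, u, hu, h1⟩ | ⟨i, u, hu, h1⟩
      · have h2 := h1 1
        rw [map_add, hm, show mu 1 (r 0) = -1 from h.prv 1] at h2
        norm_num at h2
      · have h2 := congrArg (mu 0) h1
        rw [map_add, map_add, hm, hu.2, h.slf] at h2
        rcases z3v i with rfl | rfl | rfl
        · apply hf
          have h3 : a = u := add_right_cancel h1
          rw [h3]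
          exact hu
        · rw [show mu 0 (r 1) = 1 from h.nxt 0] at h2
          norm_num at h2
        · rw [show mu 0 (r 2) = -1 from h.prv 0] at h2
          norm_num at h2
      · have h2 := congrArg (mu 0) h1
        have h3 := congrArg (mu 1) h1
        rw [map_add, map_add, map_add, hm, hu.2, h.slf] at h2
        rw [map_add, map_add, map_add, hm, hu.2, show mu 1 (r 0) = -1 from h.prv 1] at h3
        rcases z3v i with rfl | rfl | rfl
        · have e1 : (0 : ZMod 3) + 1 = 1 := by decide
          have e2 : (0 : ZMod 3) - 1 = 2 := by decide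
          rw [e1, e2, h.slf, show mu 1 (r 2) = 1 from h.nxt 1] at h3
          norm_num at h3
        · have e1 : (1 : ZMod 3) + 1 = 2 := by decide
          have e2 : (1 : ZMod 3) - 1 = 0 := by decide
          rw [e1, e2, h.slf, show mu 0 (r 2) = -1 from h.prv 0] at h2
          norm_num at h2
        · have e1 : (2 : ZMod 3) + 1 = 0 := by decide
          have e2 : (2 : ZMod 3) - 1 = 1 := by decide
          rw [e1, e2, h.slf, show mu 0 (r 1) = 1 from h.nxt 0] at h2
          norm_num at h2
    rw [h0, mul_zero]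

namespace Rkd

variable (H : Rkd phi D r e mu p t ep R ta)

include H

theorem rev_ne {a : L} (ha : D.coeff a ≠ 0) : D.coeff (t - a) ≠ 0 := by
  rw [H.rev]
  exact mul_ne_zero ep.ne_zero fun h => ha (H59.rsh_eq_zero.mp h)

theorem t_ne : D.coeff t ≠ 0 := by
  have h1 := H.rev_ne H.d0
  rwa [sub_zero] at h1

/-- An exponent with all ports of two rays of the triple. -/
theorem two (hF1 : F1S) {a : L} (ha : a ∈ supp D) {i j : ZMod 3} (hij : i ≠ j)
    (h1 : ∀ q, phi (r i) q = 1 → phi a q = 1) (h2 : ∀ q, phi (r j) q = 1 → phi a q = 1) :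
    (∀ n, mu n a = 0) ∨ ∃ u, Fr phi r mu u ∧ a = u + r i + r j := by
  have hport := fun n => H.tri.port H.inj n
  rcases H.tri.nf hF1 H.inj H.bin ha with h3 | ⟨n, u, hu, h3⟩ | ⟨n, u, hu, h3⟩
  · exact Or.inl h3
  · exfalso
    have key : ∀ m, m ≠ n → (∀ q, phi (r m) q = 1 → phi a q = 1) → False := by
      intro m hmn hm
      obtain ⟨q, hq⟩ := hport m
      have h4 := hm q hq
      rw [h3, map_add, Pi.add_apply, (hu.1 m q).resolve_right (by rw [hq]; exact one_ne_zero),
        (H.tri.dis m n hmn q).resolve_left (by rw [hq]; exact one_ne_zero)] at h4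
      norm_num at h4
    by_cases hin : i = n
    · exact key j (fun h => hij (hin.trans h.symm)) h2
    · exact key i hin h1
  · right
    have key : (∀ q, phi (r n) q = 1 → phi a q = 1) → False := by
      intro hm
      obtain ⟨q, hq⟩ := hport n
      have h4 := hm q hq
      rw [h3, map_add, map_add, Pi.add_apply, Pi.add_apply,
        (hu.1 n q).resolve_right (by rw [hq]; exact one_ne_zero),
        (H.tri.dis n (n + 1) (z3e n) q).resolve_left (by rw [hq]; exact one_ne_zero),
        (H.tri.dis n (n - 1) (z3f n) q).resolve_left (by rw [hq]; exact one_ne_zero)] at h4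
      norm_num at h4
    have hni : n ≠ i := fun h => key (h ▸ h1)
    have hnj : n ≠ j := fun h => key (h ▸ h2)
    refine ⟨u, hu, ?_⟩
    rcases z3h n i with h5 | h5 | h5
    · exact absurd h5.symm hni
    · rcases z3h n j with h6 | h6 | h6
      · exact absurd h6.symm hnj
      · exact absurd (h5.trans h6.symm) hij
      · rw [h5, h6, h3]
    · rcases z3h n j with h6 | h6 | h6
      · exact absurd h6.symm hnj
      · rw [h5, h6, h3, add_right_comm]
      · exact absurd (h5.trans h6.symm) hij

theorem mu_t (hF1 : F1S) (i : ZMod 3) : mu i t = 0 := by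
  rcases H.two hF1 (a := t) H.t_ne (i := i) (j := i + 1) (z3e i) (H.top i) (H.top (i + 1)) with
    h1 | ⟨u, hu, h1⟩
  · exact h1 i
  · exfalso
    obtain ⟨q, hq⟩ := H.tri.port H.inj (i - 1)
    have h2 := H.top _ q hq
    rw [h1, map_add, map_add, Pi.add_apply, Pi.add_apply,
      (hu.1 (i - 1) q).resolve_right (by rw [hq]; exact one_ne_zero),
      (H.tri.dis i (i - 1) (z3f i) q).resolve_right (by rw [hq]; exact one_ne_zero),
      (H.tri.dis (i + 1) (i - 1) (z3g i) q).resolve_right (by rw [hq]; exact one_ne_zero)] at h2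
    norm_num at h2

/-- The top of the free part. -/
theorem fr_t (hF1 : F1S) :
    Fr phi r mu (t - r 0 - r 1 - r 2) ∧ t - r 0 - r 1 - r 2 ∈ supp (psi phi D r e mu) := by
  have h0 := H.rev_ne H.dr
  have hc : ∀ i, i ≠ 0 → ∀ q, phi (r i) q = 1 → phi (t - r 0) q = 1 := by
    intro i hi q hq
    rw [map_sub, Pi.sub_apply, H.top i q hq,
      (H.tri.dis i 0 hi q).resolve_left (by rw [hq]; exact one_ne_zero), sub_zero]
  rcases H.two hF1 h0 (i := 1) (j := 2) (by decide) (hc 1 (by decide)) (hc 2 (by decide)) with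
    h1 | ⟨u, hu, h1⟩
  · exfalso
    have h2 := h1 1
    rw [map_sub, H.mu_t hF1, show mu 1 (r 0) = -1 from H.tri.prv 1] at h2
    norm_num at h2
  · have h2 : t - r 0 - r 1 - r 2 = u := by
      rw [h1]
      abel
    rw [h2]
    refine ⟨hu, ?_⟩
    change (psi phi D r e mu).coeff u ≠ 0
    rw [psi_rr H.tri hF1 H.inj H.bin hu (i := 1) (j := 2) (by decide), ← h1]
    exact neg_ne_zero.mpr (mul_ne_zero (mul_ne_zero (e 1).ne_zero (e 2).ne_zero) h0)

theorem phi_R {j j' : J} (hj : j ≠ j') {q : P} (hq : phi (R j) q = 1) : phi (R j') q = 0 :=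
  (H.dis j j' hj q).resolve_right (by rw [hq]; exact one_ne_zero)

/-- The ports of a killer in the top. -/
theorem fr_tR {j : J} {q : P} (hq : phi (R j) q = 1) : phi (t - r 0 - r 1 - r 2) q = 1 := by
  have h1 : ∀ i, phi (r i) q = 0 := fun i =>
    ((H.fr j).1 i q).resolve_left (by rw [hq]; exact one_ne_zero)
  rw [map_sub, map_sub, map_sub, Pi.sub_apply, Pi.sub_apply, Pi.sub_apply, H.topR j q hq, h1, h1,
    h1]
  norm_num

theorem sub_supp (hF1 : F1S) [DecidableEq J] (s : Finset J) :
    t - r 0 - r 1 - r 2 - ∑ j ∈ s, R j ∈ supp (psi phi D r e mu) := by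
  induction s using Finset.induction_on with
  | empty =>
    rw [Finset.sum_empty, sub_zero]
    exact (H.fr_t hF1).2
  | insert i s hi ih =>
    rw [Finset.sum_insert hi]
    set v := t - r 0 - r 1 - r 2 - ∑ j ∈ s, R j with hv
    have h1 : t - r 0 - r 1 - r 2 - (R i + ∑ j ∈ s, R j) = v - R i := by
      rw [hv]
      abel
    rw [h1]
    have h2 : Dj phi (R i) (v - R i) := by
      intro q
      rcases (H.kfl i).bin q with hq | hq
      · exact Or.inr hq
      · left
        rw [map_sub, Pi.sub_apply, hv, map_sub, Pi.sub_apply, H.fr_tR hq, map_sum,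
          Finset.sum_apply, Finset.sum_eq_zero (fun j hj => H.phi_R (j := i) (j' := j)
            (fun h3 => hi (by rw [h3]; exact hj)) hq), hq]
        norm_num
    have h3 := (H.kfl i).dj _ h2
    rw [sub_add_cancel] at h3
    intro h4
    change (psi phi D r e mu).coeff (v - R i) = 0 at h4
    rw [h4, zero_add] at h3
    exact ih ((mul_eq_zero.mp h3).resolve_left (ta i).ne_zero)

/-- The exponent of the part without killers. -/
theorem bot (hF1 : F1S) : t - r 0 - r 1 - r 2 - ∑ j, R j ∈ supp (psi phi D r e mu) ∧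
    ∀ j, Dj phi (R j) (t - r 0 - r 1 - r 2 - ∑ j, R j) := by
  classical
  refine ⟨H.sub_supp hF1 Finset.univ, fun j q => ?_⟩
  rcases (H.kfl j).bin q with hq | hq
  · exact Or.inr hq
  · left
    rw [map_sub, Pi.sub_apply, H.fr_tR hq, map_sum, Finset.sum_apply,
      Finset.sum_eq_single j (fun j' _ hj => H.phi_R (Ne.symm hj) hq)
        (fun hn => absurd (Finset.mem_univ _) hn), hq]
    norm_num

variable {rho : L →+ ℤ}

theorem rho_t (hF1 : F1S)
    (h2 : ∀ u ∈ supp (psi phi D r e mu), (∀ j, Dj phi (R j) u) → rho u = 0)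
    (z0 : rho (r 0) = 0) (z1 : rho (r 1) = 0) (z2 : rho (r 2) = -∑ j, rho (R j)) :
    rho t = 0 := by
  obtain ⟨h3, h4⟩ := H.bot hF1
  have h5 := h2 _ h3 h4
  rw [map_sub, map_sub, map_sub, map_sub, map_sum, z0, z1, z2] at h5
  linarith

/-- (R1) -/
theorem kills (hV : VcoS) (hF1 : F1S) (h1 : ∀ a ∈ supp (g0 phi D r e mu p), rho a = 0)
    (h2 : ∀ u ∈ supp (psi phi D r e mu), (∀ j, Dj phi (R j) u) → rho u = 0)
    (z0 : rho (r 0) = 0) (z1 : rho (r 1) = 0) (z2 : rho (r 2) = -∑ j, rho (R j)) :
    ∀ a ∈ US (e 0) (r 0) D, rho a = 0 := by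
  obtain ⟨v1, v2, v3, v4, -⟩ := hV O P L phi D (r 0) (e 0) H.inj H.bin (H.tri.bin 0) (H.tri.nz 0)
  have ht := H.rho_t hF1 h2 z0 z1 z2
  have hrs : rsh (e 0 : RO O) * (e 0 : RO O) = 1 := by
    exact H24.rsh_unit (e 0)
  -- disjoint from `r 0`
  have kB : ∀ a, (∀ i, mu i a = 0) → Dj phi (r 0) a → vco (e 0) (r 0) D a ≠ 0 → rho a = 0 := by
    intro a hm hd hv
    apply h1
    change (g0 phi D r e mu p).coeff a ≠ 0
    rw [g0_dj H.tri hF1 H.inj H.bin H.prt hm hd, ← v3 a hd]
    exact hv
  -- complements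
  have kT : ∀ a, rho (t - a) = 0 → rho a = 0 := by
    intro a ha
    rw [map_sub, ht] at ha
    omega
  have mT : ∀ a, (∀ i, mu i a = 0) → ∀ i, mu i (t - a) = 0 := by
    intro a ha i
    rw [map_sub, H.mu_t hF1, ha, sub_zero]
  -- containing `r 0`
  have kD : ∀ b, (∀ i, mu i b = 0) → (∀ q, phi (r 0) q = 1 → phi b q = 1) →
      vco (e 0) (r 0) D (b - r 0) ≠ 0 → rho b = 0 := by
    intro b hm hd hv
    have d1 : Dj phi (r 0) (b - r 0) := by
      intro q
      rcases H.tri.bin 0 q with hq | hq
      · exact Or.inr hq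
      · left
        rw [map_sub, Pi.sub_apply, hd q hq, hq, sub_self]
    have d2 : Dj phi (r 0) (t - b) := by
      intro q
      rcases H.tri.bin 0 q with hq | hq
      · exact Or.inr hq
      · left
        rw [map_sub, Pi.sub_apply, hd q hq, H.top 0 q hq, sub_self]
    rw [v3 _ d1, sub_add_cancel] at hv
    apply kT
    apply kB _ (mT b hm) d2
    rw [v3 _ d2, H.rev]
    have h3 : t - b + r 0 = t - (b - r 0) := by abel
    rw [h3, H.rev]
    have h4 : (ep : RO O) * rsh (D.coeff b) + (e 0 : RO O) * ((ep : RO O) *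
        rsh (D.coeff (b - r 0))) = (ep : RO O) * (e 0 : RO O) *
          rsh (D.coeff (b - r 0) + (e 0 : RO O) * D.coeff b) := by
      rw [map_add, map_mul]
      linear_combination (-(ep : RO O) * rsh (D.coeff b)) * hrs
    rw [h4]
    exact mul_ne_zero (mul_ne_zero ep.ne_zero (e 0).ne_zero) fun h5 =>
      hv (H59.rsh_eq_zero.mp h5)
  -- partial at `r 0`
  have kC : ∀ a ∈ supp D, (∀ i, mu i a = 0) → ¬ Dj phi (r 0) a →
      ¬ (∀ q, phi (r 0) q = 1 → phi a q = 1) → rho a = 0 := by
    have key : ∀ a ∈ supp D, (∀ i, mu i a = 0) → ¬ Dj phi (r 0) a → phi a p = 0 → rho a = 0 := by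
      intro a ha hm hnd hpa
      apply h1
      change (g0 phi D r e mu p).coeff a ≠ 0
      rw [g0_in ⟨hpa, hm⟩, psi_out (fun hf => hnd (hf.1 0)), add_zero]
      exact ha
    intro a ha hm hnd hnc
    rcases H.bin a ha p with hpa | hpa
    · exact key a ha hm hnd hpa
    · apply kT
      refine key _ (H.rev_ne ha) (mT a hm) ?_ ?_
      · intro hdj
        apply hnc
        intro q hq
        have h3 := (hdj q).resolve_right (by rw [hq]; exact one_ne_zero)
        rw [map_sub, Pi.sub_apply, H.top 0 q hq] at h3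
        omega
      · rw [map_sub, Pi.sub_apply, hpa, H.top 0 p H.prt, sub_self]
  -- exponents
  have kS : ∀ a ∈ supp D, vco (e 0) (r 0) D a ≠ 0 → rho a = 0 := by
    intro a ha hv
    have ham : mu 0 a = 0 := by
      apply H.tri.us 0
      exact ⟨1, one_ne_zero, by
        rw [one_smul]
        exact Submodule.subset_span (Or.inr hv)⟩
    rcases H.tri.nf hF1 H.inj H.bin ha with h3 | ⟨i, u, hu, h3⟩ | ⟨i, u, hu, h3⟩
    · by_cases hd : Dj phi (r 0) a
      · exact kB a h3 hd hv
      · by_cases hc : ∀ q, phi (r 0) q = 1 → phi a q = 1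
        · apply kD a h3 hc
          have h4 := v1 a (-1)
          rw [neg_one_smul, ← sub_eq_add_neg] at h4
          rw [h4]
          exact mul_ne_zero (Units.ne_zero _) hv
        · exact kC a ha h3 hd hc
    · have hi : i = 0 := by
        have h4 := congrArg (mu 0) h3
        rw [map_add, ham, hu.2] at h4
        rcases z3v i with rfl | rfl | rfl
        · rfl
        · rw [show mu 0 (r 1) = 1 from H.tri.nxt 0] at h4
          norm_num at h4
        · rw [show mu 0 (r 2) = -1 from H.tri.prv 0] at h4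
          norm_num at h4
      subst hi
      rw [h3, map_add, z0, add_zero]
      apply kB u hu.2 (hu.1 0)
      intro h4
      apply hv
      have h5 := v1 u 1
      rw [one_smul, ← h3, h4, mul_zero] at h5
      exact h5
    · have hi : i = 0 := by
        have h4 := congrArg (mu 0) h3
        rw [map_add, map_add, ham, hu.2] at h4
        rcases z3v i with rfl | rfl | rfl
        · rfl
        · have e1 : (1 : ZMod 3) + 1 = 2 := by decide
          have e2 : (1 : ZMod 3) - 1 = 0 := by decide
          rw [e1, e2, H.tri.slf, show mu 0 (r 2) = -1 from H.tri.prv 0] at h4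
          norm_num at h4
        · have e1 : (2 : ZMod 3) + 1 = 0 := by decide
          have e2 : (2 : ZMod 3) - 1 = 1 := by decide
          rw [e1, e2, H.tri.slf, show mu 0 (r 1) = 1 from H.tri.nxt 0] at h4
          norm_num at h4
      subst hi
      have e1 : (0 : ZMod 3) + 1 = 1 := by decide
      have e2 : (0 : ZMod 3) - 1 = 2 := by decide
      rw [e1, e2] at h3
      have h4 : rho (a + r 0) = 0 := by
        apply kD
        · intro i
          rw [h3, map_add, map_add, map_add, hu.2]
          rcases z3v i with rfl | rfl | rfl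
          · rw [show mu 0 (r 1) = 1 from H.tri.nxt 0, show mu 0 (r 2) = -1 from H.tri.prv 0,
              H.tri.slf]
            norm_num
          · rw [show mu 1 (r 2) = 1 from H.tri.nxt 1, show mu 1 (r 0) = -1 from H.tri.prv 1,
              H.tri.slf]
            norm_num
          · rw [show mu 2 (r 0) = 1 from H.tri.nxt 2, show mu 2 (r 1) = -1 from H.tri.prv 2,
              H.tri.slf]
            norm_num
        · intro q hq
          have h5 : phi a q = 0 := by
            rw [h3, map_add, map_add, Pi.add_apply, Pi.add_apply,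
              (hu.1 0 q).resolve_right (by rw [hq]; exact one_ne_zero),
              (H.tri.dis 0 1 (by decide) q).resolve_left (by rw [hq]; exact one_ne_zero),
              (H.tri.dis 0 2 (by decide) q).resolve_left (by rw [hq]; exact one_ne_zero)]
            norm_num
          rw [map_add, Pi.add_apply, h5, hq, zero_add]
        · rw [add_sub_cancel_right]
          exact hv
      rw [map_add, z0, add_zero] at h4
      exact h4
  -- all of `U`
  have kV : ∀ a, vco (e 0) (r 0) D a ≠ 0 → rho a = 0 := by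
    intro a hv
    obtain ⟨k, hk⟩ := v2 a hv
    have h3 := kS _ hk (by
      rw [v1]
      exact mul_ne_zero (Units.ne_zero _) hv)
    rw [map_add, map_zsmul, z0, smul_zero, add_zero] at h3
    exact h3
  rintro a ⟨n, hn, ha⟩
  have hsp : ∀ x ∈ Submodule.span ℤ (insert (r 0) {a : L | vco (e 0) (r 0) D a ≠ 0}),
      rho x = 0 := by
    intro x hx
    induction hx using Submodule.span_induction with
    | mem x hx =>
      rcases hx with rfl | hx
      · exact z0
      · exact kV x hx
    | zero => exact map_zero _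
    | add x y _ _ hx hy => rw [map_add, hx, hy, add_zero]
    | smul c x _ hx => rw [map_zsmul, hx, smul_zero]
  have h3 := hsp _ ha
  rw [map_zsmul, smul_eq_mul] at h3
  exact (mul_eq_zero.mp h3).resolve_left hn

end Rkd

end

end Pool.Agent.B5.KO52
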