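import Pool.Agent.Lib.MP_b5021c_nt.KO.H52.Rk1
import Pool.Agent.Lib.MP_b5021c_nt.B.H56.Gen

/-!
# MP_b5021c_nt, all `θ`, K ODD, leaf O4, `l = 3`, row TK_DT, (R2): the rank, abstract form (helper52)
-/

set_option linter.unusedSectionVars false

namespace Pool.Agent.B5.KO52

open scoped LaurentPolynomial
open AddMonoidAlgebra
open Pool.Agent.B5.KO.H71 (Tri Fr z3a z3b z3c z3d z3e z3f z3g z3v z3h)
open Pool.Agent.B5.KO.H40 (flt flt_in flt_out mon_mul_coeff)

section

variable {L : Type} [AddCommGroup L] [Module.Free ℤ L] [Module.Finite ℤ L]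

/-- If only the zero functional kills `T`, then `T` has full rank. -/
theorem rk_full (hRk : RkS) {T : Set L} (h : ∀ rho : L →+ ℤ, (∀ a ∈ T, rho a = 0) → rho = 0) :
    Module.finrank ℤ L ≤ rk T := by
  have h1 : rk (Set.univ : Set L) = Module.finrank ℤ L := by
    unfold rk
    rw [Submodule.span_univ]
    exact finrank_top ℤ L
  rw [← h1]
  refine (hRk L L).2.2.2.2.2.2.2.2.1 _ _ fun a _ => ?_
  by_contra hne
  push Not at hne
  have hsat : Sat (satur (Submodule.span ℤ T)) := by
    rintro n x hn ⟨m, hm, hx⟩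
    exact ⟨m * n, mul_ne_zero hm hn, by rw [mul_smul]; exact hx⟩
  have ha : a ∉ satur (Submodule.span ℤ T) := by
    rintro ⟨n, hn, hx⟩
    exact hne n hn hx
  obtain ⟨nu, h2, h3⟩ := H56.exists_sep L _ hsat a ha
  apply h3
  rw [h nu fun b hb => h2 b ⟨1, one_ne_zero, by rw [one_smul]; exact Submodule.subset_span hb⟩]
  rfl

end

section

variable {O : Type} [CommRing O] [IsDomain O] [IsPrincipalIdealRing O] [Coef O] {P : Type}
  [Fintype P] [DecidableEq P] {L : Type} [AddCommGroup L] [Module.Free ℤ L] [Module.Finite ℤ L]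

variable {phi : L →+ (P → ℤ)} {D E : AO O L} {r : ZMod 3 → L} {e : ZMod 3 → (RO O)ˣ}
  {mu : ZMod 3 → L →+ ℤ} {p : P} {t : L} {ep : (RO O)ˣ} {J : Type} [Fintype J] {R : J → L}
  {ta : J → (RO O)ˣ}

/-- (R2) THE RANK. -/
theorem Rkd.rank (H : Rkd phi D r e mu p t ep R ta) (hRk : RkS) (hV : VcoS) (hF1 : F1S)
    (hE : ∀ u ∈ supp (psi phi D r e mu), (∀ j, Dj phi (R j) u) → u ∈ supp E)
    (hE' : ∀ u ∈ supp E, Fr phi r mu u) (j0 : J)
    (hfin : ∀ rho : L →+ ℤ, (∀ a ∈ US (e 0) (r 0) D, rho a = 0) → rho (r 1) = 0 →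
      (∀ a ∈ supp E, rho a = 0) → rho (R j0) = 0 → rho = 0)
    {nu : L →+ ℤ} (hn1 : ∀ a ∈ supp (g0 phi D r e mu p), nu a = 0)
    (hn2 : ∀ a ∈ supp E, nu a = 0) (hn3 : nu (R j0) ≠ 0) :
    rk (supp (g0 phi D r e mu p) ∪ supp E) + 4 = Module.finrank ℤ L := by
  classical
  set W : Set L := supp (g0 phi D r e mu p) ∪ supp E with hW
  have h := H.tri
  have pr1 : phi (r 1) p = 0 := (p12 h H.prt).1
  have pr2 : phi (r 2) p = 0 := (p12 h H.prt).2
  have pR : ∀ j, phi (R j) p = 0 := fun j => fr_p H.prt (H.fr j)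
  have hWi : ∀ a ∈ W, phi a p = 0 ∧ (∀ i, mu i a = 0) ∧ nu a = 0 := by
    rintro a (ha | ha)
    · exact ⟨(g0_supp ha).1.1, (g0_supp ha).1.2, hn1 a ha⟩
    · exact ⟨fr_p H.prt (hE' a ha), (hE' a ha).2, hn2 a ha⟩
  have hWs : ∀ x ∈ Submodule.span ℤ W, phi x p = 0 ∧ (∀ i, mu i x = 0) ∧ nu x = 0 := by
    intro x hx
    induction hx using Submodule.span_induction with
    | mem x hx => exact hWi x hx
    | zero => exact ⟨by rw [map_zero]; rfl, fun _ => map_zero _, map_zero _⟩
    | add x y _ _ hx hy =>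
      refine ⟨by rw [map_add, Pi.add_apply, hx.1, hy.1, add_zero], fun i => ?_, ?_⟩
      · rw [map_add, hx.2.1, hy.2.1, add_zero]
      · rw [map_add, hx.2.2, hy.2.2, add_zero]
    | smul c x _ hx =>
      refine ⟨by rw [map_zsmul, Pi.smul_apply, hx.1, smul_zero], fun i => ?_, ?_⟩
      · rw [map_zsmul, hx.2.1, smul_zero]
      · rw [map_zsmul, hx.2.2, smul_zero]
  let zz : Fin 4 → L := ![r 0, r 1, r 2, R j0]
  apply le_antisymm
  · let f : (Submodule.span ℤ W) × (Fin 4 → ℤ) →ₗ[ℤ] L :=
      LinearMap.coprod (Submodule.span ℤ W).subtype (Fintype.linearCombination ℤ zz)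
    have hfa : ∀ x : (Submodule.span ℤ W) × (Fin 4 → ℤ), f x = (x.1 : L) +
        (x.2 0 • r 0 + x.2 1 • r 1 + x.2 2 • r 2 + x.2 3 • R j0) := by
      intro x
      change ((x.1 : L)) + Fintype.linearCombination ℤ zz x.2 = _
      rw [Fintype.linearCombination_apply, Fin.sum_univ_four]
      rfl
    have hf : Function.Injective f := by
      rw [← LinearMap.ker_eq_bot, LinearMap.ker_eq_bot']
      intro x hx
      rw [hfa] at hx
      obtain ⟨h1, h2, h3⟩ := hWs _ x.1.2
      have k0 : x.2 0 = 0 := by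
        have h4 := congrArg (fun y => phi y p) hx
        simp only [map_add, map_zsmul, Pi.add_apply, Pi.smul_apply, map_zero, Pi.zero_apply, h1,
          H.prt, pr1, pr2, pR, smul_zero, add_zero, zero_add, smul_eq_mul, mul_one,
          mul_zero] at h4
        exact h4
      have m0 := congrArg (fun y => mu 0 y) hx
      have m1 := congrArg (fun y => mu 1 y) hx
      have m2 := congrArg (fun y => nu y) hx
      simp only [map_add, map_zsmul, map_zero, h2, (H.fr j0).2, smul_eq_mul, mul_zero, add_zero,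
        zero_add, h.slf, show mu 0 (r 1) = 1 from h.nxt 0, show mu 0 (r 2) = -1 from h.prv 0] at m0
      simp only [map_add, map_zsmul, map_zero, h2, (H.fr j0).2, smul_eq_mul, mul_zero, add_zero,
        zero_add, h.slf, show mu 1 (r 2) = 1 from h.nxt 1, show mu 1 (r 0) = -1 from h.prv 1] at m1
      have k2 : x.2 2 = 0 := by omega
      have k1 : x.2 1 = 0 := by omega
      have k3 : x.2 3 = 0 := by
        simp only [map_add, map_zsmul, map_zero, h3, k0, k1, k2, zero_smul, smul_eq_mul,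
          zero_add] at m2
        exact (mul_eq_zero.mp m2).resolve_right hn3
      have hx1 : x.1 = 0 := by
        apply Subtype.ext
        rw [k0, k1, k2, k3, zero_smul, zero_smul, zero_smul, zero_smul, add_zero, add_zero,
          add_zero, add_zero] at hx
        exact hx
      refine Prod.ext hx1 (funext fun i => ?_)
      fin_cases i
      · exact k0
      · exact k1
      · exact k2
      · exact k3
    have h1 := LinearMap.finrank_le_finrank_of_injective hf
    rw [Module.finrank_prod, Module.finrank_fin_fun] at h1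
    exact h1
  · obtain ⟨-, -, -, -, -, hun, hone, -, -, -⟩ := hRk L L
    have rj0 : R j0 ≠ 0 := by
      intro h0
      apply hn3
      rw [h0, map_zero]
    have h3 : rk ({r 0} ∪ ({r 1} ∪ ({r 2} ∪ {R j0})) : Set L) ≤ 4 := by
      have e1 := hun {r 0} ({r 1} ∪ ({r 2} ∪ {R j0}))
      have e2 := hun {r 1} ({r 2} ∪ {R j0})
      have e3 := hun {r 2} {R j0}
      rw [hone _ (h.nz 0)] at e1
      rw [hone _ (h.nz 1)] at e2
      rw [hone _ (h.nz 2), hone _ rj0] at e3
      omega
    have h4 : Module.finrank ℤ L ≤ rk (W ∪ ({r 0} ∪ ({r 1} ∪ ({r 2} ∪ {R j0})))) := by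
      apply rk_full hRk
      intro rho hr
      have a0 : rho (r 0) = 0 := hr _ (Or.inr (Or.inl rfl))
      have a1 : rho (r 1) = 0 := hr _ (Or.inr (Or.inr (Or.inl rfl)))
      have a2 : rho (r 2) = 0 := hr _ (Or.inr (Or.inr (Or.inr (Or.inl rfl))))
      have a3 : rho (R j0) = 0 := hr _ (Or.inr (Or.inr (Or.inr (Or.inr rfl))))
      set s : ℤ := -∑ j, rho (R j) with hs
      set rho2 : L →+ ℤ := rho + s • co phi p + s • mu 1 with hr2
      have v : ∀ x, rho2 x = rho x + s * phi x p + s * mu 1 x := fun x => rfl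
      have vR : ∀ j, rho2 (R j) = rho (R j) := by
        intro j
        rw [v, pR, (H.fr j).2, mul_zero, add_zero, add_zero]
      have vW : ∀ a ∈ W, rho2 a = 0 := by
        intro a ha
        rw [v, hr a (Or.inl ha), (hWi a ha).1, (hWi a ha).2.1, mul_zero, add_zero, add_zero]
      have b0 : rho2 (r 0) = 0 := by
        rw [v, a0, H.prt, show mu 1 (r 0) = -1 from h.prv 1]
        ring
      have b1 : rho2 (r 1) = 0 := by
        rw [v, a1, pr1, h.slf]
        ring
      have b2 : rho2 (r 2) = s := by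
        rw [v, a2, pr2, show mu 1 (r 2) = 1 from h.nxt 1]
        ring
      have hk := H.kills hV hF1 (rho := rho2) (fun a ha => vW a (Or.inl ha))
        (fun u hu hj => vW u (Or.inr (hE u hu hj))) b0 b1 (by
          rw [b2, hs]
          congr 1
          exact Finset.sum_congr rfl fun j _ => (vR j).symm)
      have h0 := hfin rho2 hk b1 (fun a ha => vW a (Or.inr ha)) (by rw [vR, a3])
      have s0 : s = 0 := by
        rw [← b2, h0]
        rfl
      rw [hr2, s0, zero_smul, zero_smul, add_zero, add_zero] at h0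
      exact h0
    have h5 := hun W ({r 0} ∪ ({r 1} ∪ ({r 2} ∪ {R j0})))
    omega

end

end Pool.Agent.B5.KO52
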