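import Pool.Agent.Lib.MP_b5021c_nt.KO.H67.Ivz

/-!
# MP_b5021c_nt, all `θ`, K ODD, (O1-iv): the pairs `(E_0, e) = (j + s F, 1 + F)`, `|F_k| ≤ 1`

(U43) `e = (1 + X)^2 f` is impossible; (U44) the relation of (4.4) is impossible, `j ≥ 3`.
-/

namespace Pool.Agent.B5.H52.Uf

open Polynomial

/-! ## Polynomials with coefficients in `{-1, 0, 1}` -/

theorem abs_le0 {G : ℤ[X]} (hG : ∀ k, |G.coeff k| ≤ 1) {x : ℝ} (hx0 : 0 ≤ x) (hx1 : x < 1) :
    |(aeval x G : ℝ)| ≤ 1 / (1 - x) := by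
  rw [aeval_eq_sum_range]
  calc |∑ i ∈ Finset.range (G.natDegree + 1), G.coeff i • x ^ i|
      ≤ ∑ i ∈ Finset.range (G.natDegree + 1), |G.coeff i • x ^ i| :=
        Finset.abs_sum_le_sum_abs _ _
    _ ≤ ∑ i ∈ Finset.range (G.natDegree + 1), x ^ i := by
        refine Finset.sum_le_sum fun i _ => ?_
        have h1 : (|G.coeff i| : ℤ) ≤ 1 := hG i
        have h2 : |((G.coeff i : ℤ) : ℝ)| ≤ 1 := by
          have : ((|G.coeff i| : ℤ) : ℝ) ≤ 1 := by exact_mod_cast h1
          rwa [Int.cast_abs] at this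
        rw [zsmul_eq_mul, abs_mul, abs_of_nonneg (pow_nonneg hx0 i)]
        exact mul_le_of_le_one_left (pow_nonneg hx0 i) h2
    _ ≤ 1 / (1 - x) := by
        have h3 : (∑ i ∈ Finset.range (G.natDegree + 1), x ^ i) * (1 - x) =
            1 - x ^ (G.natDegree + 1) := by
          have := geom_sum_mul_neg x (G.natDegree + 1)
          linarith
        rw [le_div_iff₀ (by linarith), h3]
        have := pow_nonneg hx0 (G.natDegree + 1)
        linarith

theorem abs_le1 {F : ℤ[X]} {m : ℕ} (h0 : ∀ k < m, F.coeff k = 0) (hF : ∀ k, |F.coeff k| ≤ 1)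
    {x : ℝ} (hx0 : 0 ≤ x) (hx1 : x < 1) : |(aeval x F : ℝ)| ≤ x ^ m / (1 - x) := by
  obtain ⟨G, rfl⟩ := X_pow_dvd_iff.mpr h0
  have hG : ∀ k, |G.coeff k| ≤ 1 := by
    intro k
    have h1 := hF (k + m)
    rwa [coeff_X_pow_mul] at h1
  have h2 := abs_le0 hG hx0 hx1
  rw [map_mul, map_pow, aeval_X, abs_mul, abs_of_nonneg (pow_nonneg hx0 m)]
  calc x ^ m * |(aeval x G : ℝ)| ≤ x ^ m * (1 / (1 - x)) :=
        mul_le_mul_of_nonneg_left h2 (pow_nonneg hx0 m)
    _ = _ := by ring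

/-- The first coefficient is `1`. -/
theorem first_pos {F : ℤ[X]} {m : ℕ} (h0 : ∀ k < m, F.coeff k = 0) (hF : ∀ k, |F.coeff k| ≤ 1)
    (hm : F.coeff m = 1) {x : ℝ} (hx0 : 0 ≤ x) (hx1 : x < 1) :
    x ^ m - x ^ (m + 1) / (1 - x) ≤ (aeval x F : ℝ) := by
  have h1 : ∀ k < m + 1, (F - X ^ m).coeff k = 0 := by
    intro k hk
    rw [coeff_sub, coeff_X_pow]
    rcases Nat.lt_succ_iff_lt_or_eq.mp hk with h | h
    · rw [h0 k h, if_neg h.ne, sub_zero]
    · rw [h, hm, if_pos rfl, sub_self]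
  have h2 : ∀ k, |(F - X ^ m).coeff k| ≤ 1 := by
    intro k
    rw [coeff_sub, coeff_X_pow]
    by_cases h : k = m
    · rw [h, hm, if_pos rfl]
      norm_num
    · rw [if_neg h, sub_zero]
      exact hF k
  have h3 := (abs_le.mp (abs_le1 h1 h2 hx0 hx1)).1
  rw [map_sub, map_pow, aeval_X] at h3
  linarith

theorem pos_aux {x : ℝ} (hx0 : 0 < x) (hx1 : x < 1 / 2) (m : ℕ) :
    0 < x ^ m - x ^ (m + 1) / (1 - x) := by
  have hne : (1 - x) ≠ 0 := (by linarith : (0 : ℝ) < 1 - x).ne'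
  have h1 : x ^ m - x ^ (m + 1) / (1 - x) = x ^ m * ((1 - 2 * x) / (1 - x)) := by
    rw [pow_succ]
    field_simp
    ring
  rw [h1]
  exact mul_pos (pow_pos hx0 m) (div_pos (by linarith) (by linarith))

/-- `F(x) > x` and `F(y) ≤ y` is impossible for `0 < x, y < 1/2`. -/
theorem two_pts {F : ℤ[X]} (h0 : F.coeff 0 = 0) (hF : ∀ k, |F.coeff k| ≤ 1) {x y : ℝ}
    (hx0 : 0 < x) (hx1 : x < 1 / 2) (hy0 : 0 < y) (hy1 : y < 1 / 2)
    (hx : x < (aeval x F : ℝ)) (hy : (aeval y F : ℝ) ≤ y) : False := by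
  have hb := abs_le.mp (hF 1)
  -- `F_1 = 1`
  have hF1 : F.coeff 1 = 1 := by
    by_contra hne
    have h2 : ∀ k < 2, (F - C (F.coeff 1) * X).coeff k = 0 := by
      intro k hk
      interval_cases k
      · simp [h0]
      · simp
    have h3 : ∀ k, |(F - C (F.coeff 1) * X).coeff k| ≤ 1 := by
      intro k
      rw [coeff_sub, coeff_C_mul_X]
      by_cases h : k = 1
      · rw [if_pos h, h, sub_self]
        norm_num
      · rw [if_neg h, sub_zero]
        exact hF k
    have h4 := (abs_le.mp (abs_le1 h2 h3 hx0.le (by linarith))).2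
    rw [map_sub, map_mul, aeval_C, aeval_X] at h4
    have h5 : ((F.coeff 1 : ℤ) : ℝ) ≤ 0 := by
      have : F.coeff 1 ≤ 0 := by omega
      exact_mod_cast this
    have h6 : x ^ 2 / (1 - x) ≤ x := by
      rw [div_le_iff₀ (by linarith)]
      nlinarith
    have h7 : (algebraMap ℤ ℝ (F.coeff 1)) * x ≤ 0 := by
      rw [eq_intCast]
      exact mul_nonpos_of_nonpos_of_nonneg h5 hx0.le
    linarith
  set G := F - X with hG
  have hG0 : G ≠ 0 := by
    intro h
    have h1 : (aeval x G : ℝ) = 0 := by rw [h, map_zero]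
    rw [hG, map_sub, aeval_X] at h1
    linarith
  have hGc : ∀ k, |G.coeff k| ≤ 1 := by
    intro k
    rw [hG, coeff_sub, coeff_X]
    by_cases h : 1 = k
    · rw [if_pos h, ← h, hF1, sub_self]
      norm_num
    · rw [if_neg h, sub_zero]
      exact hF k
  have hGx : 0 < (aeval x G : ℝ) := by
    rw [hG, map_sub, aeval_X]
    linarith
  have hGy : (aeval y G : ℝ) ≤ 0 := by
    rw [hG, map_sub, aeval_X]
    linarith
  set m := G.natTrailingDegree with hm
  have hlow : ∀ k < m, G.coeff k = 0 := fun k hk => coeff_eq_zero_of_lt_natTrailingDegree hk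
  have hcm : G.coeff m ≠ 0 := by
    have := trailingCoeff_nonzero_iff_nonzero.mpr hG0
    exact this
  have hb2 := abs_le.mp (hGc m)
  rcases (by omega : G.coeff m = 1 ∨ G.coeff m = -1) with h | h
  · have h1 := first_pos hlow hGc h hy0.le (by linarith)
    have h2 := pos_aux hy0 hy1 m
    linarith
  · have h3 : ∀ k < m, (-G).coeff k = 0 := fun k hk => by rw [coeff_neg, hlow k hk, neg_zero]
    have h4 : ∀ k, |(-G).coeff k| ≤ 1 := fun k => by rw [coeff_neg, abs_neg]; exact hGc k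
    have h5 : (-G).coeff m = 1 := by rw [coeff_neg, h, neg_neg]
    have h1 := first_pos h3 h4 h5 hx0.le (by linarith)
    have h2 := pos_aux hx0 hx1 m
    rw [map_neg] at h1
    linarith

end Pool.Agent.B5.H52.Uf

namespace Pool.Agent.B5.OOne

open Polynomial Metric Filter Topology
open Pool.Agent.B5.Nr.Car (Cara)
open Pool.Agent.B5.Nr.Sch
open Pool.Agent.B5.H52.Uf

variable {q f E F : ℤ[X]} {a p : ℝ} {j : ℕ}

/-- (U43) a unit ray of `E` with the coefficient `(1 + z)^2 f` of the form `1 + F`. -/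
theorem IvD.u43 (h : IvD q f E a p j) (h0 : F.coeff 0 = 0) (hF : ∀ k, |F.coeff k| ≤ 1) {s : ℕ}
    (hs : 1 ≤ s) (hsj : s + 1 ≤ j) (hE : E = C (j : ℤ) + C (s : ℤ) * F)
    (he : (1 + X) ^ 2 * f = 1 + F) : False := by
  obtain ⟨h1, h2, h3⟩ := h.pb
  have hp0 := h.o.p0
  have hj : (2 : ℝ) ≤ j := by exact_mod_cast h.o.j2
  have hs1 : (1 : ℝ) ≤ s := by exact_mod_cast hs
  have hsj1 : (s : ℝ) + 1 ≤ j := by exact_mod_cast hsj
  set J : ℝ := (j : ℝ) with hJ
  set σ : ℝ := (s : ℝ) with hσ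
  have eE : ∀ x : ℝ, (aeval x E : ℝ) = J + σ * aeval x F := by
    intro x
    rw [hE, map_add, map_mul, aeval_C, aeval_C]
    simp [hJ, hσ]
  have ef : ∀ x : ℝ, (1 + x) ^ 2 * (aeval x f : ℝ) = 1 + aeval x F := by
    intro x
    have h4 := congrArg (fun P => (aeval x P : ℝ)) he
    simp only [map_mul, map_add, map_pow, map_one, aeval_X] at h4
    exact h4
  -- the point `x = 1/(j+1)`
  set x : ℝ := 1 / (J + 1) with hx
  have hx0 : 0 < x := by rw [hx]; positivity
  have hxJ : x * (J + 1) = 1 := by rw [hx]; field_simp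
  have hx3 : x ≤ 1 / 3 := by
    rw [hx]
    exact one_div_le_one_div_of_le (by norm_num) (by linarith)
  have hxa : x < a := by
    have := h.o.lt
    rw [hx, div_lt_iff₀ (by linarith)]
    linarith
  have hq := h.o.loc.qpos hx0.le hxa
  rw [h.qf] at hq
  set A : ℝ := (aeval x F : ℝ) with hA
  have hA1 : x * (1 - x - x ^ 2) < A * (1 - σ * x * (1 + x) ^ 2) := by
    have h4 : x * (1 + x) ^ 2 * (J + σ * A) < 1 + A := by
      rw [← ef x, ← eE x]
      have : 0 < (1 + x) ^ 2 := by positivity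
      nlinarith
    have h5 : J * x = 1 - x := by linarith
    have h6 : x * (1 + x) ^ 2 * (J + σ * A) = (J * x) * (1 + x) ^ 2 + A * (σ * x * (1 + x) ^ 2) := by
      ring
    rw [h6, h5] at h4
    nlinarith
  have hAb := abs_le.mp (abs_le1 (m := 1) (fun k hk => by
    rw [Nat.lt_one_iff.mp hk]; exact h0) hF hx0.le (by linarith))
  rw [pow_one] at hAb
  -- `0 < 1 - σ x (1+x)^2`
  have hkap : 0 < 1 - σ * x * (1 + x) ^ 2 := by
    have h4 : σ * x ≤ 1 - 2 * x := by
      have h7 : (σ + 1) * x ≤ J * x := mul_le_mul_of_nonneg_right hsj1 hx0.le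
      have h8 : J * x = 1 - x := by linarith
      linarith
    have h5 : σ * x * (1 + x) ^ 2 ≤ (1 - 2 * x) * (1 + x) ^ 2 :=
      mul_le_mul_of_nonneg_right h4 (by positivity)
    nlinarith [pow_pos hx0 2, pow_pos hx0 3]
  rcases eq_or_lt_of_le hs with hs2 | hs2
  · -- `s = 1`
    have hσ1 : σ = 1 := by rw [hσ, ← hs2]; norm_num
    rw [hσ1] at hA1 hkap
    have hAx : x < A := by
      by_contra hcon
      push Not at hcon
      have h4 : A * (1 - 1 * x * (1 + x) ^ 2) ≤ x * (1 - 1 * x * (1 + x) ^ 2) :=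
        mul_le_mul_of_nonneg_right hcon hkap.le
      nlinarith [pow_pos hx0 2, pow_pos hx0 3, pow_pos hx0 4]
    have hB := h.o.B
    rw [h.qf] at hB
    have hp2 : p < 1 / 2 := by nlinarith
    have hBp : (aeval p F : ℝ) ≤ p := by
      have h4 : 1 + (aeval p F : ℝ) ≤ p * (1 + p) * (J + 1 * aeval p F) := by
        have e1 : J + 1 * (aeval p F : ℝ) = aeval p E := by rw [eE p, hσ1]
        rw [← ef p, e1]
        have e2 : (aeval p f : ℝ) * (1 + p) ≤ p * aeval p E := by linarith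
        have e3 : 0 < 1 + p := by linarith
        have e4 := mul_le_mul_of_nonneg_right e2 e3.le
        linarith
      have h5 : J * p = 1 - p ^ 2 := by nlinarith
      have h6 : p * (1 + p) * (J + 1 * (aeval p F : ℝ)) =
        (J * p) * (1 + p) + aeval p F * (p * (1 + p)) := by ring
      rw [h6, h5] at h4
      have h7 : 0 < 1 - p - p ^ 2 := by nlinarith
      by_contra hcon
      push Not at hcon
      nlinarith
    exact two_pts h0 hF hx0 (by linarith) hp0 hp2 hAx hBp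
  · -- `s ≥ 2`
    have hσ2 : (2 : ℝ) ≤ σ := by
      rw [hσ]
      exact_mod_cast hs2
    have h4 : A * (1 - σ * x * (1 + x) ^ 2) ≤ x / (1 - x) * (1 - σ * x * (1 + x) ^ 2) :=
      mul_le_mul_of_nonneg_right hAb.2 hkap.le
    have h5 : x / (1 - x) * (1 - σ * x * (1 + x) ^ 2) ≤ x / (1 - x) * (1 - 2 * x * (1 + x) ^ 2) := by
      apply mul_le_mul_of_nonneg_left _ (div_nonneg hx0.le (by linarith))
      have : 2 * x * (1 + x) ^ 2 ≤ σ * x * (1 + x) ^ 2 := by
        apply mul_le_mul_of_nonneg_right _ (by positivity)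
        exact mul_le_mul_of_nonneg_right hσ2 hx0.le
      linarith
    have h6 : x / (1 - x) * (1 - 2 * x * (1 + x) ^ 2) ≤ x * (1 - x - x ^ 2) := by
      rw [div_mul_eq_mul_div, div_le_iff₀ (by linarith)]
      nlinarith [pow_pos hx0 2, pow_pos hx0 3, pow_pos hx0 4]
    linarith

/-- `E_1 < j (f_1 + 2)`: Harnack for `W` at `0` and `1/(j+1)`. -/
theorem IvD.w00 (h : IvD q f E a p j) : E.coeff 1 < (j : ℤ) * (f.coeff 1 + 2) := by
  obtain ⟨W, hW, hval⟩ := h.W
  have hj : (2 : ℝ) ≤ j := by exact_mod_cast h.o.j2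
  have hj0 : (j : ℝ) ≠ 0 := by linarith
  -- the numerator
  set P : ℤ[X] := C (j : ℤ) * (X * E) - C (2 * (j : ℤ)) * ((1 + X) * f) + C 2 * ((1 - X ^ 2) * E)
    with hP
  have hc0 : P.coeff 0 = 0 := by
    rw [hP, coeff_add, coeff_sub, coeff_C_mul, coeff_C_mul, coeff_C_mul, coeff_X_mul_zero,
      mul_coeff_zero, mul_coeff_zero, h.o.f0, h.e0]
    simp
  obtain ⟨N, hN⟩ := X_dvd_iff.mpr hc0
  have hN0 : N.coeff 0 = (j : ℤ) * j - 2 * j * (f.coeff 1 + 1) + 2 * E.coeff 1 := by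
    have h1 : P.coeff 1 = N.coeff 0 := by rw [hN]; exact coeff_X_mul N 0
    have hX2 : ((1 - X ^ 2) * E : ℤ[X]).coeff 1 = E.coeff 1 := by
      rw [sub_mul, one_mul, coeff_sub, coeff_X_pow_mul']
      simp
    have hX1 : ((1 + X) * f : ℤ[X]).coeff 1 = f.coeff 1 + f.coeff 0 := by
      rw [add_mul, one_mul, coeff_add, show (X * f : ℤ[X]).coeff 1 = f.coeff 0 from coeff_X_mul f 0]
    rw [← h1, hP, coeff_add, coeff_sub, coeff_C_mul, coeff_C_mul, coeff_C_mul, hX2, hX1,
      show (X * E : ℤ[X]).coeff 1 = E.coeff 0 from coeff_X_mul E 0, h.e0, h.o.f0]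
  have hval2 : ∀ x : ℝ, 0 < x → x < 1 → (W x).re = (aeval x N : ℝ) / (j * aeval x E) := by
    intro x hx0 hx1
    rw [hval x hx0 hx1]
    have hE := h.Epos hx0.le hx1.le
    have h2 := congrArg (fun P => (aeval x P : ℝ)) hN
    rw [hP] at h2
    simp only [map_mul, map_add, map_sub, aeval_X, aeval_C, map_one, map_pow] at h2
    simp only [eq_intCast, Int.cast_natCast, Int.cast_ofNat] at h2
    have h3 : (aeval x N : ℝ) = (j * (x * aeval x E) - 2 * j * ((1 + x) * aeval x f) +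
        2 * ((1 - x ^ 2) * aeval x E)) / x := by
      rw [eq_div_iff hx0.ne', mul_comm, h2]
    rw [h3]
    field_simp
  have hc1 : Tendsto (fun x : ℝ => (W x).re) (𝓝[>] 0) (𝓝 (W 0).re) := by
    have h1 : ContinuousAt W 0 :=
      (hW.d.continuousOn).continuousAt (ball_mem_nhds 0 one_pos)
    have h2 : Tendsto (fun x : ℝ => (x : ℂ)) (𝓝[>] 0) (𝓝 (0 : ℂ)) := by
      have h3 : Tendsto (fun x : ℝ => (x : ℂ)) (𝓝 0) (𝓝 ((0 : ℝ) : ℂ)) :=
        Complex.continuous_ofReal.continuousAt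
      rw [Complex.ofReal_zero] at h3
      exact h3.mono_left nhdsWithin_le_nhds
    exact (Complex.continuous_re.continuousAt.tendsto.comp (h1.tendsto.comp h2))
  have hE0 : (aeval (0 : ℝ) E : ℝ) = j := by
    rw [← coeff_zero_eq_aeval_zero', h.e0]
    simp
  have hNN : (aeval (0 : ℝ) N : ℝ) = N.coeff 0 := by
    rw [← coeff_zero_eq_aeval_zero']
    simp
  have hc2 : Tendsto (fun x : ℝ => (aeval x N : ℝ) / (j * aeval x E)) (𝓝[>] 0)
      (𝓝 ((N.coeff 0 : ℝ) / (j * j))) := by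
    have h1 : ContinuousAt (fun x : ℝ => (aeval x N : ℝ) / (j * aeval x E)) 0 := by
      apply ContinuousAt.div
      · exact (Polynomial.continuous_aeval N).continuousAt
      · exact (continuous_const.mul (Polynomial.continuous_aeval E)).continuousAt
      · rw [hE0]
        exact mul_ne_zero hj0 hj0
    have h2 := h1.tendsto
    simp only [hE0, hNN] at h2
    exact h2.mono_left nhdsWithin_le_nhds
  have hc3 : Tendsto (fun x : ℝ => (W x).re) (𝓝[>] 0) (𝓝 ((N.coeff 0 : ℝ) / (j * j))) := by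
    refine hc2.congr' ?_
    filter_upwards [Ioo_mem_nhdsGT (show (0 : ℝ) < 1 by norm_num)] with x hx
    exact (hval2 x hx.1 hx.2).symm
  have h4 := tendsto_nhds_unique hc1 hc3
  -- Harnack
  set b : ℝ := 1 / ((j : ℝ) + 1) with hb
  have hb0 : 0 < b := by rw [hb]; positivity
  have hbJ : b * ((j : ℝ) + 1) = 1 := by rw [hb]; field_simp
  have hb1 : b < 1 := by nlinarith
  have h5 := hW.lo (le_refl 0) hb0.le hb1
  rw [Complex.ofReal_zero, h4] at h5
  have h6 := h.low
  rw [← hb, ← hval b hb0 hb1] at h6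
  have h7 : (N.coeff 0 : ℝ) / (j * j) * (1 - b) < 1 + b := by
    nlinarith
  have h8 : (N.coeff 0 : ℝ) < (j + 2) * j := by
    rw [div_mul_eq_mul_div, div_lt_iff₀ (by positivity)] at h7
    have h9 : (N.coeff 0 : ℝ) * (b * j) < (b * ((j : ℝ) + 2)) * (j * j) := by
      have e1 : 1 - b = b * j := by linarith
      have e2 : 1 + b = b * ((j : ℝ) + 2) := by linarith
      rw [e1, e2] at h7
      exact h7
    have h10 : 0 < b * j := by positivity
    have h11 : (b * ((j : ℝ) + 2)) * (j * j) = ((j + 2) * j) * (b * j) := by ring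
    rw [h11] at h9
    exact lt_of_mul_lt_mul_right h9 h10.le
  have h9 : N.coeff 0 < ((j : ℤ) + 2) * j := by exact_mod_cast h8
  rw [hN0] at h9
  nlinarith

/-- Rows (U44), the value at `p`: `1 + F(p) ≤ c E(p)`. -/
theorem IvD.u44_aux (h : IvD q f E a p j) {m : ℕ}
    (hR : X ^ (m + 1) * E - (1 + F) = -((1 + X) * (∑ i ∈ Finset.range m, X ^ i) ^ 2 *
      ((1 + X) ^ 2 * f - X * E))) :
    (1 + (aeval p F : ℝ)) * (1 - p) ^ 2 ≤
      (p * p ^ m * (1 - p) ^ 2 + (1 + p) * p ^ 2 * (1 - p ^ m) ^ 2) * aeval p E := by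
  obtain ⟨h1, h2, h3⟩ := h.pb
  have hp0 := h.o.p0
  have hE := h.Epos hp0.le h2.le
  have hB := h.o.B
  rw [h.qf] at hB
  have h4 := congrArg (fun P => (aeval p P : ℝ)) hR
  simp only [map_mul, map_add, map_sub, map_neg, map_pow, map_one, aeval_X, map_sum] at h4
  set S : ℝ := ∑ i ∈ Finset.range m, p ^ i with hS
  have hS1 : S * (1 - p) = 1 - p ^ m := by
    have := geom_sum_mul_neg p m
    linarith
  set A : ℝ := (aeval p F : ℝ) with hA
  set e : ℝ := (aeval p E : ℝ) with he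
  set V : ℝ := (1 + p) ^ 2 * (aeval p f : ℝ) - p * e with hV
  have hV1 : V ≤ p ^ 2 * e := by
    have h5 : (aeval p f : ℝ) * (1 + p) ≤ p * e := by linarith
    have h6 := mul_le_mul_of_nonneg_right h5 (by linarith : 0 ≤ 1 + p)
    rw [hV]
    nlinarith
  have h7 : 1 + A = p ^ (m + 1) * e + (1 + p) * S ^ 2 * V := by linarith
  have h8 : (1 + A) * (1 - p) ^ 2 = p ^ (m + 1) * e * (1 - p) ^ 2 +
      (1 + p) * (S * (1 - p)) ^ 2 * V := by
    rw [h7]
    ring
  rw [h8, hS1]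
  have h9 : (1 + p) * (1 - p ^ m) ^ 2 * V ≤ (1 + p) * (1 - p ^ m) ^ 2 * (p ^ 2 * e) :=
    mul_le_mul_of_nonneg_left hV1 (by positivity)
  have h10 : (p * p ^ m * (1 - p) ^ 2 + (1 + p) * p ^ 2 * (1 - p ^ m) ^ 2) * e =
      p ^ (m + 1) * e * (1 - p) ^ 2 + (1 + p) * (1 - p ^ m) ^ 2 * (p ^ 2 * e) := by
    rw [pow_succ]
    ring
  rw [h10]
  linarith

/-- Rows (U44), `m ≥ 2`: the first coefficients. -/
theorem u44_one (hf0 : f.coeff 0 = 1) {m : ℕ} (hm : 2 ≤ m)
    (hR : X ^ (m + 1) * E - (1 + F) = -((1 + X) * (∑ i ∈ Finset.range m, X ^ i) ^ 2 *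
      ((1 + X) ^ 2 * f - X * E))) :
    F.coeff 1 = 5 + f.coeff 1 - E.coeff 0 := by
  obtain ⟨m, rfl⟩ := Nat.exists_eq_add_of_le' hm
  set S : ℤ[X] := ∑ i ∈ Finset.range (m + 2), X ^ i with hS
  have hS0 : S.coeff 0 = 1 := by
    rw [hS, finsetSum_coeff]
    simp [coeff_X_pow]
  have hS1 : S.coeff 1 = 1 := by
    rw [hS, finsetSum_coeff]
    simp [coeff_X_pow]
  have h1 := congrArg (fun P : ℤ[X] => P.coeff 1) hR
  have hX1 : (X ^ (m + 2 + 1) * E : ℤ[X]).coeff 1 = 0 := by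
    rw [coeff_X_pow_mul', if_neg (by omega)]
  have hone : (1 : ℤ[X]).coeff 1 = 0 := by rw [coeff_one]; simp
  simp only [coeff_sub, coeff_add, coeff_neg, hX1, mul_coeff_one, mul_coeff_zero, pow_two, hS0,
    hS1, hone, coeff_one_zero, coeff_X_zero, coeff_X_one, hf0] at h1
  linarith

/-- (U44) the relation of (4.4) is impossible, `j ≥ 3`. -/
theorem IvD.u44 (h : IvD q f E a p j) (hj3 : 3 ≤ j) (h0 : F.coeff 0 = 0)
    (hF : ∀ k, |F.coeff k| ≤ 1) {s m : ℕ} (hs : 1 ≤ s) (hsj : s + 1 ≤ j)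
    (hE : E = C (j : ℤ) + C (s : ℤ) * F) (hm : 1 ≤ m)
    (hR : X ^ (m + 1) * E - (1 + F) = -((1 + X) * (∑ i ∈ Finset.range m, X ^ i) ^ 2 *
      ((1 + X) ^ 2 * f - X * E))) : False := by
  obtain ⟨h1, h2, h3⟩ := h.pb
  have hp0 := h.o.p0
  have hEp := h.Epos hp0.le h2.le
  have hmain := h.u44_aux hR
  have hj : (3 : ℝ) ≤ j := by exact_mod_cast hj3
  have hs1 : (1 : ℝ) ≤ s := by exact_mod_cast hs
  have hsj1 : (s : ℝ) + 1 ≤ j := by exact_mod_cast hsj
  have eE : (aeval p E : ℝ) = j + s * aeval p F := by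
    rw [hE, map_add, map_mul, aeval_C, aeval_C]
    simp
  have hAb := abs_le.mp (abs_le1 (m := 1) (fun k hk => by
    rw [Nat.lt_one_iff.mp hk]; exact h0) hF hp0.le h2)
  rw [pow_one] at hAb
  obtain ⟨hAl, -⟩ := hAb
  have hw := h.w00
  have hEc1 : E.coeff 1 = (s : ℤ) * F.coeff 1 := by
    rw [hE, coeff_add, coeff_C_mul, coeff_C]
    simp
  have hEc0 := h.e0
  set A : ℝ := (aeval p F : ℝ) with hA
  -- `E(p) ≤ j + A` when `A ≤ 0`
  rw [eE] at hmain hEp
  set t : ℝ := p ^ m with ht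
  have ht0 : 0 < t := pow_pos hp0 m
  have htp : t ≤ p := by
    obtain ⟨n, rfl⟩ := Nat.exists_eq_add_of_le' hm
    rw [ht, pow_succ]
    exact mul_le_of_le_one_left hp0.le (pow_le_one₀ hp0.le h2.le)
  have hp13 : 0 < 1 - p := by linarith
  -- a bound with `σ A ≤ A` for `A ≤ 0`, and everything is fine for `A ≥ 0`
  rcases lt_or_ge 3 j with hj4 | hj4
  · have hj5 : (4 : ℝ) ≤ j := by exact_mod_cast hj4
    have hp4 : p ≤ 1 / 4 := by nlinarith
    have hc : p * t * (1 - p) ^ 2 + (1 + p) * p ^ 2 * (1 - t) ^ 2 ≤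
        p ^ 2 * (2 + p) * (1 - p) ^ 2 := by
      have e1 : 0 ≤ 1 - 4 * p + p ^ 3 := by nlinarith [pow_pos hp0 3]
      have e2 : p ^ 2 * (2 + p) * (1 - p) ^ 2 -
          (p * t * (1 - p) ^ 2 + (1 + p) * p ^ 2 * (1 - t) ^ 2) =
          p * (p - t) * (1 - 4 * p + p ^ 3) + p ^ 2 * (1 + p) * (t * (p - t)) := by
        ring
      have e3 : 0 ≤ p * (p - t) * (1 - 4 * p + p ^ 3) :=
        mul_nonneg (mul_nonneg hp0.le (by linarith)) e1
      have e4 : 0 ≤ p ^ 2 * (1 + p) * (t * (p - t)) :=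
        mul_nonneg (by positivity) (mul_nonneg ht0.le (by linarith))
      linarith
    have h5 : (1 + A) * (1 - p) ^ 2 ≤ p ^ 2 * (2 + p) * (1 - p) ^ 2 * (j + s * A) :=
      hmain.trans (mul_le_mul_of_nonneg_right hc hEp.le)
    have h6 : 1 + A ≤ p ^ 2 * (2 + p) * (j + s * A) := by
      have h7 : 0 < (1 - p) ^ 2 := by positivity
      have h8 : (1 + A) * (1 - p) ^ 2 ≤ (p ^ 2 * (2 + p) * (j + s * A)) * (1 - p) ^ 2 := by
        linarith
      exact le_of_mul_le_mul_right h8 h7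
    have h9 : p ^ 2 * (2 + p) * (j + s * A) = p * (2 + p) * (j * p) + s * p * (p * (2 + p)) * A := by
      ring
    have h10 : (j : ℝ) * p = 1 - p ^ 2 := by linarith
    have hsp : (s : ℝ) * p ≤ 1 := by nlinarith
    rw [h9, h10] at h6
    have hsp0 : 0 ≤ (s : ℝ) * p := by positivity
    have h11 : p * (2 + p) ≤ 9 / 16 := by nlinarith
    have h12 : s * p * (p * (2 + p)) ≤ 9 / 16 := by
      calc s * p * (p * (2 + p)) ≤ 1 * (p * (2 + p)) :=
            mul_le_mul_of_nonneg_right hsp (by positivity)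
        _ ≤ 9 / 16 := by linarith
    have h13 : -(1 / 3) ≤ A := by
      have h14 : p / (1 - p) ≤ 1 / 3 := by
        rw [div_le_div_iff₀ hp13 (by norm_num)]
        linarith
      linarith
    have h15 : 0 ≤ 1 - s * p * (p * (2 + p)) := by linarith
    have h16 : -(1 / 3) * (1 - s * p * (p * (2 + p))) ≤ A * (1 - s * p * (p * (2 + p))) :=
      mul_le_mul_of_nonneg_right h13 h15
    have h17 : 0 ≤ s * p * (p * (2 + p)) := by positivity
    have h18 : p * (2 + p) * (1 - p ^ 2) ≤ 9 / 16 := by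
      calc p * (2 + p) * (1 - p ^ 2) ≤ p * (2 + p) * 1 :=
            mul_le_mul_of_nonneg_left (by nlinarith) (by positivity)
        _ ≤ 9 / 16 := by linarith
    linarith
  · have hj3' : j = 3 := le_antisymm hj4 hj3
    subst hj3'
    push_cast at *
    have hp1 : p < 3028 / 10000 := by nlinarith
    have hp2 : 3027 / 10000 < p := by nlinarith
    have hsA : A ≤ 0 → (s : ℝ) * A ≤ A := fun hA0 => by nlinarith
    rcases eq_or_lt_of_le hm with hm1 | hm2
    · -- `m = 1`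
      have htm : t = p := by rw [ht, ← hm1, pow_one]
      rw [htm] at hmain
      have h5 : (1 + A) * (1 - p) ^ 2 ≤ p ^ 2 * (2 + p) * (3 + s * A) * (1 - p) ^ 2 := by
        have e1 : p * p * (1 - p) ^ 2 + (1 + p) * p ^ 2 * (1 - p) ^ 2 =
          p ^ 2 * (2 + p) * (1 - p) ^ 2 := by ring
        rw [e1] at hmain
        linarith
      have h6 : 1 + A ≤ p ^ 2 * (2 + p) * (3 + s * A) :=
        le_of_mul_le_mul_right h5 (by positivity)
      have h7 : p ^ 2 * (2 + p) ≤ 2112 / 10000 := by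
        have e1 : p ^ 2 ≤ (3028 / 10000) ^ 2 := pow_le_pow_left₀ hp0.le hp1.le 2
        calc p ^ 2 * (2 + p) ≤ (3028 / 10000) ^ 2 * (2 + 3028 / 10000) :=
              mul_le_mul e1 (by linarith) (by linarith) (by positivity)
          _ ≤ _ := by norm_num
      have h8 : 1 + A ≤ 2112 / 10000 * (3 + s * A) :=
        h6.trans (mul_le_mul_of_nonneg_right h7 hEp.le)
      have h9 : -(4344 / 10000) ≤ A := by
        have e1 : p / (1 - p) ≤ 4344 / 10000 := by
          rw [div_le_iff₀ hp13]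
          linarith
        linarith
      have hs2 : (s : ℝ) ≤ 2 := by linarith
      rcases le_or_gt A 0 with hA0 | hA0
      · have := hsA hA0
        linarith
      · nlinarith
    · -- `m ≥ 2`
      have hone := u44_one h.o.f0 hm2 hR
      have hF1 : F.coeff 1 ≠ -1 := by
        intro hcon
        rw [hcon] at hone hEc1
        rw [hEc0] at hone
        rw [hEc1] at hw
        omega
      have hb := abs_le.mp (hF 1)
      -- `A ≥ - p²/(1-p)`
      have hA2 : -(p ^ 2 / (1 - p)) ≤ A := by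
        have e2 : ∀ k < 2, (F - C (F.coeff 1) * X).coeff k = 0 := by
          intro k hk
          interval_cases k
          · simp [h0]
          · simp
        have e3 : ∀ k, |(F - C (F.coeff 1) * X).coeff k| ≤ 1 := by
          intro k
          rw [coeff_sub, coeff_C_mul_X]
          by_cases hk : k = 1
          · rw [if_pos hk, hk, sub_self]
            norm_num
          · rw [if_neg hk, sub_zero]
            exact hF k
        have e4 := (abs_le.mp (abs_le1 e2 e3 hp0.le h2)).1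
        rw [map_sub, map_mul, aeval_C, aeval_X] at e4
        have e5 : (0 : ℝ) ≤ ((F.coeff 1 : ℤ) : ℝ) := by
          have : 0 ≤ F.coeff 1 := by omega
          exact_mod_cast this
        have e7 : 0 ≤ (algebraMap ℤ ℝ (F.coeff 1)) * p := by
          rw [eq_intCast]
          exact mul_nonneg e5 hp0.le
        linarith
      have h9 : -(1317 / 10000) ≤ A := by
        have e1 : p ^ 2 / (1 - p) ≤ 1317 / 10000 := by
          rw [div_le_iff₀ hp13]
          nlinarith
        linarith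
      have hc : p * t * (1 - p) ^ 2 + (1 + p) * p ^ 2 * (1 - t) ^ 2 ≤ (1 + p) * p ^ 2 := by
        have e1 : (1 - p) ^ 2 ≤ (1 + p) * p * (2 - t) := by nlinarith
        have e2 : p * t * (1 - p) ^ 2 ≤ p * t * ((1 + p) * p * (2 - t)) :=
          mul_le_mul_of_nonneg_left e1 (by positivity)
        have e3 : p * t * ((1 + p) * p * (2 - t)) + (1 + p) * p ^ 2 * (1 - t) ^ 2 =
            (1 + p) * p ^ 2 := by ring
        linarith
      have h5 : (1 + A) * (1 - p) ^ 2 ≤ (1 + p) * p ^ 2 * (3 + s * A) :=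
        hmain.trans (mul_le_mul_of_nonneg_right hc hEp.le)
      have h6 : (1 + p) * p ^ 2 ≤ 1195 / 10000 := by
        have e1 : p ^ 2 ≤ (3028 / 10000) ^ 2 := pow_le_pow_left₀ hp0.le hp1.le 2
        calc (1 + p) * p ^ 2 ≤ (1 + 3028 / 10000) * (3028 / 10000) ^ 2 :=
              mul_le_mul (by linarith) e1 (by positivity) (by norm_num)
          _ ≤ _ := by norm_num
      have h7 : (6972 / 10000 : ℝ) ^ 2 ≤ (1 - p) ^ 2 :=
        pow_le_pow_left₀ (by norm_num) (by linarith) 2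
      have h8 : (1 + A) * (6972 / 10000 : ℝ) ^ 2 ≤ 1195 / 10000 * (3 + s * A) := by
        calc (1 + A) * (6972 / 10000 : ℝ) ^ 2 ≤ (1 + A) * (1 - p) ^ 2 :=
              mul_le_mul_of_nonneg_left h7 (by linarith)
          _ ≤ _ := h5
          _ ≤ _ := mul_le_mul_of_nonneg_right h6 hEp.le
      have hs2 : (s : ℝ) ≤ 2 := by linarith
      rcases le_or_gt A 0 with hA0 | hA0
      · have := hsA hA0
        norm_num at h8
        linarith
      · norm_num at h8
        nlinarith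

end Pool.Agent.B5.OOne
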