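import Pool.Agent.Lib.MP_b5021c_nt.KO.H52.T00
import Pool.Agent.Lib.MP_b5021c_nt.KO.H52.Uf

/-!
# MP_b5021c_nt, all `θ`, K ODD, (O1-iv) (4.4): `m ≥ 3` and the type `(1, 0)` (one variable)
-/

namespace Pool.Agent.B5.OOne

open Polynomial
open scoped LaurentPolynomial
open Pool.Agent.B5.H52.T00

variable {q f E : ℤ[X]} {a p : ℝ} {j : ℕ}

theorem br_zero {m : ℕ} (hm : 1 ≤ m) : (br m).coeff 0 = 1 := by
  obtain ⟨m, rfl⟩ := Nat.exists_eq_add_of_le' hm
  unfold br
  rw [finsetSum_coeff]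
  simp [coeff_X_pow]

theorem br_one {m : ℕ} (hm : 2 ≤ m) : (br m).coeff 1 = 1 := by
  obtain ⟨m, rfl⟩ := Nat.exists_eq_add_of_le' hm
  unfold br
  rw [finsetSum_coeff]
  simp [coeff_X_pow]

theorem br_aeval {m : ℕ} (x : ℝ) : (aeval x (br m) : ℝ) * (1 - x) = 1 - x ^ m := by
  have h := congrArg (fun P => (aeval x P : ℝ)) (br_mul m)
  simpa using h

/-- (TN) the mass `fej 1 m`, `m ≥ 3`. -/
theorem IvD.tn (h : IvD q f E a p j) {m : ℕ} (hm : 3 ≤ m) {k ep : ℤ} (hep : ep = 1 ∨ ep = -1)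
    (hR : fej 1 m * toLaurent ((1 + X) ^ 2 * f - X * E) =
      (1 + LaurentPolynomial.T 1) * (toLaurent f + LaurentPolynomial.C ep *
        LaurentPolynomial.T k * toLaurent f) - LaurentPolynomial.T 1 * toLaurent E) : False := by
  set V : ℤ[X] := (1 + X) ^ 2 * f - X * E with hV
  have hV0 : V.coeff 0 = 1 := by
    rw [hV]
    simp only [coeff_sub, mul_coeff_zero, pow_two, coeff_add, coeff_one_zero, coeff_X_zero, h.o.f0]
    norm_num
  -- multiplied by `T (m - 1)`
  have h1 : toLaurent (br m ^ 2 * V) = (1 + LaurentPolynomial.T 1) *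
      (LaurentPolynomial.T ((m : ℤ) - 1) * toLaurent f + LaurentPolynomial.C ep *
        LaurentPolynomial.T (k + ((m : ℤ) - 1)) * toLaurent f) -
        LaurentPolynomial.T (m : ℤ) * toLaurent E := by
    have h2 := congrArg (fun P => LaurentPolynomial.T ((m : ℤ) - 1) * P) hR
    have h3 : LaurentPolynomial.T ((m : ℤ) - 1) * (fej 1 m * toLaurent V) =
        toLaurent (br m ^ 2 * V) := by
      rw [← mul_assoc, T_mul_fej, map_mul]
    have h4 : (LaurentPolynomial.T (m : ℤ) : RO ℤ) =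
        LaurentPolynomial.T ((m : ℤ) - 1) * LaurentPolynomial.T 1 := by
      rw [← LaurentPolynomial.T_add]
      congr 1
      ring
    have h5 : (LaurentPolynomial.T (k + ((m : ℤ) - 1)) : RO ℤ) =
        LaurentPolynomial.T k * LaurentPolynomial.T ((m : ℤ) - 1) := LaurentPolynomial.T_add _ _
    rw [← h3, h4, h5]
    rw [h2]
    ring
  have hTX : ∀ n : ℕ, (LaurentPolynomial.T (n : ℤ) : RO ℤ) = toLaurent (X ^ n) := fun n =>
    (toLaurent_X_pow n).symm
  have hT1 : (LaurentPolynomial.T 1 : RO ℤ) = toLaurent X := toLaurent_X.symm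
  have hm1 : ((m : ℤ) - 1) = ((m - 1 : ℕ) : ℤ) := by omega
  have c1 : (X ^ (m - 1) : ℤ[X]).coeff 0 = 0 := by
    rw [coeff_X_pow, if_neg]
    omega
  have c2 : (X ^ (m - 1) : ℤ[X]).coeff 1 = 0 := by
    rw [coeff_X_pow, if_neg]
    omega
  have c3 : (X ^ m : ℤ[X]).coeff 0 = 0 := by
    rw [coeff_X_pow, if_neg]
    omega
  have c4 : (X ^ m : ℤ[X]).coeff 1 = 0 := by
    rw [coeff_X_pow, if_neg]
    omega
  have c5 : (1 : ℤ[X]).coeff 1 = 0 := by
    rw [coeff_one, if_neg]
    norm_num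
  rcases lt_trichotomy (k + ((m : ℤ) - 1)) 0 with hK | hK | hK
  · -- negative exponent
    obtain ⟨n, hn⟩ : ∃ n : ℕ, (n : ℤ) = -(k + ((m : ℤ) - 1)) := ⟨(-(k + ((m : ℤ) - 1))).toNat, by
      omega⟩
    have hn1 : 1 ≤ n := by omega
    have h2 : (X ^ n * (br m ^ 2 * V) : ℤ[X]) =
        (1 + X) * (X ^ n * X ^ (m - 1) * f + C ep * f) - X ^ n * X ^ m * E := by
      apply toLaurent_injective
      rw [map_mul, h1, ← hTX, hm1]
      simp only [map_mul, map_sub, map_add, map_one, ← hT1, ← hTX, toLaurent_C]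
      have h3 : (LaurentPolynomial.T (k + ((m - 1 : ℕ) : ℤ)) * LaurentPolynomial.T (n : ℤ) : RO ℤ) =
          1 := by
        rw [← LaurentPolynomial.T_add, ← hm1, hn, add_neg_cancel, LaurentPolynomial.T_zero]
      linear_combination (1 + LaurentPolynomial.T 1) * LaurentPolynomial.C ep * toLaurent f * h3
    have c6 : (X ^ n : ℤ[X]).coeff 0 = 0 := by
      rw [coeff_X_pow, if_neg]
      omega
    have h3 := congrArg (fun P : ℤ[X] => P.coeff 0) h2
    simp only [coeff_sub, coeff_add, mul_coeff_zero, c1, c3, c6,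
      coeff_one_zero, coeff_X_zero, coeff_C_zero, h.o.f0] at h3
    rcases hep with h4 | h4 <;> rw [h4] at h3 <;> norm_num at h3
  · -- exponent zero
    rw [hK, LaurentPolynomial.T_zero, mul_one] at h1
    have h2 : (br m ^ 2 * V : ℤ[X]) = (1 + X) * (X ^ (m - 1) * f + C ep * f) - X ^ m * E := by
      apply toLaurent_injective
      rw [h1, hm1]
      simp only [map_mul, map_sub, map_add, map_one, ← hT1, ← hTX, toLaurent_C]
    have hep1 : ep = 1 := by
      have h3 := congrArg (fun P : ℤ[X] => P.coeff 0) h2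
      simp only [coeff_sub, coeff_add, mul_coeff_zero, pow_two, br_zero (by omega : 1 ≤ m), hV0,
        coeff_one_zero, coeff_X_zero, c1, c3, coeff_C_zero, h.o.f0] at h3
      linarith
    subst hep1
    rw [map_one, one_mul] at h2
    -- `j = 3`
    have hj3 : (j : ℤ) = 3 := by
      have h3 := congrArg (fun P : ℤ[X] => P.coeff 1) h2
      simp only [coeff_sub, coeff_add, mul_coeff_one, mul_coeff_zero, pow_two,
        br_zero (by omega : 1 ≤ m), br_one (by omega : 2 ≤ m), hV0,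
        coeff_one_zero, coeff_X_zero, coeff_X_one, c1, c2, c3, c4, c5, h.o.f0] at h3
      have hV1 : V.coeff 1 = f.coeff 1 + 2 - E.coeff 0 := by
        rw [hV]
        simp only [coeff_sub, coeff_add, mul_coeff_one, mul_coeff_zero, pow_two,
          coeff_one_zero, coeff_X_zero, coeff_X_one, h.o.f0, c5]
        ring
      rw [hV1, h.e0] at h3
      linarith
    have hj3' : j = 3 := by exact_mod_cast hj3
    subst hj3'
    obtain ⟨g1, g2, -⟩ := h.pb
    push_cast at g1
    have hp0 := h.o.p0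
    have hp1 : p < 3028 / 10000 := by nlinarith
    have hE := h.Epos hp0.le g2.le
    have hB := h.o.B
    rw [h.qf] at hB
    have h3 := congrArg (fun P => (aeval p P : ℝ)) h2
    rw [hV] at h3
    simp only [map_mul, map_sub, map_add, map_pow, map_one, aeval_X] at h3
    have hS := br_aeval (m := m) p
    set S : ℝ := (aeval p (br m) : ℝ) with hSd
    set fp : ℝ := (aeval p f : ℝ) with hfp
    set Ep : ℝ := (aeval p E : ℝ) with hEp
    have hq0 : 0 < 1 - p := by linarith
    have hpm : p ^ m ≤ p := by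
      obtain ⟨n, rfl⟩ := Nat.exists_eq_add_of_le' (show 1 ≤ m by omega)
      rw [pow_succ]
      exact mul_le_of_le_one_left hp0.le (pow_le_one₀ hp0.le g2.le)
    have hpm0 : 0 < p ^ m := pow_pos hp0 m
    have hS1 : 1 ≤ S := by
      by_contra hcon
      push Not at hcon
      nlinarith
    have hS2 : p * S ^ 2 < 1 := by
      have e1 : S * (1 - p) ≤ 1 := by rw [hS]; linarith
      have e2 : 0 < S * (1 - p) := mul_pos (by linarith) hq0
      have e3 : (S * (1 - p)) ^ 2 ≤ 1 := pow_le_one₀ e2.le e1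
      have e4 : p < (1 - p) ^ 2 := by nlinarith
      have e5 : p * S ^ 2 < (1 - p) ^ 2 * S ^ 2 := mul_lt_mul_of_pos_right e4 (by positivity)
      have e6 : (1 - p) ^ 2 * S ^ 2 = (S * (1 - p)) ^ 2 := by ring
      linarith
    -- `p ^ (m - 1) ≤ p`
    set r : ℝ := p ^ (m - 1) with hr
    have hr0 : 0 < r := pow_pos hp0 _
    have hrp : r ≤ p := by
      obtain ⟨n, rfl⟩ := Nat.exists_eq_add_of_le' (show 2 ≤ m by omega)
      rw [hr, show n + 2 - 1 = n + 1 by omega, pow_succ]
      exact mul_le_of_le_one_left hp0.le (pow_le_one₀ hp0.le g2.le)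
    have hrm : p ^ m = r * p := by
      rw [hr, ← pow_succ, Nat.sub_add_cancel (by omega)]
    rw [hrm] at h3
    -- `(1 + p) f [(1 + p) S² - 1 - r] = p E (S² - r)`
    have h4 : (1 + p) * fp * ((1 + p) * S ^ 2 - 1 - r) = p * Ep * (S ^ 2 - r) := by
      linear_combination h3
    have hSS : 1 ≤ S ^ 2 := one_le_pow₀ hS1
    have h5 : (1 + p) * fp ≤ p * Ep := by linarith
    have h6 : 0 < S ^ 2 - r := by linarith
    have h7 : 0 < p * Ep := mul_pos hp0 hE
    have h8 : 0 ≤ (1 + p) * S ^ 2 - 1 - r := by nlinarith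
    have hfpos : 0 < (1 + p) * fp := by
      by_contra hcon
      push Not at hcon
      have e1 : (1 + p) * fp * ((1 + p) * S ^ 2 - 1 - r) ≤ 0 := mul_nonpos_of_nonpos_of_nonneg hcon h8
      have e2 : 0 < p * Ep * (S ^ 2 - r) := mul_pos h7 h6
      linarith
    have h9 : (1 + p) * fp * (S ^ 2 - r) ≤ p * Ep * (S ^ 2 - r) :=
      mul_le_mul_of_nonneg_right h5 h6.le
    have h10 : 0 ≤ (1 + p) * fp * (p * S ^ 2 - 1) := by
      have e1 : (1 + p) * fp * ((1 + p) * S ^ 2 - 1 - r) - (1 + p) * fp * (S ^ 2 - r) =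
        (1 + p) * fp * (p * S ^ 2 - 1) := by ring
      linarith
    have h11 : (1 + p) * fp * (p * S ^ 2 - 1) < 0 := mul_neg_of_pos_of_neg hfpos (by linarith)
    linarith
  · -- positive exponent
    obtain ⟨n, hn⟩ : ∃ n : ℕ, (n : ℤ) = k + ((m : ℤ) - 1) := ⟨(k + ((m : ℤ) - 1)).toNat, by
      omega⟩
    have hn1 : 1 ≤ n := by omega
    rw [← hn] at h1
    have h2 : (br m ^ 2 * V : ℤ[X]) =
        (1 + X) * (X ^ (m - 1) * f + C ep * X ^ n * f) - X ^ m * E := by
      apply toLaurent_injective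
      rw [h1, hm1]
      simp only [map_mul, map_sub, map_add, map_one, ← hT1, ← hTX, toLaurent_C]
    have c6 : (X ^ n : ℤ[X]).coeff 0 = 0 := by
      rw [coeff_X_pow, if_neg]
      omega
    have h3 := congrArg (fun P : ℤ[X] => P.coeff 0) h2
    simp only [coeff_sub, coeff_add, mul_coeff_zero, pow_two, br_zero (by omega : 1 ≤ m), hV0,
      coeff_one_zero, coeff_X_zero, c1, c3, c6, coeff_C_zero, h.o.f0] at h3
    norm_num at h3

/-- (T10) the type `(1, 0)`, `m` even. -/
theorem IvD.t10 (h : IvD q f E a p j) {m : ℕ} (hm : 1 ≤ m) {k ep : ℤ} (hep : ep = 1 ∨ ep = -1)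
    (hx : ∃ x : ℝ, 0 < x ∧ x < 1 ∧ (aeval x ((1 + X) ^ 2 * f - X * E) : ℝ) = 0)
    (hR : fej 1 m * toLaurent ((1 + X) ^ 2 * f - X * E) =
      -(LaurentPolynomial.T 1 * (1 + LaurentPolynomial.T 1)) * (toLaurent f +
        LaurentPolynomial.C ep * LaurentPolynomial.T k * toLaurent f)) : False := by
  set V : ℤ[X] := (1 + X) ^ 2 * f - X * E with hV
  have hV0 : V.coeff 0 = 1 := by
    rw [hV]
    simp only [coeff_sub, mul_coeff_zero, pow_two, coeff_add, coeff_one_zero, coeff_X_zero, h.o.f0]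
    norm_num
  obtain ⟨x, hx0, hx1, hxV⟩ := hx
  have hEx := h.Epos hx0.le hx1.le
  have hVx : (1 + x) ^ 2 * (aeval x f : ℝ) - x * aeval x E = 0 := by
    rw [hV] at hxV
    simpa using hxV
  have hfx : (aeval x f : ℝ) ≠ 0 := by
    intro h1
    rw [h1, mul_zero, zero_sub, neg_eq_zero] at hVx
    exact (mul_pos hx0 hEx).ne' hVx
  -- multiplied by `T (m - 1)`
  have h1 : toLaurent (br m ^ 2 * V) = -(LaurentPolynomial.T (m : ℤ) *
      (1 + LaurentPolynomial.T 1)) * (toLaurent f +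
        LaurentPolynomial.C ep * LaurentPolynomial.T k * toLaurent f) := by
    have h2 := congrArg (fun P => LaurentPolynomial.T ((m : ℤ) - 1) * P) hR
    have h3 : LaurentPolynomial.T ((m : ℤ) - 1) * (fej 1 m * toLaurent V) =
        toLaurent (br m ^ 2 * V) := by
      rw [← mul_assoc, T_mul_fej, map_mul]
    have h4 : (LaurentPolynomial.T (m : ℤ) : RO ℤ) =
        LaurentPolynomial.T ((m : ℤ) - 1) * LaurentPolynomial.T 1 := by
      rw [← LaurentPolynomial.T_add]
      congr 1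
      ring
    rw [← h3, h4]
    rw [h2]
    ring
  have hTX : ∀ n : ℕ, (LaurentPolynomial.T (n : ℤ) : RO ℤ) = toLaurent (X ^ n) := fun n =>
    (toLaurent_X_pow n).symm
  have hT1 : (LaurentPolynomial.T 1 : RO ℤ) = toLaurent X := toLaurent_X.symm
  have hxm : x ^ m ≠ 0 := (pow_pos hx0 m).ne'
  have hx11 : (1 + x) ≠ 0 := by linarith
  rcases lt_or_ge k 0 with hk | hk
  · obtain ⟨n, hn⟩ : ∃ n : ℕ, (n : ℤ) = -k := ⟨(-k).toNat, by omega⟩
    have hn1 : n ≠ 0 := by omega
    have h2 : (X ^ n * (br m ^ 2 * V) : ℤ[X]) = -(X ^ m * (1 + X)) * ((X ^ n + C ep) * f) := by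
      apply toLaurent_injective
      rw [map_mul, h1, ← hTX]
      simp only [map_mul, map_neg, map_add, map_one, ← hT1, ← hTX, toLaurent_C]
      have h3 : (LaurentPolynomial.T k * LaurentPolynomial.T (n : ℤ) : RO ℤ) = 1 := by
        rw [← LaurentPolynomial.T_add, hn, add_neg_cancel, LaurentPolynomial.T_zero]
      linear_combination -(LaurentPolynomial.T (m : ℤ) * (1 + LaurentPolynomial.T 1)) *
        LaurentPolynomial.C ep * toLaurent f * h3
    have h3 := congrArg (fun P => (aeval x P : ℝ)) h2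
    simp only [map_mul, map_neg, map_add, map_pow, map_one, aeval_X, aeval_C, hxV, mul_zero] at h3
    have h4 : x ^ n + (algebraMap ℤ ℝ ep) ≠ 0 := by
      have e1 : x ^ n < 1 := pow_lt_one₀ hx0.le hx1 hn1
      have e2 : 0 < x ^ n := pow_pos hx0 n
      rcases hep with h5 | h5
      · rw [h5, map_one]
        linarith
      · rw [h5, map_neg, map_one]
        linarith
    exact mul_ne_zero (neg_ne_zero.mpr (mul_ne_zero hxm hx11)) (mul_ne_zero h4 hfx) h3.symm
  · obtain ⟨n, hn⟩ : ∃ n : ℕ, (n : ℤ) = k := ⟨k.toNat, by omega⟩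
    subst hn
    have h2 : (br m ^ 2 * V : ℤ[X]) = -(X ^ m * (1 + X)) * ((1 + C ep * X ^ n) * f) := by
      apply toLaurent_injective
      rw [h1]
      simp only [map_mul, map_neg, map_add, map_one, ← hT1, ← hTX, toLaurent_C]
      ring
    rcases Nat.eq_zero_or_pos n with hn0 | hn0
    · subst hn0
      have h3 := congrArg (fun P : ℤ[X] => P.coeff 0) h2
      simp only [mul_coeff_zero, pow_two, coeff_neg, br_zero hm, hV0, coeff_X_pow] at h3
      rw [if_neg (by omega)] at h3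
      norm_num at h3
    · have h3 := congrArg (fun P => (aeval x P : ℝ)) h2
      simp only [map_mul, map_neg, map_add, map_pow, map_one, aeval_X, aeval_C, hxV, mul_zero] at h3
      have h4 : 1 + (algebraMap ℤ ℝ ep) * x ^ n ≠ 0 := by
        have e1 : x ^ n < 1 := pow_lt_one₀ hx0.le hx1 (by omega)
        have e2 : 0 < x ^ n := pow_pos hx0 n
        rcases hep with h5 | h5
        · rw [h5, map_one]
          linarith
        · rw [h5, map_neg, map_one]
          linarith
      exact mul_ne_zero (neg_ne_zero.mpr (mul_ne_zero hxm hx11)) (mul_ne_zero h4 hfx) h3.symm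

end Pool.Agent.B5.OOne
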